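import Pool.Agent.PAN.Defs
import Pool.Agent.PAL.Trans

/-!
# PAN/Blk (module PAN-Blk): the transfer lemma with relaxed columns

For `w : G → ℝ` and `c : G ⧸ V` let `cut c w y = w y` if `mk y⁻¹ = c`, and `0` otherwise.  Then for every `f`
(additivity in `f`, `add_ext`): `∑_c ra (cut c w) (blk V c c' f) y = ra w f y` if `mk y⁻¹ = c'` and `0` otherwise
(`ra u (blk V c c' f) y = lin (fun g => if g • c' = c then u (y g⁻¹) else 0) f`, and `mk (y g⁻¹)⁻¹ = g • mk y⁻¹`).
Apply `transfer` (`PAL/Trans.lean`) with the index sets `ρ × (G ⧸ V)`, `(σ × (G ⧸ V)) ⊕ (τ × {c' // c' ≠ mk 1})` and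
`τ`, the matrices `blk V c c' (J l j)`, `blk V c c' (J' l j)`, `blk V c (mk 1) (J' l j)`, and the vector
`(l, c) ↦ cut c (v l)` (`mk y⁻¹ = mk 1` iff `y ∈ V`).
-/

set_option autoImplicit false

open PFC PAL PAM

namespace PAN

open Classical in
private noncomputable def Blk_cut {G : Type} [Group G] (V : Subgroup G) (c : G ⧸ V) (w : G → ℝ)
    (y : G) : ℝ :=
  if ((y⁻¹ : G) : G ⧸ V) = c then w y else 0

private theorem Blk_cut_sq {G : Type} [Group G] (V : Subgroup G) (c : G ⧸ V) (w : G → ℝ)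
    (hw : Sq w) : Sq (Blk_cut V c w) := by
  unfold Sq at hw ⊢
  refine Summable.of_nonneg_of_le (fun y => sq_nonneg _) (fun y => ?_) hw
  unfold Blk_cut
  split_ifs
  · exact le_refl _
  · have := sq_nonneg (w y)
    simpa using this

private noncomputable def Blk_ra {G : Type} [Group G] (w : G → ℝ) (x : G) : GR G →+ ℝ :=
  lin (fun g => w (x * g⁻¹))

private theorem Blk_ra_apply {G : Type} [Group G] (w : G → ℝ) (f : GR G) (x : G) :
    Blk_ra w x f = ra w f x := rfl

open Classical in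
private noncomputable def Blk_blk {G : Type} [Group G] (V : Subgroup G) (c c' : G ⧸ V) :
    GR G →+ GR G :=
  lin (fun g => if g • c' = c then (el g : GR G) else 0)

private theorem Blk_blk_apply {G : Type} [Group G] (V : Subgroup G) (c c' : G ⧸ V) (f : GR G) :
    Blk_blk V c c' f = blk V c c' f := rfl

open Classical in
private theorem Blk_el {G : Type} [Group G] (V : Subgroup G) [Fintype (G ⧸ V)] (c' : G ⧸ V)
    (w : G → ℝ) (g y : G) :
    ∑ c, ra (Blk_cut V c w) (blk V c c' (el g)) y =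
      if ((y⁻¹ : G) : G ⧸ V) = c' then ra w (el g) y else 0 := by
  have h1 : ∀ c : G ⧸ V, ra (Blk_cut V c w) (blk V c c' (el g)) y =
      if g • c' = c then Blk_cut V c w (y * g⁻¹) else 0 := by
    intro c
    have h2 : blk V c c' (el g) = if g • c' = c then (el g : GR G) else 0 := by
      unfold blk
      rw [PAL.lin_el]
    rw [h2]
    split_ifs with h3
    · unfold ra
      rw [PAL.lin_el]
    · unfold ra
      rw [map_zero]
  rw [Finset.sum_congr rfl (fun c _ => h1 c), Finset.sum_ite_eq]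
  rw [if_pos (Finset.mem_univ _)]
  have h4 : (((y * g⁻¹)⁻¹ : G) : G ⧸ V) = g • ((y⁻¹ : G) : G ⧸ V) := by
    rw [mul_inv_rev, inv_inv]
    rfl
  unfold Blk_cut
  rw [h4]
  unfold ra
  rw [PAL.lin_el]
  by_cases h5 : ((y⁻¹ : G) : G ⧸ V) = c'
  · rw [if_pos h5, if_pos (by rw [h5])]
  · rw [if_neg h5, if_neg (fun h6 => h5 (MulAction.injective g h6))]

open Classical in
private theorem Blk_sum {G : Type} [Group G] (V : Subgroup G) [Fintype (G ⧸ V)] (c' : G ⧸ V)
    (w : G → ℝ) (f : GR G) (y : G) :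
    ∑ c, ra (Blk_cut V c w) (blk V c c' f) y =
      if ((y⁻¹ : G) : G ⧸ V) = c' then ra w f y else 0 := by
  have key := add_ext
    (∑ c : G ⧸ V, (Blk_ra (Blk_cut V c w) y).comp (Blk_blk V c c'))
    (if ((y⁻¹ : G) : G ⧸ V) = c' then Blk_ra w y else 0)
    (fun g => by
      rw [AddMonoidHom.finsetSum_apply]
      have h1 := Blk_el V c' w g y
      refine Eq.trans ?_ (h1.trans ?_)
      · rfl
      · split_ifs
        · rfl
        · rfl) f
  rw [AddMonoidHom.finsetSum_apply] at key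
  refine Eq.trans ?_ (key.trans ?_)
  · rfl
  · split_ifs
    · rfl
    · rfl

theorem transferV {G ρ σ τ : Type} [Group G] [Fintype ρ] [Fintype σ] [Fintype τ] (p : ℕ)
    [Fact p.Prime] (hres : ResQ p G) (V : Subgroup G) [Fintype (G ⧸ V)]
    (J : ρ → σ → GR G) (J' : ρ → τ → GR G)
    (h : ∀ (Q : Type) [Group Q] [Finite Q], IsPGroup p Q → ∀ (θ : G →* Q)
      (u : ρ → (G ⧸ V) → GR Q),
      (∀ (j : σ) (c' : G ⧸ V), ∑ l, ∑ c, u l c * mp θ (blk V c c' (J l j)) = 0) →
      (∀ (j : τ) (c' : G ⧸ V), c' ≠ ((1 : G) : G ⧸ V) →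
        ∑ l, ∑ c, u l c * mp θ (blk V c c' (J' l j)) = 0) →
      ∀ j : τ, ∑ l, ∑ c, u l c * mp θ (blk V c ((1 : G) : G ⧸ V) (J' l j)) = 0)
    (v : ρ → G → ℝ) (hv : ∀ l, Sq (v l)) (h0 : ∀ j y, ∑ l, ra (v l) (J l j) y = 0)
    (h1 : ∀ j y, y ∉ V → ∑ l, ra (v l) (J' l j) y = 0) :
    ∀ j y, ∑ l, ra (v l) (J' l j) y = 0 := by
  classical
  have hmem : ∀ y : G, ((y⁻¹ : G) : G ⧸ V) = ((1 : G) : G ⧸ V) ↔ y ∈ V := by
    intro y
    rw [QuotientGroup.eq, inv_inv, mul_one]
  intro j y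
  by_cases hy : y ∈ V
  · have key := transfer (G := G) (ρ := ρ × (G ⧸ V))
      (σ := (σ × (G ⧸ V)) ⊕ (τ × {c' : G ⧸ V // c' ≠ ((1 : G) : G ⧸ V)})) (τ := τ) p hres
      (fun lc s => Sum.elim (fun jc => blk V lc.2 jc.2 (J lc.1 jc.1))
        (fun jc => blk V lc.2 jc.2.1 (J' lc.1 jc.1)) s)
      (fun lc j => blk V lc.2 ((1 : G) : G ⧸ V) (J' lc.1 j))
      (fun Q _ _ hQ θ u hu j => by
        rw [Fintype.sum_prod_type]
        refine h Q hQ θ (fun l c => u (l, c)) (fun j c' => ?_) (fun j c' hc' => ?_) j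
        · have := hu (Sum.inl (j, c'))
          rw [Fintype.sum_prod_type] at this
          exact this
        · have := hu (Sum.inr (j, ⟨c', hc'⟩))
          rw [Fintype.sum_prod_type] at this
          exact this)
      (fun lc => Blk_cut V lc.2 (v lc.1)) (fun lc => Blk_cut_sq V lc.2 (v lc.1) (hv lc.1))
      (fun s x => by
        rw [Fintype.sum_prod_type]
        rcases s with ⟨j, c'⟩ | ⟨j, c', hc'⟩
        · show ∑ l, ∑ c, ra (Blk_cut V c (v l)) (blk V c c' (J l j)) x = 0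
          rw [Finset.sum_congr rfl (fun l _ => Blk_sum V c' (v l) (J l j) x)]
          by_cases hx : ((x⁻¹ : G) : G ⧸ V) = c'
          · rw [Finset.sum_congr rfl (fun l _ => if_pos hx)]
            exact h0 j x
          · rw [Finset.sum_congr rfl (fun l _ => if_neg hx)]
            exact Finset.sum_const_zero
        · show ∑ l, ∑ c, ra (Blk_cut V c (v l)) (blk V c c' (J' l j)) x = 0
          rw [Finset.sum_congr rfl (fun l _ => Blk_sum V c' (v l) (J' l j) x)]
          by_cases hx : ((x⁻¹ : G) : G ⧸ V) = c'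
          · rw [Finset.sum_congr rfl (fun l _ => if_pos hx)]
            refine h1 j x (fun hxV => hc' ?_)
            rw [← hx]
            exact (hmem x).2 hxV
          · rw [Finset.sum_congr rfl (fun l _ => if_neg hx)]
            exact Finset.sum_const_zero)
      j y
    rw [Fintype.sum_prod_type] at key
    have key2 : ∑ l, ∑ c, ra (Blk_cut V c (v l)) (blk V c ((1 : G) : G ⧸ V) (J' l j)) y = 0 := key
    rw [Finset.sum_congr rfl (fun l _ => Blk_sum V ((1 : G) : G ⧸ V) (v l) (J' l j) y)] at key2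
    rw [Finset.sum_congr rfl (fun l _ => if_pos ((hmem y).2 hy))] at key2
    exact key2
  · exact h1 j y hy

end PAN
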