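import Pool.Agent.PAN.Defs

/-!
# PAN/Core (module PAN-Core): finite `p`-quotients and subgroups of `p`-power index

`core`: let `K = (h.ker).map V.subtype` (finite index in `G`), `N = K.normalCore ⊓ U`, `P = G ⧸ N`.  `P` is finite
(`U` and `K` have finite index), and it is a `p`-group: `g ^ (p^k) ∈ U` (`G ⧸ U` is a finite `p`-group), and
if `u ∈ U` and `R` has exponent `p^m` then `u ^ (p^m) ∈ N`, because for all `g` the conjugate `g u g⁻¹ ∈ U ≤ V`, and
`h (g u g⁻¹) ^ (p^m) = 1`.

`dense`: the proof of `hom_ext_pg` (`PAL/Burn.lean`; its private lemma `Burn_hom` can be copied): a proper subgroup of the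
finite `p`-group `φ.range` is killed by a nontrivial homomorphism to `Z/p`; the composition with `φ` kills the `x i`,
hence is trivial by the uniqueness in `Para x` (`Multiplicative (ZMod p)` is abelian).  So `φ.range` is
generated by the `φ (x i)`.
-/

set_option autoImplicit false

open PFC PAL PAM

namespace PAN

/-- a proper subgroup of a finite `p`-group is killed by a nontrivial homomorphism to `Z/p` -/
private theorem Core_hom {H : Type} [Group H] [Finite H] (p : ℕ) [hp : Fact p.Prime]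
    (hH : IsPGroup p H) (K : Subgroup H) (hK : K ≠ ⊤) :
    ∃ h : H →* Multiplicative (ZMod p), Function.Surjective h ∧ ∀ k ∈ K, h k = 1 := by
  obtain ⟨M, hM, hKM⟩ := (eq_top_or_exists_le_coatom K).resolve_left hK
  have hnil : Group.IsNilpotent H := hH.isNilpotent
  have hMn : M.Normal := Subgroup.NormalizerCondition.normal_of_coatom M
    Group.normalizerCondition_of_isNilpotent hM
  have hQ : IsPGroup p (H ⧸ M) := hH.to_quotient M
  have hnt : Nontrivial (H ⧸ M) := by
    rw [QuotientGroup.nontrivial_iff]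
    exact hM.1
  have hdvd : p ∣ Nat.card (H ⧸ M) := by
    obtain ⟨n, hn⟩ := IsPGroup.iff_card.1 hQ
    have h1 : 1 < Nat.card (H ⧸ M) := Finite.one_lt_card
    rw [hn] at h1 ⊢
    refine dvd_pow_self p ?_
    rintro rfl
    simp at h1
  obtain ⟨x, hx⟩ := exists_prime_orderOf_dvd_card' p hdvd
  have htop : Subgroup.zpowers x = ⊤ := by
    have h1 : M ≤ (Subgroup.zpowers x).comap (QuotientGroup.mk' M) := by
      intro m hm
      have h2 : QuotientGroup.mk' M m = 1 := (QuotientGroup.eq_one_iff m).2 hm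
      rw [Subgroup.mem_comap, h2]
      exact Subgroup.one_mem _
    rcases h1.eq_or_lt with h | h
    · exfalso
      obtain ⟨g, rfl⟩ := QuotientGroup.mk'_surjective M x
      have h2 : g ∈ (Subgroup.zpowers (QuotientGroup.mk' M g)).comap (QuotientGroup.mk' M) :=
        Subgroup.mem_zpowers _
      rw [← h] at h2
      have h3 : QuotientGroup.mk' M g = 1 := (QuotientGroup.eq_one_iff g).2 h2
      rw [h3, orderOf_one] at hx
      exact hp.out.one_lt.ne hx
    · have h2 := hM.2 _ h
      rw [eq_top_iff]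
      intro z _
      obtain ⟨g, rfl⟩ := QuotientGroup.mk'_surjective M z
      have h3 : g ∈ (Subgroup.zpowers x).comap (QuotientGroup.mk' M) := by
        rw [h2]
        exact Subgroup.mem_top g
      exact h3
  have hcard : Nat.card (H ⧸ M) = p := by
    rw [← orderOf_eq_card_of_zpowers_eq_top htop, hx]
  have hcard2 : Nat.card (Multiplicative (ZMod p)) = p := Nat.card_zmod p
  refine ⟨(mulEquivOfPrimeCardEq hcard hcard2).toMonoidHom.comp (QuotientGroup.mk' M), ?_, ?_⟩
  · exact (mulEquivOfPrimeCardEq hcard hcard2).surjective.comp (QuotientGroup.mk'_surjective M)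
  · intro k hk
    have h2 : QuotientGroup.mk' M k = 1 := (QuotientGroup.eq_one_iff k).2 (hKM hk)
    rw [MonoidHom.comp_apply, h2, map_one]

theorem core {G R : Type} [Group G] [Group R] [Finite R] (p : ℕ) [Fact p.Prime]
    (U V : Subgroup G) (hUn : U.Normal) (hUV : U ≤ V) (hU : ∃ k : ℕ, U.index = p ^ k)
    (hR : IsPGroup p R) (h : V →* R) :
    ∃ (P : Type) (_ : Group P) (φ : G →* P), Finite P ∧ IsPGroup p P ∧ Function.Surjective φ ∧
      (∀ g, φ g = 1 → g ∈ U) ∧ ∀ (g : G) (hg : g ∈ V), φ g = 1 → h ⟨g, hg⟩ = 1 := by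
  classical
  obtain ⟨k, hk⟩ := hU
  have hp : p.Prime := Fact.out
  have hUfi : U.FiniteIndex := ⟨by rw [hk]; exact pow_ne_zero _ hp.ne_zero⟩
  have hVfi : V.FiniteIndex := Subgroup.finiteIndex_of_le hUV
  have hkfi : h.ker.FiniteIndex := inferInstance
  have hKi : (h.ker.map V.subtype).index ≠ 0 := by
    rw [Subgroup.index_map_subtype]
    exact mul_ne_zero hkfi.index_ne_zero hVfi.index_ne_zero
  have hKfi : (h.ker.map V.subtype).FiniteIndex := ⟨hKi⟩
  obtain ⟨m, hm⟩ := IsPGroup.iff_card.1 hR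
  have hmem : ∀ u ∈ U, u ^ p ^ m ∈ (h.ker.map V.subtype).normalCore := by
    intro u hu b
    have h1 : b * u * b⁻¹ ∈ U := hUn.conj_mem u hu b
    have h2 : b * u ^ p ^ m * b⁻¹ = (b * u * b⁻¹) ^ p ^ m := by rw [conj_pow]
    rw [h2]
    refine ⟨⟨b * u * b⁻¹, hUV h1⟩ ^ p ^ m, ?_, rfl⟩
    change h _ = 1
    rw [map_pow, ← hm]
    exact pow_card_eq_one'
  have hNn : ((h.ker.map V.subtype).normalCore ⊓ U).Normal := inferInstance
  refine ⟨G ⧸ ((h.ker.map V.subtype).normalCore ⊓ U), inferInstance,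
    QuotientGroup.mk' ((h.ker.map V.subtype).normalCore ⊓ U), ?_, ?_,
    QuotientGroup.mk'_surjective _, ?_, ?_⟩
  · have : ((h.ker.map V.subtype).normalCore ⊓ U).FiniteIndex := inferInstance
    infer_instance
  · intro z
    obtain ⟨g, rfl⟩ := QuotientGroup.mk'_surjective _ z
    refine ⟨k + m, ?_⟩
    rw [← map_pow, pow_add, pow_mul]
    have h1 : g ^ p ^ k ∈ U := by
      rw [← hk]
      exact Subgroup.pow_index_mem U g
    exact (QuotientGroup.eq_one_iff _).2 ⟨hmem _ h1, Subgroup.pow_mem _ h1 _⟩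
  · intro g hg
    exact ((QuotientGroup.eq_one_iff g).1 hg).2
  · intro g hg hg1
    have h1 := Subgroup.normalCore_le _ ((QuotientGroup.eq_one_iff g).1 hg1).1
    obtain ⟨v, hv, hvg⟩ := h1
    have h2 : v = ⟨g, hg⟩ := Subtype.ext hvg
    rw [← h2]
    exact hv

theorem dense {G P : Type} [Group G] [Group P] [Finite P] (p : ℕ) [Fact p.Prime] {r : ℕ}
    (x : Fin r → G) (hx : PRT.Para x) (hP : IsPGroup p P) (φ : G →* P) (g : G) :
    ∃ w : FreeGroup (Fin r), φ (FreeGroup.lift x w) = φ g := by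
  have hH : IsPGroup p φ.range := hP.to_subgroup _
  have hK : Subgroup.closure (Set.range fun i => φ.rangeRestrict (x i)) = ⊤ := by
    by_contra hne
    obtain ⟨f, hf, hf1⟩ := Core_hom p hH _ hne
    have h1 : f.comp φ.rangeRestrict = 1 := by
      obtain ⟨q, -, hq⟩ := hx (Multiplicative (ZMod p)) inferInstance (fun _ => 1)
      rw [hq (f.comp φ.rangeRestrict) fun i => hf1 _ (Subgroup.subset_closure ⟨i, rfl⟩),
        hq 1 fun i => rfl]
    obtain ⟨z, hz⟩ := hf (Multiplicative.ofAdd 1)
    obtain ⟨y, rfl⟩ := φ.rangeRestrict_surjective z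
    have h2 := DFunLike.congr_fun h1 y
    rw [MonoidHom.comp_apply, hz, MonoidHom.one_apply] at h2
    have h3 : (1 : ZMod p) = 0 := Multiplicative.ofAdd.injective h2
    exact one_ne_zero h3
  have h4 : φ.rangeRestrict g ∈ (FreeGroup.lift fun i => φ.rangeRestrict (x i)).range := by
    rw [FreeGroup.range_lift_eq_closure, hK]
    exact Subgroup.mem_top _
  obtain ⟨w, hw⟩ := h4
  refine ⟨w, ?_⟩
  have h5 : (φ.rangeRestrict).comp (FreeGroup.lift x) =
      FreeGroup.lift fun i => φ.rangeRestrict (x i) := by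
    refine FreeGroup.ext_hom _ _ fun i => ?_
    rw [MonoidHom.comp_apply, FreeGroup.lift_apply_of, FreeGroup.lift_apply_of]
  have h6 := congrArg Subtype.val ((DFunLike.congr_fun h5 w).trans hw)
  exact h6

end PAN
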