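import Pool.Agent.PAM.DefsG
import Pool.Agent.PAL.Inter
import Pool.Agent.PRT.Defs

/-!
# PAN/Defs: edge groups in subgroups on which the pro-`p` topology is full

`ParaP p x`: `V` behaves like the free group on `x` with respect to homomorphisms to finite `p`-groups.
`FLV p V a`: the elements `a i` of `V` are independent at all finite levels (derivations of `V` with values in
finite modules have arbitrary values at the `a i`).  `PEmb p A`: for some normal subgroup `U` of `p`-power index all
homomorphisms from `A` to `Z/p` are trivial on `A ⊓ U` (`A ∩ U ≤ A^p[A,A]`).  `blk V c c' f`: the part of the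
element `f` of the group ring which is supported on the `g` with `g • c' = c`.
-/

set_option autoImplicit false

open PFC PAL PAM

namespace PAN

def ParaP (p : ℕ) {V : Type} [Group V] {d : ℕ} (x : Fin d → V) : Prop :=
  ∀ (R : Type) [Group R] [Finite R], IsPGroup p R → ∀ s : Fin d → R,
    ∃! φ : V →* R, ∀ i, φ (x i) = s i

def FLV (p : ℕ) {G σ : Type} [Group G] [Fintype σ] (V : Subgroup G) (a : σ → G) : Prop :=
  ∃ ha : ∀ i, a i ∈ V, ∀ (Q : Type) [Group Q] [Finite Q], IsPGroup p Q →
    ∀ (θ : V →* Q) (u : σ → GR Q),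
      (∀ (M : Type) [AddCommGroup M] [Module (GR Q) M] (D : V → M), IsDer θ D →
        ∑ i, u i • D ⟨a i, ha i⟩ = 0) → u = 0

def PEmb (p : ℕ) {G : Type} [Group G] (A : Subgroup G) : Prop :=
  ∃ U : Subgroup G, U.Normal ∧ (∃ k : ℕ, U.index = p ^ k) ∧
    ∀ (h : A →* Multiplicative (ZMod p)) (g : G) (hg : g ∈ A), g ∈ U → h ⟨g, hg⟩ = 1

open Classical in
noncomputable def blk {G : Type} [Group G] (V : Subgroup G) (c c' : G ⧸ V) (f : GR G) : GR G :=
  lin (fun g => if g • c' = c then (el g : GR G) else 0) f

end PAN
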