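import Pool.Agent.PAN.Defs

/-!
# PAN/Dual (module PAN-Dual): dual homomorphisms on `A ⊔ U`

`A` is free on `a` (see `cb_iso` in `PAL/CBas.lean` for the isomorphism), so for every `i` there is `k : A → Z/p` with
`k (a j) = δ_ij`.  It is trivial on `A ⊓ U`, so it factors through the image of `A` in `G ⧸ U`, which is also the image
of `A ⊔ U` (every element of `A ⊔ U` is `α * u`, `Subgroup.mem_sup_of_normal_right` or `Subgroup.mul_normal`):
`h i (α * u) = k α`.
-/

set_option autoImplicit false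

open PFC PAL PAM

namespace PAN

private theorem ext_hom {G M : Type} [Group G] [CommGroup M] (A U : Subgroup G) (hUn : U.Normal)
    (k : A →* M) (hk : ∀ (g : G) (hg : g ∈ A), g ∈ U → k ⟨g, hg⟩ = 1) :
    ∃ h : (A ⊔ U : Subgroup G) →* M, ∀ (g : G) (hg : g ∈ A) (hg' : g ∈ A ⊔ U),
      h ⟨g, hg'⟩ = k ⟨g, hg⟩ := by
  classical
  have hdec : ∀ x : (A ⊔ U : Subgroup G), ∃ α : A, (α : G)⁻¹ * (x : G) ∈ U := by
    intro x
    obtain ⟨α, hα, u, hu, h⟩ := (Subgroup.mem_sup_of_normal_right (s := A) (t := U)).1 x.2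
    refine ⟨⟨α, hα⟩, ?_⟩
    rw [← h]
    simpa using hu
  choose f hf using hdec
  have hkey : ∀ α β : A, (α : G)⁻¹ * (β : G) ∈ U → k α = k β := by
    intro α β h
    have h1 := hk ((α : G)⁻¹ * (β : G)) (A.mul_mem (A.inv_mem α.2) β.2) h
    have h2 : (⟨(α : G)⁻¹ * (β : G), A.mul_mem (A.inv_mem α.2) β.2⟩ : A) = α⁻¹ * β := by
      apply Subtype.ext
      simp
    rw [h2, map_mul, map_inv] at h1
    exact (inv_mul_eq_one.1 h1)
  refine ⟨MonoidHom.mk' (fun x => k (f x)) ?_, ?_⟩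
  · intro x y
    show k (f (x * y)) = k (f x) * k (f y)
    rw [← map_mul]
    symm
    apply hkey
    have h1 := hf x
    have h2 := hf y
    have h3 := hf (x * y)
    have e : ((f x * f y : A) : G)⁻¹ * (f (x * y) : G)
        = ((f y : G)⁻¹ * ((f x : G)⁻¹ * (x : G)) * (f y : G)) * ((f y : G)⁻¹ * (y : G)) *
          ((f (x * y) : G)⁻¹ * ((x * y : (A ⊔ U : Subgroup G)) : G))⁻¹ := by
      push_cast
      group
    rw [e]
    refine U.mul_mem (U.mul_mem ?_ h2) (U.inv_mem h3)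
    have h4 := hUn.conj_mem _ h1 (f y : G)⁻¹
    simpa using h4
  · intro g hg hg'
    show k (f ⟨g, hg'⟩) = k ⟨g, hg⟩
    exact hkey _ _ (hf ⟨g, hg'⟩)

theorem dual_homs {G σ : Type} [Group G] [DecidableEq σ] (p : ℕ) [Fact p.Prime]
    (A U : Subgroup G) (hUn : U.Normal) (a : σ → G)
    (hacl : Subgroup.closure (Set.range a) = A) (hainj : Function.Injective (FreeGroup.lift a))
    (hAU : ∀ (h : A →* Multiplicative (ZMod p)) (g : G) (hg : g ∈ A), g ∈ U → h ⟨g, hg⟩ = 1) :
    ∃ h : σ → (A ⊔ U : Subgroup G) →* Multiplicative (ZMod p),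
      ∀ (i j : σ) (hj : a j ∈ A ⊔ U),
        h i ⟨a j, hj⟩ = if i = j then Multiplicative.ofAdd 1 else 1 := by
  have hr : (FreeGroup.lift a).range = A := by
    rw [← hacl]
    exact FreeGroup.range_lift_eq_closure
  have haA : ∀ j, a j ∈ A := by
    intro j
    rw [← hacl]
    exact Subgroup.subset_closure ⟨j, rfl⟩
  have hex : ∀ i : σ, ∃ k : A →* Multiplicative (ZMod p),
      ∀ j, k ⟨a j, haA j⟩ = if i = j then Multiplicative.ofAdd 1 else 1 := by
    intro i
    let e : FreeGroup σ ≃* (FreeGroup.lift a).range := MonoidHom.ofInjective hainj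
    let e2 : A ≃* (FreeGroup.lift a).range := MulEquiv.subgroupCongr hr.symm
    refine ⟨(FreeGroup.lift (fun j => if i = j then Multiplicative.ofAdd (1 : ZMod p) else 1)).comp
      (e.symm.toMonoidHom.comp e2.toMonoidHom), ?_⟩
    intro j
    have h1 : e.symm (e2 ⟨a j, haA j⟩) = FreeGroup.of j := by
      rw [MulEquiv.symm_apply_eq]
      apply Subtype.ext
      show a j = FreeGroup.lift a (FreeGroup.of j)
      rw [FreeGroup.lift_apply_of]
    show FreeGroup.lift (fun j => if i = j then Multiplicative.ofAdd (1 : ZMod p) else 1)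
      (e.symm (e2 ⟨a j, haA j⟩)) = _
    rw [h1, FreeGroup.lift_apply_of]
  choose k hk using hex
  have hex2 : ∀ i : σ, ∃ h : (A ⊔ U : Subgroup G) →* Multiplicative (ZMod p),
      ∀ (g : G) (hg : g ∈ A) (hg' : g ∈ A ⊔ U), h ⟨g, hg'⟩ = k i ⟨g, hg⟩ := fun i =>
    ext_hom A U hUn (k i) (hAU (k i))
  choose h hh using hex2
  refine ⟨h, ?_⟩
  intro i j hj
  rw [hh i (a j) (haA j) hj, hk i j]

end PAN
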