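import Pool.Agent.PAN.Defs

/-!
# PAN/ExtV (module PAN-ExtV): extension to a family which generates modulo `p`

By `ParaP p x` with `R = Multiplicative (Fin d → ZMod p)` there is `E : V → R` with `E (x j)` the unit vectors, and for
every `h : V → Z/p` one has `h g = ∑_j E(g)_j h(x_j)` (both sides are homomorphisms which agree on the `x j`).  The
vectors `E (a i)` are linearly independent (apply the `h i`); extend them to a basis of `F_p^d` by vectors
`E (x j)`, exactly as in the second half of the proof of `exists_extP` (`PAL/Prime.lean`; its private lemmas `prime_pg`,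
`prime_card` can be copied with `primeV` replaced by `E`).
-/

set_option autoImplicit false

open PFC PAL PAM

namespace PAN

private theorem ev_pgroup (p : ℕ) [Fact p.Prime] (M : Type) [AddCommGroup M] (hM : ∀ v : M, p • v = 0) :
    IsPGroup p (Multiplicative M) := by
  intro g
  refine ⟨1, ?_⟩
  rw [pow_one]
  apply Multiplicative.toAdd.injective
  rw [toAdd_pow, toAdd_one]
  exact hM _

/-- the exponent vector of an element modulo `p` -/
private theorem ev_tvec {V : Type} [Group V] (p : ℕ) [Fact p.Prime] {d : ℕ} (x : Fin d → V) (hx : ParaP p x) :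
    ∃ E : V → Fin d → ZMod p,
      (∀ j, E (x j) = Pi.single j 1) ∧
      ∀ (h : V →* Multiplicative (ZMod p)) (g : V),
        Multiplicative.toAdd (h g) = ∑ j, E g j * Multiplicative.toAdd (h (x j)) := by
  have : NeZero p := ⟨(Fact.out : p.Prime).ne_zero⟩
  have hp0 : ((p : ℕ) : ZMod p) = 0 := ZMod.natCast_self p
  have hP1 : IsPGroup p (Multiplicative (Fin d → ZMod p)) := by
    apply ev_pgroup
    intro v
    funext j
    rw [Pi.smul_apply, nsmul_eq_mul, hp0, zero_mul]
    rfl
  have hP2 : IsPGroup p (Multiplicative (ZMod p)) := by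
    apply ev_pgroup
    intro v
    rw [nsmul_eq_mul, hp0, zero_mul]
  obtain ⟨T, hT, -⟩ := hx (Multiplicative (Fin d → ZMod p)) hP1
    (fun j => Multiplicative.ofAdd (Pi.single j 1))
  refine ⟨fun g => Multiplicative.toAdd (T g), ?_, ?_⟩
  · intro j
    show Multiplicative.toAdd (T (x j)) = _
    rw [hT j, toAdd_ofAdd]
  · intro h g
    let h' : V →* Multiplicative (ZMod p) :=
      { toFun := fun g => Multiplicative.ofAdd (∑ j, Multiplicative.toAdd (T g) j * Multiplicative.toAdd (h (x j)))
        map_one' := by
          have h1 : ∑ j, Multiplicative.toAdd (T 1) j * Multiplicative.toAdd (h (x j)) = 0 := by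
            apply Finset.sum_eq_zero
            intro j _
            rw [map_one]
            exact zero_mul _
          rw [h1]
          rfl
        map_mul' := fun a b => by
          have h1 : ∑ j, Multiplicative.toAdd (T (a * b)) j * Multiplicative.toAdd (h (x j)) =
              ∑ j, Multiplicative.toAdd (T a) j * Multiplicative.toAdd (h (x j)) +
                ∑ j, Multiplicative.toAdd (T b) j * Multiplicative.toAdd (h (x j)) := by
            rw [← Finset.sum_add_distrib]
            apply Finset.sum_congr rfl
            intro j _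
            rw [map_mul, ← add_mul]
            rfl
          rw [h1]
          rfl }
    obtain ⟨k, hk, hu⟩ := hx (Multiplicative (ZMod p)) hP2 (fun i => h (x i))
    have h1 : h = k := hu h fun i => rfl
    have h2 : h' = k := by
      apply hu h'
      intro i
      show Multiplicative.ofAdd (∑ j, Multiplicative.toAdd (T (x i)) j * Multiplicative.toAdd (h (x j))) = h (x i)
      rw [hT i, Finset.sum_eq_single i]
      · rw [toAdd_ofAdd, Pi.single_eq_same, one_mul]
        rfl
      · intro j _ hji
        rw [toAdd_ofAdd, Pi.single_eq_of_ne hji, zero_mul]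
      · intro hi
        exact absurd (Finset.mem_univ i) hi
    have h3 : h g = h' g := by rw [h1, h2]
    rw [h3]
    rfl

/-- a family whose vectors modulo `p` span satisfies `PG` -/
private theorem ev_pg {V : Type} [Group V] (p : ℕ) [Fact p.Prime] {d : ℕ} (x : Fin d → V) (E : V → Fin d → ZMod p)
    (hE : ∀ (h : V →* Multiplicative (ZMod p)) (g : V),
        Multiplicative.toAdd (h g) = ∑ j, E g j * Multiplicative.toAdd (h (x j)))
    {X : Type} (y : X → V)
    (hy : Submodule.span (ZMod p) (Set.range fun k => E (y k)) = ⊤) : PG p y := by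
  intro h hh
  let L : (Fin d → ZMod p) →ₗ[ZMod p] ZMod p :=
    { toFun := fun v => ∑ j, v j * Multiplicative.toAdd (h (x j))
      map_add' := fun v w => by
        rw [← Finset.sum_add_distrib]
        apply Finset.sum_congr rfl
        intro j _
        rw [Pi.add_apply, add_mul]
      map_smul' := fun c v => by
        rw [RingHom.id_apply, smul_eq_mul, Finset.mul_sum]
        apply Finset.sum_congr rfl
        intro j _
        rw [Pi.smul_apply, smul_eq_mul, mul_assoc] }
  have hL : ∀ v, L v = 0 := by
    intro v
    have hv : v ∈ Submodule.span (ZMod p) (Set.range fun k => E (y k)) := by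
      rw [hy]
      exact Submodule.mem_top
    have hle : Submodule.span (ZMod p) (Set.range fun k => E (y k)) ≤ LinearMap.ker L := by
      rw [Submodule.span_le]
      rintro _ ⟨k, rfl⟩
      show L (E (y k)) = 0
      have h1 := hE h (y k)
      rw [hh k] at h1
      exact h1.symm
    exact hle hv
  apply MonoidHom.ext
  intro g
  apply Multiplicative.toAdd.injective
  rw [hE h g]
  exact hL _

/-- a set of vectors in `F_p^r` which spans and is independent has `r` elements -/
private theorem ev_card {p r : ℕ} [Fact p.Prime] (b : Set (Fin r → ZMod p))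
    (hb : LinearIndepOn (ZMod p) id b) (hs : ∀ j, (Pi.single j 1 : Fin r → ZMod p) ∈
      Submodule.span (ZMod p) b) :
    Submodule.span (ZMod p) b = ⊤ ∧ Nonempty (Fin r ≃ b) := by
  have h1 : Submodule.span (ZMod p) b = ⊤ := by
    rw [eq_top_iff]
    intro v _
    have h2 : v = ∑ j, v j • (Pi.single j 1 : Fin r → ZMod p) := by
      funext k
      rw [Finset.sum_apply, Finset.sum_eq_single k]
      · rw [Pi.smul_apply, Pi.single_eq_same, smul_eq_mul, mul_one]
      · intro j _ hjk
        rw [Pi.smul_apply, Pi.single_eq_of_ne (Ne.symm hjk), smul_zero]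
      · intro hk
        exact absurd (Finset.mem_univ k) hk
    rw [h2]
    exact Submodule.sum_mem _ fun j _ => Submodule.smul_mem _ _ (hs j)
  refine ⟨h1, ?_⟩
  let B : Module.Basis b (ZMod p) (Fin r → ZMod p) :=
    Module.Basis.mk (v := ((↑) : b → Fin r → ZMod p)) hb (by
      rw [Subtype.range_coe]
      exact h1.ge)
  exact ⟨(Pi.basisFun (ZMod p) (Fin r)).indexEquiv B⟩

theorem extP_of_dual {V σ : Type} [Group V] [Fintype σ] [DecidableEq σ] (p : ℕ) [Fact p.Prime]
    {d : ℕ} (x : Fin d → V) (hx : ParaP p x) (a : σ → V)
    (h : σ → V →* Multiplicative (ZMod p))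
    (hh : ∀ i j, h i (a j) = if i = j then Multiplicative.ofAdd 1 else 1) :
    ExtP p (Fin d) a := by
  obtain ⟨E, hEx, hE⟩ := ev_tvec p x hx
  have hli : LinearIndependent (ZMod p) fun i => E (a i) := by
    rw [Fintype.linearIndependent_iff]
    intro m hm i
    have h4 : ∀ j, ∑ i', m i' * E (a i') j = 0 := by
      intro j
      have h5 := congrFun hm j
      rw [Finset.sum_apply] at h5
      exact h5
    have h6 : ∑ i', m i' * Multiplicative.toAdd (h i (a i')) = 0 := by
      have h7 : ∀ i', m i' * Multiplicative.toAdd (h i (a i')) =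
          ∑ j, m i' * E (a i') j * Multiplicative.toAdd (h i (x j)) := by
        intro i'
        rw [hE (h i) (a i'), Finset.mul_sum]
        apply Finset.sum_congr rfl
        intro j _
        rw [mul_assoc]
      rw [Finset.sum_congr rfl fun i' _ => h7 i', Finset.sum_comm]
      apply Finset.sum_eq_zero
      intro j _
      rw [← Finset.sum_mul, h4 j, zero_mul]
    rw [Finset.sum_eq_single i] at h6
    · rw [hh i i, if_pos rfl, toAdd_ofAdd, mul_one] at h6
      exact h6
    · intro j _ hji
      rw [hh i j, if_neg (Ne.symm hji), toAdd_one, mul_zero]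
    · intro hi
      exact absurd (Finset.mem_univ i) hi
  have hinj : Function.Injective fun i => E (a i) := hli.injective
  let s : Set (Fin d → ZMod p) := Set.range fun i => E (a i)
  let t : Set (Fin d → ZMod p) := s ∪ Set.range fun j => E (x j)
  have hs : LinearIndepOn (ZMod p) id s := hli.linearIndepOn_id
  obtain ⟨b, hbt, hsb, htb, hb⟩ := exists_linearIndepOn_id_extension hs
    (show s ⊆ t from Set.subset_union_left)
  obtain ⟨hspan, ⟨e⟩⟩ := ev_card b hb (by
    intro j
    apply htb
    right
    exact ⟨j, hEx j⟩)
  have hc : ∀ w : b, ∃ g : V, E g = w ∧ ∀ i, E (a i) = w → g = a i := by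
    intro w
    by_cases h : ∃ i, E (a i) = w
    · obtain ⟨i, hi⟩ := h
      refine ⟨a i, hi, ?_⟩
      intro i' hi'
      have h5 : i = i' := hinj (hi.trans hi'.symm)
      rw [h5]
    · have hw := hbt w.2
      rcases hw with hw | hw
      · obtain ⟨i, hi⟩ := hw
        exact absurd ⟨i, hi⟩ h
      · obtain ⟨j, hj⟩ := hw
        exact ⟨x j, hj, fun i hi => absurd ⟨i, hi⟩ h⟩
  choose c hc1 hc2 using hc
  refine ⟨fun k => c (e k), fun i => e.symm ⟨E (a i), hsb ⟨i, rfl⟩⟩, ?_, ?_, ?_⟩
  · intro i i' h
    have h6 := e.symm.injective h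
    exact hinj (congrArg Subtype.val h6)
  · intro i
    show c (e (e.symm _)) = a i
    rw [e.apply_symm_apply]
    exact hc2 _ i rfl
  · apply ev_pg p x E hE
    have h7 : (Set.range fun k => E (c (e k))) = b := by
      apply Set.eq_of_subset_of_subset
      · rintro _ ⟨k, rfl⟩
        show E (c (e k)) ∈ b
        rw [hc1]
        exact (e k).2
      · intro w hw
        refine ⟨e.symm ⟨w, hw⟩, ?_⟩
        show E (c (e (e.symm ⟨w, hw⟩))) = w
        rw [e.apply_symm_apply, hc1]
    rw [h7]
    exact hspan

end PAN
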