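import Pool.Agent.PAN.Core
import Pool.Agent.PAL.CBas
import Pool.Agent.PAL.Burn

/-!
# PAN/ParaV (module PAN-ParaV): subgroups of `p`-power index of a parafree group have a basis for finite `p`-groups

Let `F = FreeGroup (Fin r)`, `f = FreeGroup.lift x : F → G`, `FV = V.comap f`, a subgroup of finite index of `F`, hence
finitely generated (`Subgroup.fg_of_index_ne_zero`) and free (Nielsen-Schreier, instance
`subgroupIsFreeOfIsFree`): let `b : Fin d → F` be a basis (`exists_basis_fg` in `PAL/CBas.lean`), and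
`x' i = f (b i)`.

Uniqueness (`hom_ext_pg` needs only `PG p x'`): let `h : V → Z/p` with `h (x' i) = 1`; then `h (f w) = 1` for `w ∈ FV`.
Take `φ : G → P` from `core` for `U, V, h`; for `g ∈ V` there is `w ∈ F` with `φ (f w) = φ g` (`dense`), so
`g⁻¹ * f w ∈ U ≤ V`, hence `w ∈ FV`, and `h g = h (f w) = 1`.

Existence: let `s : Fin d → R`, `ψ : FV → R` the homomorphism with `ψ (b i) = s i`.  Apply `core` to `F`,
`U.comap f`, `FV`, `ψ` (the index of `U.comap f` is a power of `p`: `F ⧸ U.comap f` embeds into `G ⧸ U`; divisors of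
`p ^ k`): `q : F → P`, surjective.  By `Para x` (finite `p`-groups are nilpotent) there is `φ : G → P` with
`φ ∘ f = q`.  For `g ∈ V` choose `w ∈ F` with `φ (f w) = φ g` and `f w ∈ g U` (`dense` for `G → P × G ⧸ U`), so
`w ∈ FV` and `q w = φ g`.  `φ' g = ψ w` does not depend on `w` (if `q w = q w'` then `w⁻¹ w' ∈ ker q`, so
`ψ w = ψ w'`), is a homomorphism and `φ' (x' i) = s i`.
-/

set_option autoImplicit false

open PFC PAL PAM

namespace PAN

private theorem ParaV_prod {P Q : Type} [Group P] [Group Q] {p : ℕ} (hP : IsPGroup p P) (hQ : IsPGroup p Q) :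
    IsPGroup p (P × Q) := by
  rintro ⟨a, b⟩
  obtain ⟨k, hk⟩ := hP a
  obtain ⟨l, hl⟩ := hQ b
  refine ⟨k + l, Prod.ext ?_ ?_⟩
  · change a ^ p ^ (k + l) = 1
    rw [pow_add, pow_mul, hk, one_pow]
  · change b ^ p ^ (k + l) = 1
    rw [add_comm, pow_add, pow_mul, hl, one_pow]

private theorem ParaV_pg {G : Type} [Group G] (p : ℕ) [Fact p.Prime] {r d : ℕ} (x : Fin r → G)
    (hx : PRT.Para x) (U V : Subgroup G) (hUn : U.Normal) (hUV : U ≤ V)
    (hU : ∃ k : ℕ, U.index = p ^ k) (b : Fin d → FreeGroup (Fin r))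
    (hb : Subgroup.closure (Set.range b) = V.comap (FreeGroup.lift x)) (x' : Fin d → V)
    (hx' : ∀ i, ((x' i : V) : G) = FreeGroup.lift x (b i)) : PG p x' := by
  intro h hh
  have hR : IsPGroup p (Multiplicative (ZMod p)) := by
    refine IsPGroup.of_card (n := 1) ?_
    rw [pow_one]
    exact Nat.card_zmod p
  obtain ⟨P, _, φ, hfin, hP, -, hker, hker'⟩ := core p U V hUn hUV hU hR h
  have key : ∀ (w : FreeGroup (Fin r)) (hw : w ∈ V.comap (FreeGroup.lift x)), h ⟨FreeGroup.lift x w, hw⟩ = 1 := by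
    intro w hw
    have h1 : V.comap (FreeGroup.lift x) ≤ ((h.comp ((FreeGroup.lift x).subgroupComap V)).ker).map
        (V.comap (FreeGroup.lift x)).subtype := by
      refine hb.ge.trans ?_
      rw [Subgroup.closure_le]
      rintro _ ⟨i, rfl⟩
      have hm : b i ∈ V.comap (FreeGroup.lift x) := by
        rw [← hb]
        exact Subgroup.subset_closure ⟨i, rfl⟩
      refine ⟨⟨b i, hm⟩, ?_, rfl⟩
      show h ((FreeGroup.lift x).subgroupComap V ⟨b i, hm⟩) = 1
      have h2 : (FreeGroup.lift x).subgroupComap V ⟨b i, hm⟩ = x' i := Subtype.ext (hx' i).symm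
      rw [h2, hh]
    obtain ⟨⟨v, hv⟩, h3, h4⟩ := h1 hw
    have h5 : v = w := h4
    subst h5
    exact h3
  ext g
  obtain ⟨w, hw⟩ := dense p x hx hP φ (g : G)
  have h1 : φ ((g : G)⁻¹ * FreeGroup.lift x w) = 1 := by
    rw [map_mul, map_inv, hw, inv_mul_cancel]
  have h2 : (g : G)⁻¹ * FreeGroup.lift x w ∈ V := hUV (hker _ h1)
  have h3 : FreeGroup.lift x w ∈ V := by
    have h4 := V.mul_mem g.2 h2
    rwa [mul_inv_cancel_left] at h4
  have h5 := hker' _ h2 h1
  have h6 : (⟨(g : G)⁻¹ * FreeGroup.lift x w, h2⟩ : V) = g⁻¹ * ⟨FreeGroup.lift x w, h3⟩ := rfl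
  rw [h6, map_mul, map_inv, key w h3, mul_one, inv_eq_one] at h5
  rw [h5]
  rfl

private theorem ParaV_ex {G R : Type} [Group G] [Group R] [Finite R] (p : ℕ) [Fact p.Prime] {r d : ℕ} (x : Fin r → G)
    (hx : PRT.Para x) (U V : Subgroup G) (hUn : U.Normal) (hUV : U ≤ V)
    (hU : ∃ k : ℕ, U.index = p ^ k) (b : Fin d → FreeGroup (Fin r))
    (hb : Subgroup.closure (Set.range b) = V.comap (FreeGroup.lift x))
    (hinj : Function.Injective (FreeGroup.lift b)) (x' : Fin d → V)
    (hx' : ∀ i, ((x' i : V) : G) = FreeGroup.lift x (b i)) (hR : IsPGroup p R) (s : Fin d → R) :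
    ∃ φ : V →* R, ∀ i, φ (x' i) = s i := by
  classical
  have hp : p.Prime := Fact.out
  have hrange : (FreeGroup.lift b).range = V.comap (FreeGroup.lift x) := by
    rw [FreeGroup.range_lift_eq_closure, hb]
  have hm : ∀ w, FreeGroup.lift b w ∈ V.comap (FreeGroup.lift x) := fun w => hrange ▸ ⟨w, rfl⟩
  let j : FreeGroup (Fin d) →* V.comap (FreeGroup.lift x) := (FreeGroup.lift b).codRestrict _ hm
  have hj : Function.Bijective j := by
    constructor
    · intro u v huv
      apply hinj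
      exact congrArg Subtype.val huv
    · intro y
      have hy : (y : FreeGroup (Fin r)) ∈ (FreeGroup.lift b).range := by rw [hrange]; exact y.2
      obtain ⟨w, hw⟩ := hy
      exact ⟨w, Subtype.ext hw⟩
  let e := MulEquiv.ofBijective j hj
  let ψ : V.comap (FreeGroup.lift x) →* R := (FreeGroup.lift s).comp e.symm.toMonoidHom
  have hbm : ∀ i, b i ∈ V.comap (FreeGroup.lift x) := fun i => by
    rw [← hb]
    exact Subgroup.subset_closure ⟨i, rfl⟩
  have hψ : ∀ i, ψ ⟨b i, hbm i⟩ = s i := by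
    intro i
    have h1 : e (FreeGroup.of i) = ⟨b i, hbm i⟩ := Subtype.ext (FreeGroup.lift_apply_of)
    show FreeGroup.lift s (e.symm ⟨b i, hbm i⟩) = s i
    rw [← h1, MulEquiv.symm_apply_apply, FreeGroup.lift_apply_of]
  obtain ⟨k, hk⟩ := hU
  have hUind : ∃ k : ℕ, (U.comap (FreeGroup.lift x)).index = p ^ k := by
    have h1 : (U.comap (FreeGroup.lift x)).index ∣ p ^ k := by
      rw [Subgroup.index_comap, ← hk]
      exact Subgroup.relIndex_dvd_index_of_normal _ _
    obtain ⟨l, -, hl⟩ := (Nat.dvd_prime_pow hp).1 h1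
    exact ⟨l, hl⟩
  have hnU : (U.comap (FreeGroup.lift x)).Normal := hUn.comap _
  obtain ⟨P, _, q, hfin, hP, -, hker, hker'⟩ :=
    core p (U.comap (FreeGroup.lift x)) (V.comap (FreeGroup.lift x)) hnU (Subgroup.comap_mono hUV) hUind hR ψ
  have hnil : Group.IsNilpotent P := hP.isNilpotent
  obtain ⟨φ, hφ, -⟩ := hx P hnil fun i => q (FreeGroup.of i)
  have hφq : φ.comp (FreeGroup.lift x) = q := by
    apply FreeGroup.ext_hom
    intro i
    rw [MonoidHom.comp_apply, FreeGroup.lift_apply_of]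
    exact hφ i
  have hφq' : ∀ w, φ (FreeGroup.lift x w) = q w := fun w => by
    rw [← hφq]
    rfl
  -- the quotient by `U`
  have hfU : U.FiniteIndex := ⟨by rw [hk]; exact pow_ne_zero _ hp.ne_zero⟩
  have hpU : IsPGroup p (G ⧸ U) := IsPGroup.of_card (n := k) (by rw [← hk]; rfl)
  have hex : ∀ g : V, ∃ w : V.comap (FreeGroup.lift x), q (w : FreeGroup (Fin r)) = φ (g : G) := by
    intro g
    obtain ⟨w, hw⟩ := dense p x hx (ParaV_prod hP hpU) (φ.prod (QuotientGroup.mk' U)) (g : G)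
    have h1 : φ (FreeGroup.lift x w) = φ (g : G) := congrArg Prod.fst hw
    have h2 : QuotientGroup.mk' U (FreeGroup.lift x w) = QuotientGroup.mk' U (g : G) := congrArg Prod.snd hw
    have h3 : (g : G)⁻¹ * FreeGroup.lift x w ∈ U := QuotientGroup.eq.1 h2.symm
    have h4 : FreeGroup.lift x w ∈ V := by
      have h5 := V.mul_mem g.2 (hUV h3)
      rwa [mul_inv_cancel_left] at h5
    refine ⟨⟨w, h4⟩, ?_⟩
    rw [← h1]
    exact (hφq' w).symm
  choose c hc using hex
  have hwd : ∀ (g : V) (w : V.comap (FreeGroup.lift x)), q (w : FreeGroup (Fin r)) = φ (g : G) → ψ (c g) = ψ w := by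
    intro g w hw
    have h1 : q (((w : FreeGroup (Fin r)))⁻¹ * (c g : FreeGroup (Fin r))) = 1 := by
      rw [map_mul, map_inv, hw, hc, inv_mul_cancel]
    have h2 := hker' _ (w⁻¹ * c g).2 h1
    have h3 : ψ (w⁻¹ * c g) = 1 := h2
    rw [map_mul, map_inv, inv_mul_eq_one] at h3
    exact h3.symm
  refine ⟨MonoidHom.mk' (fun g => ψ (c g)) fun g g' => ?_, fun i => ?_⟩
  · show ψ (c (g * g')) = ψ (c g) * ψ (c g')
    rw [← map_mul]
    apply hwd
    show q ((c g : FreeGroup (Fin r)) * (c g' : FreeGroup (Fin r))) = φ ((g : G) * (g' : G))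
    rw [map_mul, map_mul, hc, hc]
  · show ψ (c (x' i)) = s i
    rw [hwd (x' i) ⟨b i, hbm i⟩ (by rw [hx', hφq']), hψ]

theorem paraV {G : Type} [Group G] (p : ℕ) [Fact p.Prime] {r : ℕ} (x : Fin r → G)
    (hx : PRT.Para x) (U V : Subgroup G) (hUn : U.Normal) (hUV : U ≤ V)
    (hU : ∃ k : ℕ, U.index = p ^ k) : ∃ (d : ℕ) (x' : Fin d → V), ParaP p x' := by
  have hp : p.Prime := Fact.out
  obtain ⟨k, hk⟩ := hU
  have hVi : V.index ≠ 0 := by
    intro h0
    have h1 := Subgroup.index_dvd_of_le hUV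
    rw [h0, zero_dvd_iff, hk] at h1
    exact pow_ne_zero _ hp.ne_zero h1
  have hVf : V.FiniteIndex := ⟨hVi⟩
  have hFVf : (V.comap (FreeGroup.lift x)).FiniteIndex := by
    refine ⟨fun h0 => ?_⟩
    have h1 : (V.comap (FreeGroup.lift x)).index ∣ (U.comap (FreeGroup.lift x)).index :=
      Subgroup.index_dvd_of_le (Subgroup.comap_mono hUV)
    have h2 : (U.comap (FreeGroup.lift x)).index ∣ U.index := by
      rw [Subgroup.index_comap]
      exact Subgroup.relIndex_dvd_index_of_normal _ _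
    have h3 := h1.trans h2
    rw [h0, zero_dvd_iff, hk] at h3
    exact pow_ne_zero _ hp.ne_zero h3
  have hfree : IsFreeGroup (V.comap (FreeGroup.lift x)) := inferInstance
  have hfg : (V.comap (FreeGroup.lift x)).FG :=
    (Group.fg_iff_subgroup_fg _).1 (Subgroup.fg_of_index_ne_zero _)
  obtain ⟨d, b, hb, hinj, -⟩ := PAL.exists_basis_fg (V.comap (FreeGroup.lift x)) hfree hfg
  have hbm : ∀ i, FreeGroup.lift x (b i) ∈ V := fun i => by
    have h1 : b i ∈ V.comap (FreeGroup.lift x) := by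
      rw [← hb]
      exact Subgroup.subset_closure ⟨i, rfl⟩
    exact h1
  refine ⟨d, fun i => ⟨FreeGroup.lift x (b i), hbm i⟩, fun R _ _ hR s => ?_⟩
  obtain ⟨φ, hφ⟩ := ParaV_ex p x hx U V hUn hUV ⟨k, hk⟩ b hb hinj (fun i => ⟨FreeGroup.lift x (b i), hbm i⟩)
    (fun _ => rfl) hR s
  refine ⟨φ, hφ, fun φ' hφ' => ?_⟩
  refine PAL.hom_ext_pg p hR (fun i => ⟨FreeGroup.lift x (b i), hbm i⟩) ?_ φ' φ fun i => ?_
  · exact ParaV_pg p x hx U V hUn hUV ⟨k, hk⟩ b hb _ fun _ => rfl
  · exact (hφ' i).trans (hφ i).symm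

end PAN
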