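import Pool.Agent.PAN.Flv
import Pool.Agent.PAN.ParaV
import Pool.Agent.PAN.ExtV
import Pool.Agent.PAN.Dual

/-!
# PAN/Emb: embedded subgroups have the finite level property
-/

set_option autoImplicit false

open PFC PAL PAM

namespace PAN

theorem exists_flv {G : Type} [Group G] (p : ℕ) [Fact p.Prime] {r : ℕ} (x : Fin r → G)
    (hx : PRT.Para x) (A : Subgroup G) {s : ℕ} (a : Fin s → G)
    (hacl : Subgroup.closure (Set.range a) = A) (hainj : Function.Injective (FreeGroup.lift a))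
    (hA : PEmb p A) : ∃ V : Subgroup G, A ≤ V ∧ V.FiniteIndex ∧ FLV p V a := by
  obtain ⟨U, hUn, ⟨k, hk⟩, hAU⟩ := hA
  obtain ⟨h, hh⟩ := dual_homs p A U hUn a hacl hainj hAU
  obtain ⟨d, x', hx'⟩ := paraV p x hx U (A ⊔ U) hUn le_sup_right ⟨k, hk⟩
  have haV : ∀ i, a i ∈ A ⊔ U := fun i =>
    Subgroup.mem_sup_left (hacl ▸ Subgroup.subset_closure ⟨i, rfl⟩)
  have hUf : U.FiniteIndex := ⟨by
    rw [hk]
    exact pow_ne_zero _ (Fact.out (p := p.Prime)).ne_zero⟩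
  refine ⟨A ⊔ U, le_sup_left, Subgroup.finiteIndex_of_le le_sup_right, ?_⟩
  exact flv_of_extP p (A ⊔ U) x' hx' (fun i => ⟨a i, haV i⟩)
    (extP_of_dual p x' hx' (fun i => ⟨a i, haV i⟩) h fun i j => hh i j (haV j))

end PAN
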