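import Pool.Agent.PAN.Defs
import Pool.Agent.PAL.Burn
import Pool.Agent.PAL.Basic

/-!
# PAN/Flv (module PAN-Flv): finite levels for a group with a basis with respect to finite `p`-groups

The proofs of `exists_hom` (`PAL/Ext.lean`), `exists_der_p` (`PAL/DerExt.lean`) and `flvl` (`PAL/FLvl.lean`) with `G`
replaced by the group `V` and `Para x` by `ParaP p x` (`Para` is only used for finite `p`-groups there).
-/

set_option autoImplicit false

open PFC PAL PAM

namespace PAN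

private theorem fx_hom {G R : Type} [Group G] [Group R] [Finite R] {r : ℕ} (x : Fin r → G)
    (p : ℕ) [Fact p.Prime] (hx : ParaP p x) (hR : IsPGroup p R) (y : Fin r → G) (hy : PG p y)
    (s : Fin r → R) : ∃ φ : G →* R, ∀ i, φ (y i) = s i := by
  have hb : Function.Bijective (fun (φ : G →* R) (i : Fin r) => φ (x i)) := by
    constructor
    · intro φ ψ h
      exact (hx R hR fun i => φ (x i)).unique (fun _ => rfl) fun i => (congrFun h i).symm
    · intro f
      obtain ⟨φ, hφ, -⟩ := hx R hR f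
      exact ⟨φ, funext hφ⟩
  have hfin : Finite (G →* R) := Finite.of_equiv _ (Equiv.ofBijective _ hb).symm
  have hinj : Function.Injective (fun (φ : G →* R) (i : Fin r) => φ (y i)) := fun φ ψ h =>
    hom_ext_pg p hR y hy φ ψ fun i => congrFun h i
  obtain ⟨φ, hφ⟩ := (Finite.injective_iff_surjective_of_equiv (Equiv.ofBijective _ hb)).1 hinj s
  exact ⟨φ, fun i => congrFun hφ i⟩

private theorem dx_el_one (Q : Type) [Group Q] : (el (1 : Q) : GR Q) = 1 := map_one _

private theorem dx_el_mul {Q : Type} [Group Q] (a b : Q) : (el (a * b) : GR Q) = el a * el b :=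
  map_mul _ _ _

private theorem dx_el_inv_mul {Q : Type} [Group Q] (a : Q) : (el a⁻¹ : GR Q) * el a = 1 := by
  rw [← dx_el_mul, inv_mul_cancel, dx_el_one]

private structure DX (Q M : Type) where
  m : M
  q : Q

private theorem DX.ext' {Q M : Type} {a b : DX Q M} (h1 : a.m = b.m) (h2 : a.q = b.q) : a = b := by
  cases a; cases b; cases h1; cases h2; rfl

@[instance_reducible]
private noncomputable def dxGroup (Q M : Type) [Group Q] [AddCommGroup M] [Module (GR Q) M] :
    Group (DX Q M) where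
  mul a b := ⟨a.m + (el a.q : GR Q) • b.m, a.q * b.q⟩
  one := ⟨0, 1⟩
  inv a := ⟨-((el a.q⁻¹ : GR Q) • a.m), a.q⁻¹⟩
  mul_assoc a b c := by
    refine DX.ext' ?_ (mul_assoc _ _ _)
    show a.m + (el a.q : GR Q) • b.m + (el (a.q * b.q) : GR Q) • c.m =
      a.m + (el a.q : GR Q) • (b.m + (el b.q : GR Q) • c.m)
    rw [smul_add, dx_el_mul, mul_smul, add_assoc]
  one_mul a := by
    refine DX.ext' ?_ (one_mul _)
    show (0 : M) + (el (1 : Q) : GR Q) • a.m = a.m
    rw [dx_el_one, one_smul, zero_add]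
  mul_one a := by
    refine DX.ext' ?_ (mul_one _)
    show a.m + (el a.q : GR Q) • (0 : M) = a.m
    rw [smul_zero, add_zero]
  inv_mul_cancel a := by
    refine DX.ext' ?_ (inv_mul_cancel _)
    show -((el a.q⁻¹ : GR Q) • a.m) + (el a.q⁻¹ : GR Q) • a.m = 0
    exact neg_add_cancel _

private theorem fx_der {G Q M : Type} [Group G] [Group Q] [Finite Q] [AddCommGroup M]
    [Module (GR Q) M] [Finite M] {r : ℕ} (x : Fin r → G) (p : ℕ) [Fact p.Prime] (hx : ParaP p x)
    (hQ : IsPGroup p Q) (hM : ∀ m : M, ∃ k : ℕ, p ^ k • m = 0) (θ : G →* Q) (y : Fin r → G)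
    (hy : PG p y) (w : Fin r → M) : ∃ D : G → M, IsDer θ D ∧ ∀ i, D (y i) = w i := by
  let _ := dxGroup Q M
  have hfin : Finite (DX Q M) :=
    Finite.of_injective (fun a : DX Q M => (a.m, a.q)) fun a b h => by
      have h1 := congrArg Prod.fst h
      have h2 := congrArg Prod.snd h
      exact DX.ext' h1 h2
  let π : DX Q M →* Q :=
    { toFun := fun a => a.q
      map_one' := rfl
      map_mul' := fun _ _ => rfl }
  have hpow : ∀ (a : M) (n : ℕ), (⟨a, 1⟩ : DX Q M) ^ n = ⟨n • a, 1⟩ := by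
    intro a n
    induction n with
    | zero =>
      rw [pow_zero]
      refine DX.ext' ?_ rfl
      show (0 : M) = 0 • a
      rw [zero_smul]
    | succ n ih =>
      rw [pow_succ, ih]
      refine DX.ext' ?_ (mul_one _)
      show n • a + (el (1 : Q) : GR Q) • a = (n + 1) • a
      rw [dx_el_one, one_smul, succ_nsmul]
  have hR : IsPGroup p (DX Q M) := by
    intro g
    obtain ⟨k, hk⟩ := hQ (π g)
    have h1 : (g ^ p ^ k).q = 1 := by
      have h2 : π (g ^ p ^ k) = 1 := by rw [map_pow, hk]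
      exact h2
    obtain ⟨l, hl⟩ := hM (g ^ p ^ k).m
    refine ⟨k + l, ?_⟩
    rw [pow_add, pow_mul]
    have h3 : g ^ p ^ k = ⟨(g ^ p ^ k).m, 1⟩ := DX.ext' rfl h1
    rw [h3, hpow, hl]
    rfl
  obtain ⟨φ, hφ⟩ := fx_hom x p hx hR y hy fun i => (⟨w i, θ (y i)⟩ : DX Q M)
  have hp : π.comp φ = θ := by
    apply hom_ext_pg p hQ y hy
    intro i
    show (φ (y i)).q = θ (y i)
    rw [hφ i]
  refine ⟨fun g => (φ g).m, ?_, ?_⟩
  · intro g h
    show (φ (g * h)).m = (φ g).m + (el (θ g) : GR Q) • (φ h).m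
    rw [map_mul]
    show (φ g).m + (el (φ g).q : GR Q) • (φ h).m = _
    have h1 : (φ g).q = θ g := DFunLike.congr_fun hp g
    rw [h1]
  · intro i
    show (φ (y i)).m = w i
    rw [hφ i]

private theorem flvl_eq_sum {Q : Type} [Group Q] [Fintype Q] (f : GR Q) :
    f = ∑ q : Q, f.coeff q • (el q : GR Q) := by
  have h1 : PAL.lin (fun g : Q => (el g : GR Q)) f = f := by
    refine PAL.add_ext (PAL.lin fun g : Q => (el g : GR Q)) (AddMonoidHom.id (GR Q)) ?_ f
    intro g
    rw [PAL.lin_el]; rfl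
  have h2 := lin_eq_sum (fun g : Q => (el g : GR Q)) f Finset.univ (Finset.subset_univ _)
  rw [h1] at h2
  exact h2

private def flvlN (Q : Type) [Group Q] (n : ℕ) : Submodule (GR Q) (GR Q) where
  carrier := {f | ∃ h : GR Q, f = n • h}
  add_mem' := by
    rintro a b ⟨c, rfl⟩ ⟨d, rfl⟩
    exact ⟨c + d, (smul_add _ _ _).symm⟩
  zero_mem' := ⟨0, (smul_zero _).symm⟩
  smul_mem' := by
    rintro x a ⟨c, rfl⟩
    refine ⟨x * c, ?_⟩
    show x * (n • c) = n • (x * c)
    exact mul_smul_comm _ _ _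

private theorem flvl_finite (Q : Type) [Group Q] [Finite Q] (n : ℕ) (hn : 0 < n) :
    Finite (GR Q ⧸ flvlN Q n) := by
  have _ := Fintype.ofFinite Q
  refine Finite.of_surjective
    (fun v : Q → Fin n => (Submodule.Quotient.mk (∑ q : Q, ((v q : ℕ) : ℤ) • (el q : GR Q)) :
      GR Q ⧸ flvlN Q n)) ?_
  intro z
  obtain ⟨f, rfl⟩ := Submodule.Quotient.mk_surjective _ z
  have hn' : (0 : ℤ) < n := by exact_mod_cast hn
  have hlt : ∀ q : Q, (f.coeff q % (n : ℤ)).toNat < n := by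
    intro q
    have h1 := Int.emod_lt_of_pos (f.coeff q) hn'
    have h2 := Int.emod_nonneg (f.coeff q) hn'.ne'
    omega
  refine ⟨fun q => ⟨(f.coeff q % (n : ℤ)).toNat, hlt q⟩, ?_⟩
  refine ((Submodule.Quotient.eq _).2 ?_)
  refine ⟨∑ q : Q, (-(f.coeff q / (n : ℤ))) • (el q : GR Q), ?_⟩
  refine (congrArg (fun t : GR Q => (∑ q : Q, (((f.coeff q % (n : ℤ)).toNat : ℕ) : ℤ) •
    (el q : GR Q)) - t) (flvl_eq_sum f)).trans ?_
  show (∑ q : Q, (((f.coeff q % (n : ℤ)).toNat : ℕ) : ℤ) • (el q : GR Q)) -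
    ∑ q : Q, f.coeff q • (el q : GR Q) = _
  rw [← Finset.sum_sub_distrib, Finset.smul_sum]
  refine Finset.sum_congr rfl fun q _ => ?_
  have h2 := Int.emod_nonneg (f.coeff q) hn'.ne'
  have h3 : (((f.coeff q % (n : ℤ)).toNat : ℕ) : ℤ) = f.coeff q % (n : ℤ) := Int.toNat_of_nonneg h2
  have h4 := Int.emod_add_mul_ediv (f.coeff q) (n : ℤ)
  show ((((f.coeff q % (n : ℤ)).toNat : ℕ) : ℤ)) • (el q : GR Q) - f.coeff q • (el q : GR Q) = _
  rw [h3, ← sub_smul, ← natCast_zsmul, smul_smul]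
  refine congrArg (fun t : ℤ => t • (el q : GR Q)) ?_
  linarith [mul_neg (n : ℤ) (f.coeff q / (n : ℤ))]

private theorem fx_lvl {G σ Q : Type} [Group G] [Fintype σ] [Group Q] [Finite Q] {r : ℕ} (x : Fin r → G)
    (p : ℕ) [Fact p.Prime] (hx : ParaP p x) (hQ : IsPGroup p Q) (θ : G →* Q) (a : σ → G)
    (ha : ExtP p (Fin r) a) (u : σ → GR Q)
    (h : ∀ (M : Type) [AddCommGroup M] [Module (GR Q) M] (D : G → M), IsDer θ D →
      ∑ i, u i • D (a i) = 0) : u = 0 := by
  funext i0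
  obtain ⟨y, ι, hι, hy, hpg⟩ := ha
  have key : ∀ e : ℕ, ∃ h' : GR Q, u i0 = (p ^ e) • h' := by
    intro e
    have hpe : 0 < p ^ e := pow_pos (Fact.out (p := p.Prime)).pos e
    have _ := flvl_finite Q (p ^ e) hpe
    have hM : ∀ m : GR Q ⧸ flvlN Q (p ^ e), ∃ k : ℕ, p ^ k • m = 0 := by
      intro m
      obtain ⟨f, rfl⟩ := Submodule.Quotient.mk_surjective _ m
      refine ⟨e, ?_⟩
      rw [← Submodule.Quotient.mk_smul]
      exact (Submodule.Quotient.mk_eq_zero _).2 ⟨f, rfl⟩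
    obtain ⟨D, hD, hDy⟩ := fx_der x p hx hQ hM θ y hpg
      (fun j => if j = ι i0 then (Submodule.Quotient.mk 1 : GR Q ⧸ flvlN Q (p ^ e)) else 0)
    have h1 := h (GR Q ⧸ flvlN Q (p ^ e)) D hD
    rw [Finset.sum_eq_single i0] at h1
    · rw [← hy i0, hDy, if_pos rfl, ← Submodule.Quotient.mk_smul] at h1
      obtain ⟨h', hh⟩ := (Submodule.Quotient.mk_eq_zero _).1 h1
      refine ⟨h', ?_⟩
      rw [← hh, smul_eq_mul, mul_one]
    · intro i _ hi
      rw [← hy i, hDy, if_neg, smul_zero]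
      exact fun hc => hi (hι hc)
    · intro hi
      exact absurd (Finset.mem_univ _) hi
  have _ := Fintype.ofFinite Q
  show u i0 = 0
  rw [flvl_eq_sum (u i0)]
  refine Finset.sum_eq_zero fun q _ => ?_
  have hz : (u i0).coeff q = 0 := by
    have hdvd : ∀ e : ℕ, ((p : ℤ) ^ e) ∣ (u i0).coeff q := by
      intro e
      obtain ⟨h', hh⟩ := key e
      refine ⟨h'.coeff q, ?_⟩
      rw [hh]
      show (p ^ e) • h'.coeff q = _
      rw [nsmul_eq_mul]
      push_cast
      rfl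
    by_contra hne
    have h2 : ((u i0).coeff q).natAbs < p ^ ((u i0).coeff q).natAbs :=
      Nat.lt_pow_self (Fact.out (p := p.Prime)).one_lt
    have h3 := hdvd ((u i0).coeff q).natAbs
    have h4 := Int.natAbs_dvd_natAbs.2 h3
    rw [Int.natAbs_pow, Int.natAbs_natCast] at h4
    exact absurd (Nat.le_of_dvd (Int.natAbs_pos.2 hne) h4) (not_le.2 h2)
  rw [hz, zero_smul]

theorem flv_of_extP {G σ : Type} [Group G] [Fintype σ] (p : ℕ) [Fact p.Prime] (V : Subgroup G)
    {d : ℕ} (x : Fin d → V) (hx : ParaP p x) (a : σ → V) (ha : ExtP p (Fin d) a) :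
    FLV p V (fun i => (a i : G)) := by
  refine ⟨fun i => (a i).2, ?_⟩
  intro Q _ _ hQ θ u h
  exact fx_lvl x p hx hQ θ a ha u fun M _ _ D hD => h M D hD

end PAN
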