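import Pool.Agent.PAN.Defs

/-!
# PAN/HomP: subgroups whose abelianization embeds are embedded for some prime

`φ : A^ab → G^ab` injective, `G` finitely generated.  The torsion of `Q = G^ab / φ(A^ab)` is finite; let `p` be a prime larger
than its order, and `U` the preimage of `p G^ab`.  If `g ∈ A ∩ U`, then `φ [g] = p y`, the class of `y` in `Q` is killed by
`p`, so `y = φ x` and `[g] = p x`.
-/

set_option autoImplicit false

open PFC PAL PAM

namespace PAN

/-- a finitely generated commutative group has no `p`-torsion for some prime `p` -/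
theorem exists_prime_no_torsion (Q : Type) [CommGroup Q] [Group.FG Q] :
    ∃ p : ℕ, p.Prime ∧ ∀ q : Q, q ^ p = 1 → q = 1 := by
  classical
  have : AddGroup.FG (Additive Q) := inferInstance
  have : Module.Finite ℤ (Additive Q) := Module.Finite.iff_addGroup_fg.2 this
  have hT : Finite (Submodule.torsion ℤ (Additive Q)) := by
    refine Module.finite_of_fg_torsion _ ?_
    exact Submodule.torsion_isTorsion
  obtain ⟨p, hle, hp⟩ := Nat.exists_infinite_primes
    (Nat.card (Submodule.torsion ℤ (Additive Q)) + 1)
  refine ⟨p, hp, fun q hq => ?_⟩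
  by_contra hne
  have h1 : p • (Additive.ofMul q) = 0 := by
    rw [← ofMul_pow, hq]
    rfl
  have h2 : Additive.ofMul q ∈ Submodule.torsion ℤ (Additive Q) := by
    refine (Submodule.mem_torsion_iff _).2 ⟨⟨(p : ℤ), ?_⟩, ?_⟩
    · exact mem_nonZeroDivisors_of_ne_zero (by exact_mod_cast hp.ne_zero)
    · show (p : ℤ) • Additive.ofMul q = 0
      rw [natCast_zsmul, h1]
  obtain ⟨y, hy⟩ : ∃ y : Submodule.torsion ℤ (Additive Q), y.1 = Additive.ofMul q :=
    ⟨⟨_, h2⟩, rfl⟩
  have h3 : p • y = 0 := by
    apply Subtype.ext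
    show p • y.1 = 0
    rw [hy, h1]
  have h4 : y ≠ 0 := by
    intro h
    apply hne
    have h5 : y.1 = 0 := by rw [h]; rfl
    rw [hy] at h5
    exact h5
  have : Fact p.Prime := ⟨hp⟩
  have h5 : addOrderOf y = p := addOrderOf_eq_prime h3 h4
  have h6 : addOrderOf y ≤ Nat.card (Submodule.torsion ℤ (Additive Q)) := addOrderOf_le_card
  omega

theorem pemb_homInj {G : Type} [Group G] [Group.FG G] (A : Subgroup G)
    (hA : Function.Injective (Abelianization.map A.subtype)) : ∃ p : ℕ, p.Prime ∧ PEmb p A := by
  have hfgN : Group.FG (Abelianization G) :=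
    Group.fg_of_surjective (f := Abelianization.of) QuotientGroup.mk_surjective
  have hfgQ : Group.FG (Abelianization G ⧸ (Abelianization.map A.subtype).range) :=
    Group.fg_of_surjective (f := QuotientGroup.mk' _) (QuotientGroup.mk'_surjective _)
  obtain ⟨p, hp, hpt⟩ :=
    exists_prime_no_torsion (Abelianization G ⧸ (Abelianization.map A.subtype).range)
  have hpF : Fact p.Prime := ⟨hp⟩
  refine ⟨p, hp, (powMonoidHom p : Abelianization G →* Abelianization G).range.comap
    Abelianization.of, inferInstance, ?_, ?_⟩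
  · rw [Subgroup.index_comap_of_surjective _ QuotientGroup.mk_surjective]
    have h1 : ∀ q : Abelianization G ⧸
        (powMonoidHom p : Abelianization G →* Abelianization G).range, q ^ p = 1 := by
      intro q
      obtain ⟨y, rfl⟩ := QuotientGroup.mk_surjective q
      rw [← QuotientGroup.mk_pow, QuotientGroup.eq_one_iff]
      exact ⟨y, rfl⟩
    have hfg : Group.FG (Abelianization G ⧸
        (powMonoidHom p : Abelianization G →* Abelianization G).range) :=
      Group.fg_of_surjective (f := QuotientGroup.mk' _) (QuotientGroup.mk'_surjective _)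
    have hfin : Finite (Abelianization G ⧸
        (powMonoidHom p : Abelianization G →* Abelianization G).range) := by
      refine CommGroup.finite_of_fg_isMulTorsion _ fun q => ?_
      rw [isOfFinOrder_iff_pow_eq_one]
      exact ⟨p, hp.pos, h1 q⟩
    have h2 : IsPGroup p (Abelianization G ⧸
        (powMonoidHom p : Abelianization G →* Abelianization G).range) := fun q =>
      ⟨1, by rw [pow_one]; exact h1 q⟩
    obtain ⟨k, hk⟩ := IsPGroup.iff_card.1 h2
    exact ⟨k, hk⟩
  · intro h g hg hgU
    obtain ⟨y, hy⟩ : ∃ y : Abelianization G, y ^ p = Abelianization.of g := hgU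
    have h1 : (QuotientGroup.mk y : Abelianization G ⧸ (Abelianization.map A.subtype).range) ^ p =
        1 := by
      rw [← QuotientGroup.mk_pow, hy, QuotientGroup.eq_one_iff]
      exact ⟨Abelianization.of ⟨g, hg⟩, rfl⟩
    have h2 := hpt _ h1
    rw [QuotientGroup.eq_one_iff] at h2
    obtain ⟨x, hx⟩ := h2
    have h3 : x ^ p = Abelianization.of ⟨g, hg⟩ := by
      apply hA
      rw [map_pow, hx, hy]
      rfl
    have h4 : h ⟨g, hg⟩ = Abelianization.lift h (Abelianization.of ⟨g, hg⟩) := rfl
    rw [h4, ← h3, map_pow]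
    obtain ⟨m, hm⟩ : ∃ m : ZMod p, Multiplicative.ofAdd m = Abelianization.lift h x :=
      ⟨Multiplicative.toAdd (Abelianization.lift h x), rfl⟩
    rw [← hm, ← ofAdd_nsmul]
    have h5 : p • m = 0 := by
      rw [nsmul_eq_mul, ZMod.natCast_self, zero_mul]
    rw [h5]
    rfl

end PAN
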