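import Pool.Agent.PAN.Defs

/-!
# PAN/Ind (module PAN-Ind): the induced derivation and the pairing

`ind_der`: let `s : G ⧸ V → G` be representatives with `s (mk 1) = 1` and
`D' g c = el (θ (s c)) • D ⟨(s c)⁻¹ * g * s (g⁻¹ • c), _⟩`.  For `c₁ = g⁻¹ • c`:
`(s c)⁻¹ (g h) s (h⁻¹ • c₁) = ((s c)⁻¹ g s c₁) ((s c₁)⁻¹ h s (h⁻¹ • c₁))`.

`pair`: for `f` in the group ring and `a ∈ G`
`∑_c u c • lin (fun g => D' g c) (f * (el a - 1)) = ∑_{c'} (∑_c u c * mp θ (blk V c c' f)) • D' a c'`: both sides are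
additive in `f`, and for `f = el g` the left side is `∑_c u c • (el (θ g) • D' a (g⁻¹ • c))` and
`blk V c c' (el g) = el g` if `g • c' = c` and `0` otherwise.  `pair_sum`: sum over the columns.
-/

set_option autoImplicit false

open PFC PAL PAM

namespace PAN

private theorem Ind_one {Q : Type} [Group Q] : (el (1 : Q) : GR Q) = 1 := map_one _

private theorem Ind_mul {Q : Type} [Group Q] (a b : Q) : (el (a * b) : GR Q) = el a * el b := map_mul _ a b

theorem ind_der {G Q M : Type} [Group G] [Group Q] [AddCommGroup M] [Module (GR Q) M]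
    (V : Subgroup G) (θ : G →* Q) (D : V → M) (hD : IsDer (θ.comp V.subtype) D) :
    ∃ D' : G → (G ⧸ V) → M,
      (∀ (g h : G) (c : G ⧸ V), D' (g * h) c = D' g c + (el (θ g) : GR Q) • D' h (g⁻¹ • c)) ∧
      ∀ v : V, D' v ((1 : G) : G ⧸ V) = D v := by
  classical
  obtain ⟨s, hs, hs1⟩ : ∃ s : (G ⧸ V) → G, (∀ c, ((s c : G) : G ⧸ V) = c) ∧ s ((1 : G) : G ⧸ V) = 1 := by
    refine ⟨fun c => if c = ((1 : G) : G ⧸ V) then 1 else Quotient.out c, fun c => ?_, ?_⟩
    · dsimp only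
      split_ifs with h
      · exact h.symm
      · exact QuotientGroup.out_eq' c
    · exact if_pos rfl
  have hm : ∀ (g : G) (c : G ⧸ V), (s c)⁻¹ * g * s (g⁻¹ • c) ∈ V := by
    intro g c
    have h1 : (((g * s (g⁻¹ • c) : G)) : G ⧸ V) = c := by
      have h2 : (((g * s (g⁻¹ • c) : G)) : G ⧸ V) = g • ((s (g⁻¹ • c) : G) : G ⧸ V) := rfl
      rw [h2, hs, smul_inv_smul]
    have h3 : ((s c : G) : G ⧸ V) = ((g * s (g⁻¹ • c) : G) : G ⧸ V) := by
      rw [hs, h1]
    rw [mul_assoc]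
    exact QuotientGroup.eq.1 h3
  refine ⟨fun g c => (el (θ (s c)) : GR Q) • D ⟨(s c)⁻¹ * g * s (g⁻¹ • c), hm g c⟩, ?_, ?_⟩
  · intro g h c
    have e1 : (⟨(s c)⁻¹ * (g * h) * s ((g * h)⁻¹ • c), hm (g * h) c⟩ : V) =
        ⟨(s c)⁻¹ * g * s (g⁻¹ • c), hm g c⟩ *
          ⟨(s (g⁻¹ • c))⁻¹ * h * s (h⁻¹ • (g⁻¹ • c)), hm h (g⁻¹ • c)⟩ := by
      apply Subtype.ext
      show (s c)⁻¹ * (g * h) * s ((g * h)⁻¹ • c) =
        ((s c)⁻¹ * g * s (g⁻¹ • c)) * ((s (g⁻¹ • c))⁻¹ * h * s (h⁻¹ • (g⁻¹ • c)))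
      rw [mul_inv_rev, mul_smul]
      group
    have e2 : θ (s c) * (θ.comp V.subtype) ⟨(s c)⁻¹ * g * s (g⁻¹ • c), hm g c⟩ = θ g * θ (s (g⁻¹ • c)) := by
      show θ (s c) * θ ((s c)⁻¹ * g * s (g⁻¹ • c)) = θ g * θ (s (g⁻¹ • c))
      rw [← map_mul, ← map_mul]
      congr 1
      group
    have e3 : ∀ B : M, (el (θ (s c)) : GR Q) •
        (el ((θ.comp V.subtype) ⟨(s c)⁻¹ * g * s (g⁻¹ • c), hm g c⟩) : GR Q) • B =
        (el (θ g) : GR Q) • (el (θ (s (g⁻¹ • c))) : GR Q) • B := by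
      intro B
      rw [← mul_smul, ← mul_smul, ← Ind_mul, ← Ind_mul, e2]
    dsimp only
    rw [e1, hD, smul_add, e3]
  · intro v
    have h1 : ((v : G)⁻¹ • ((1 : G) : G ⧸ V) : G ⧸ V) = ((1 : G) : G ⧸ V) := by
      have h2 : ((v : G)⁻¹ • ((1 : G) : G ⧸ V) : G ⧸ V) = (((v : G)⁻¹ * 1 : G) : G ⧸ V) := rfl
      rw [h2, mul_one]
      refine QuotientGroup.eq.2 ?_
      rw [inv_inv, mul_one]
      exact v.2
    have e1 : (⟨(s ((1 : G) : G ⧸ V))⁻¹ * (v : G) * s ((v : G)⁻¹ • ((1 : G) : G ⧸ V)), hm v _⟩ : V) = v := by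
      apply Subtype.ext
      show (s ((1 : G) : G ⧸ V))⁻¹ * (v : G) * s ((v : G)⁻¹ • ((1 : G) : G ⧸ V)) = v
      rw [h1, hs1, inv_one, one_mul, mul_one]
    dsimp only
    rw [e1, hs1, map_one, Ind_one, one_smul]

theorem pair {G Q M : Type} [Group G] [Group Q] [AddCommGroup M] [Module (GR Q) M]
    (V : Subgroup G) [Fintype (G ⧸ V)] (θ : G →* Q) (D' : G → (G ⧸ V) → M)
    (hD' : ∀ (g h : G) (c : G ⧸ V), D' (g * h) c = D' g c + (el (θ g) : GR Q) • D' h (g⁻¹ • c))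
    (u : (G ⧸ V) → GR Q) (f : GR G) (a : G) :
    ∑ c, u c • lin (fun g => D' g c) (f * (el a - 1)) =
      ∑ c', (∑ c, u c * mp θ (blk V c c' f)) • D' a c' := by
  classical
  let F : GR G →+ M := AddMonoidHom.mk' (fun f => ∑ c, u c • lin (fun g => D' g c) (f * (el a - 1)))
    (fun x y => by
      rw [← Finset.sum_add_distrib]
      refine Finset.sum_congr rfl fun c _ => ?_
      rw [add_mul, map_add, smul_add])
  let F' : GR G →+ M := AddMonoidHom.mk' (fun f => ∑ c', (∑ c, u c * mp θ (blk V c c' f)) • D' a c')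
    (fun x y => by
      rw [← Finset.sum_add_distrib]
      refine Finset.sum_congr rfl fun c' _ => ?_
      rw [← add_smul, ← Finset.sum_add_distrib]
      congr 1
      refine Finset.sum_congr rfl fun c _ => ?_
      have h1 : blk V c c' (x + y) = blk V c c' x + blk V c c' y := map_add _ x y
      rw [h1, map_add, mul_add])
  have key : F f = F' f := by
    refine add_ext F F' (fun g => ?_) f
    show ∑ c, u c • lin (fun g => D' g c) (el g * (el a - 1)) =
      ∑ c', (∑ c, u c * mp θ (blk V c c' (el g))) • D' a c'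
    have h1 : ∀ c, lin (fun g => D' g c) ((el g : GR G) * (el a - 1)) = (el (θ g) : GR Q) • D' a (g⁻¹ • c) := by
      intro c
      rw [mul_sub, mul_one, ← Ind_mul, map_sub, PAL.lin_el, PAL.lin_el, hD', add_sub_cancel_left]
    have h2 : ∀ c c', blk V c c' (el g : GR G) = if g • c' = c then (el g : GR G) else 0 := by
      intro c c'
      unfold blk
      rw [PAL.lin_el]
    have h3 : ∀ c', (∑ c, u c * mp θ (blk V c c' (el g))) • D' a c' =
        ∑ c, if g • c' = c then (u c * el (θ g)) • D' a c' else 0 := by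
      intro c'
      rw [Finset.sum_smul]
      refine Finset.sum_congr rfl fun c _ => ?_
      rw [h2]
      split_ifs with h
      · rw [mp_el]
      · rw [map_zero, mul_zero, zero_smul]
    rw [Finset.sum_congr rfl fun c' _ => h3 c', Finset.sum_comm]
    refine Finset.sum_congr rfl fun c _ => ?_
    rw [h1, Finset.sum_eq_single (g⁻¹ • c)]
    · rw [smul_inv_smul, if_pos rfl, mul_smul]
    · intro c' _ hc'
      refine if_neg fun h => hc' ?_
      rw [← h, inv_smul_smul]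
    · intro h
      exact absurd (Finset.mem_univ _) h
  exact key

theorem pair_sum {G Q M S σ : Type} [Group G] [Group Q] [AddCommGroup M] [Module (GR Q) M]
    [Fintype S] [Fintype σ]
    (V : Subgroup G) [Fintype (G ⧸ V)] (θ : G →* Q) (D' : G → (G ⧸ V) → M)
    (hD' : ∀ (g h : G) (c : G ⧸ V), D' (g * h) c = D' g c + (el (θ g) : GR Q) • D' h (g⁻¹ • c))
    (u : (G ⧸ V) → GR Q) (ζ : S → G) (X : S → GR G) (a : σ → G) (T : σ → GR G)
    (h : ∑ j, X j * (el (ζ j) - 1) + ∑ i, T i * (el (a i) - 1) = 0) :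
    ∑ j, ∑ c', (∑ c, u c * mp θ (blk V c c' (X j))) • D' (ζ j) c' +
      ∑ i, ∑ c', (∑ c, u c * mp θ (blk V c c' (T i))) • D' (a i) c' = 0 := by
  have h1 : ∀ j, ∑ c', (∑ c, u c * mp θ (blk V c c' (X j))) • D' (ζ j) c' =
      ∑ c, u c • lin (fun g => D' g c) (X j * (el (ζ j) - 1)) := fun j =>
    (pair V θ D' hD' u (X j) (ζ j)).symm
  have h2 : ∀ i, ∑ c', (∑ c, u c * mp θ (blk V c c' (T i))) • D' (a i) c' =
      ∑ c, u c • lin (fun g => D' g c) (T i * (el (a i) - 1)) := fun i =>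
    (pair V θ D' hD' u (T i) (a i)).symm
  rw [Finset.sum_congr rfl fun j _ => h1 j, Finset.sum_congr rfl fun i _ => h2 i, Finset.sum_comm,
    Finset.sum_comm (s := (Finset.univ : Finset σ)), ← Finset.sum_add_distrib]
  refine Finset.sum_eq_zero fun c _ => ?_
  rw [← Finset.smul_sum, ← Finset.smul_sum, ← smul_add, ← map_sum, ← map_sum, ← map_add, h, map_zero, smul_zero]

end PAN
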