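import Pool.Agent.PAN.Defs

/-!
# PAN/SqRa (module PAN-SqRa): the right action preserves square summable functions

`sq_ra`: by induction on the element of the group ring; `y ↦ n v (y g⁻¹)` is square summable (`Equiv.mulRight`).
-/

set_option autoImplicit false

open PFC PAL PAM

namespace PAN

private theorem sqRa_add {G : Type} (v w : G → ℝ) (hv : Sq v) (hw : Sq w) : Sq (fun y => v y + w y) := by
  refine Summable.of_nonneg_of_le (fun y => sq_nonneg _) (fun y => ?_) ((hv.add hw).mul_left 2)
  nlinarith [sq_nonneg (v y - w y)]

theorem sq_ra {G : Type} [Group G] (v : G → ℝ) (hv : Sq v) (f : GR G) : Sq (ra v f) := by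
  induction f using MonoidAlgebra.induction_linear with
  | zero =>
    have h1 : ra v 0 = fun _ => 0 := by
      funext x
      exact map_zero _
    rw [h1]
    unfold Sq
    simp
  | add f g hf hg =>
    have h1 : ra v (f + g) = fun x => ra v f x + ra v g x := by
      funext x
      exact map_add _ _ _
    rw [h1]
    exact sqRa_add _ _ hf hg
  | single g n =>
    have h1 : ra v (MonoidAlgebra.single g n) = fun x => (n : ℝ) * v (x * g⁻¹) := by
      funext x
      unfold ra
      rw [PAL.lin_single, zsmul_eq_mul]
    rw [h1]
    unfold Sq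
    have h2 : Summable fun x => v (x * g⁻¹) ^ 2 := (Equiv.mulRight g⁻¹).summable_iff.2 hv
    have h3 := h2.mul_left ((n : ℝ) ^ 2)
    refine h3.congr fun x => ?_
    ring

theorem sq_add {G : Type} (v w : G → ℝ) (hv : Sq v) (hw : Sq w) : Sq (fun y => v y + w y) :=
  sqRa_add v w hv hw

theorem sq_sum {G ι : Type} (s : Finset ι) (v : ι → G → ℝ) (hv : ∀ i, Sq (v i)) :
    Sq (fun y => ∑ i ∈ s, v i y) := by
  classical
  induction s using Finset.induction_on with
  | empty =>
    unfold Sq
    simp
  | insert a s ha ih =>
    have h1 : (fun y => ∑ i ∈ insert a s, v i y) = fun y => v a y + ∑ i ∈ s, v i y := by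
      funext y
      exact Finset.sum_insert ha
    rw [h1]
    exact sq_add _ _ (hv a) ih

end PAN
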