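import Pool.Agent.PAN.Relax
import Pool.Agent.PAN.SqRa
import Pool.Agent.PAL.Rat

/-!
# PAN/InterA (module PAN-InterA): the rows of the edge group of an amalgam are independent

`C = B₁ ⊓ B₂ ≤ A ≤ V` (`A` is an arbitrary subgroup of `G` which contains `C`).  `T` is the half tree of `PAN/TreeA.lean` (with
`B = B₁`, `A = B₂`); put `S₁ = T ∪ C`, `S₂ = T`: `S₁` is right `B₁`-invariant, `S₂` is right `B₂`-invariant, `T ∩ C = ∅`.

The hypotheses are invariant under left translation (`ra_trans`), so it is enough to show `v l 1 = 0`.  Apply `relax` to the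
rows `ρ₁ ⊕ ρ₂ ⊕ κ ⊕ κ`, the columns `N₁ ⊕ N₂` (elements `z₁`, `z₂`), with `X = (X₁, 0), (0, X₂), (J₁, 0), (0, - J₂)`, and
`T = 0, 0, - JA, JA` (columns `σ`, elements `a`): all rows satisfy `hrel` (for the two copies of `κ`:
`J₁ l · (z₁ - 1) = c l - 1 = JA l · (a - 1)` and the same with `J₂`), and the vector `(v₁ 1_{S₁}, v₂ 1_{S₂}, v 1_{S₁}, v 1_{S₂})`.  The
columns `N₁`, `N₂` vanish because the functions are cut with right invariant sets (as in `ra_restrict` in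
`PAL/Basic.lean`); the column `i` in `σ` is `- ∑ l, ra (v l 1_C) (JA l i)`, which is supported in `A ≤ V`.  So it vanishes everywhere,
and `v l 1_C = 0` by `supp_zero` (`PAL/Rat.lean`).
-/

set_option autoImplicit false

open PFC PAL PAM

namespace PAN

open Classical in
/-- cutting with a set -/
private noncomputable def interA_cut {G : Type} (S : Set G) (v : G → ℝ) : G → ℝ :=
  fun y => if y ∈ S then v y else 0

private theorem interA_pos {G : Type} {S : Set G} {v : G → ℝ} {y : G} (h : y ∈ S) :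
    interA_cut S v y = v y := if_pos h

private theorem interA_neg {G : Type} {S : Set G} {v : G → ℝ} {y : G} (h : y ∉ S) :
    interA_cut S v y = 0 := if_neg h

private theorem interA_sq {G : Type} (S : Set G) (v : G → ℝ) (hv : Sq v) : Sq (interA_cut S v) := by
  refine Summable.of_nonneg_of_le (fun y => sq_nonneg _) (fun y => ?_) hv
  by_cases h : y ∈ S
  · rw [interA_pos h]
  · rw [interA_neg h]
    have := sq_nonneg (v y)
    linarith

/-- the right action commutes with the cut with a right invariant set -/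
private theorem interA_ra {G : Type} [Group G] (B : Subgroup G) (S : Set G)
    (hS : ∀ x b : G, b ∈ B → x ∈ S → x * b ∈ S) (v : G → ℝ) (f : GR G) (hf : InSub B f) (x : G) :
    ra (interA_cut S v) f x = interA_cut S (ra v f) x := by
  by_cases hx : x ∈ S
  · rw [interA_pos hx]
    refine lin_congr fun h hh => ?_
    exact interA_pos (hS x h⁻¹ (B.inv_mem (hf h hh)) hx)
  · rw [interA_neg hx]
    have h1 : ra (interA_cut S v) f x = PAL.lin (fun _ : G => (0 : ℝ)) f := by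
      refine lin_congr fun h hh => ?_
      refine interA_neg fun h2 => hx ?_
      have h3 := hS _ h (hf h hh) h2
      rwa [inv_mul_cancel_right] at h3
    rw [h1, lin_zero]

private theorem interA_cut_sum {G ι : Type} (S : Set G) (s : Finset ι) (v : ι → G → ℝ) (y : G) :
    ∑ i ∈ s, interA_cut S (v i) y = interA_cut S (fun y => ∑ i ∈ s, v i y) y := by
  by_cases h : y ∈ S
  · rw [interA_pos h]
    exact Finset.sum_congr rfl fun i _ => interA_pos h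
  · rw [interA_neg h]
    exact Finset.sum_eq_zero fun i _ => interA_neg h

private theorem interA_one {G ρ₁ ρ₂ N₁ N₂ κ σ : Type} [Group G] [Fintype ρ₁] [Fintype ρ₂] [Fintype N₁]
    [Fintype N₂] [Fintype κ] [DecidableEq κ] [Fintype σ] (p : ℕ) [Fact p.Prime]
    (hres : ResQ p G) (B₁ B₂ A V : Subgroup G) (hCA : B₁ ⊓ B₂ ≤ A) (hAV : A ≤ V)
    (hVi : V.FiniteIndex)
    (z₁ : N₁ → G) (X₁ : ρ₁ → N₁ → GR G) (hrel₁ : ∀ i, ∑ ν, X₁ i ν * (el (z₁ ν) - 1) = 0)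
    (hsupp₁ : ∀ i ν, InSub B₁ (X₁ i ν))
    (z₂ : N₂ → G) (X₂ : ρ₂ → N₂ → GR G) (hrel₂ : ∀ i, ∑ ν, X₂ i ν * (el (z₂ ν) - 1) = 0)
    (hsupp₂ : ∀ i ν, InSub B₂ (X₂ i ν))
    (a : σ → G) (hV : FLV p V a) (c : κ → G) (hc : ∀ l, c l ∈ B₁ ⊓ B₂)
    (hfree : ∀ m : κ, ∃ D : (B₁ ⊓ B₂ : Subgroup G) → GR (B₁ ⊓ B₂ : Subgroup G),
      IsDer (MonoidHom.id (B₁ ⊓ B₂ : Subgroup G)) D ∧ ∀ l, D ⟨c l, hc l⟩ = if l = m then 1 else 0)
    (J₁ : κ → N₁ → GR G) (hJ₁ : ∀ l, Fund z₁ (c l) (J₁ l)) (hs₁ : ∀ l ν, InSub B₁ (J₁ l ν))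
    (J₂ : κ → N₂ → GR G) (hJ₂ : ∀ l, Fund z₂ (c l) (J₂ l)) (hs₂ : ∀ l ν, InSub B₂ (J₂ l ν))
    (JA : κ → σ → GR G) (hJA : ∀ l, Fund a (c l) (JA l)) (hsA : ∀ l i, InSub A (JA l i))
    (T : Set G)
    (hT₁ : ∀ x b : G, b ∈ B₁ → (x ∈ T ∨ x ∈ B₁ ⊓ B₂) → (x * b ∈ T ∨ x * b ∈ B₁ ⊓ B₂))
    (hT₂ : ∀ x b : G, b ∈ B₂ → x ∈ T → x * b ∈ T) (hT₃ : ∀ x ∈ B₂, x ∉ T)
    (v₁ : ρ₁ → G → ℝ) (v₂ : ρ₂ → G → ℝ) (v : κ → G → ℝ) (hv₁ : ∀ i, Sq (v₁ i))
    (hv₂ : ∀ i, Sq (v₂ i)) (hv : ∀ l, Sq (v l))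
    (h₁ : ∀ ν y, ∑ i, ra (v₁ i) (X₁ i ν) y + ∑ l, ra (v l) (J₁ l ν) y = 0)
    (h₂ : ∀ ν y, ∑ i, ra (v₂ i) (X₂ i ν) y = ∑ l, ra (v l) (J₂ l ν) y) :
    ∀ l, v l 1 = 0 := by
  obtain ⟨S₁, hS₁⟩ : ∃ S₁ : Set G, ∀ x, x ∈ S₁ ↔ (x ∈ T ∨ x ∈ B₁ ⊓ B₂) :=
    ⟨{x | x ∈ T ∨ x ∈ B₁ ⊓ B₂}, fun _ => Iff.rfl⟩
  have hS₁i : ∀ x b : G, b ∈ B₁ → x ∈ S₁ → x * b ∈ S₁ := fun x b hb hx =>
    (hS₁ _).2 (hT₁ x b hb ((hS₁ _).1 hx))
  -- the difference of the two cuts is the part supported in the edge group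
  have hdiff : ∀ (u : G → ℝ) (f : GR G) (y : G), ra (interA_cut S₁ u) f y =
      ra (interA_cut T u) f y + ra (interA_cut ((B₁ ⊓ B₂ : Subgroup G) : Set G) u) f y := by
    intro u f y
    have h3 : interA_cut S₁ u = fun y => interA_cut T u y +
        interA_cut ((B₁ ⊓ B₂ : Subgroup G) : Set G) u y := by
      funext y
      by_cases hyT : y ∈ T
      · have hyC : y ∉ ((B₁ ⊓ B₂ : Subgroup G) : Set G) := fun h4 => hT₃ y h4.2 hyT
        rw [interA_pos ((hS₁ y).2 (Or.inl hyT)), interA_pos hyT, interA_neg hyC, add_zero]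
      · by_cases hyC : y ∈ ((B₁ ⊓ B₂ : Subgroup G) : Set G)
        · rw [interA_pos ((hS₁ y).2 (Or.inr hyC)), interA_neg hyT, interA_pos hyC, zero_add]
        · have hyS : y ∉ S₁ := fun h4 => ((hS₁ y).1 h4).elim hyT hyC
          rw [interA_neg hyS, interA_neg hyT, interA_neg hyC, zero_add]
    rw [h3]
    exact ra_add_left _ _ _ _
  -- the columns of the elements `a`
  have hcol : ∀ i y, ∑ l, ra (interA_cut S₁ (v l)) (- JA l i) y +
      ∑ l, ra (interA_cut T (v l)) (JA l i) y =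
      - ∑ l, ra (interA_cut ((B₁ ⊓ B₂ : Subgroup G) : Set G) (v l)) (JA l i) y := by
    intro i y
    simp only [ra_neg_right, hdiff, Finset.sum_neg_distrib, Finset.sum_add_distrib]
    ring
  have hrelax := relax (R := ρ₁ ⊕ ρ₂ ⊕ κ ⊕ κ) (S := N₁ ⊕ N₂) p hres V hVi a hV
    (Sum.elim z₁ z₂)
    (Sum.elim (fun i => Sum.elim (fun ν => X₁ i ν) (fun _ => 0))
      (Sum.elim (fun i => Sum.elim (fun _ => 0) (fun ν => X₂ i ν))
        (Sum.elim (fun l => Sum.elim (fun ν => J₁ l ν) (fun _ => 0))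
          (fun l => Sum.elim (fun _ => 0) (fun ν => - J₂ l ν)))))
    (Sum.elim (fun _ _ => 0) (Sum.elim (fun _ _ => 0)
      (Sum.elim (fun l i => - JA l i) (fun l i => JA l i))))
    (by
      intro ℓ
      rcases ℓ with i | i | l | l
      · simp only [Sum.elim_inl, Sum.elim_inr, Fintype.sum_sum_type, zero_mul,
          Finset.sum_const_zero, add_zero]
        exact hrel₁ i
      · simp only [Sum.elim_inl, Sum.elim_inr, Fintype.sum_sum_type, zero_mul,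
          Finset.sum_const_zero, add_zero, zero_add]
        exact hrel₂ i
      · simp only [Sum.elim_inl, Sum.elim_inr, Fintype.sum_sum_type, zero_mul,
          Finset.sum_const_zero, add_zero, neg_mul, Finset.sum_neg_distrib]
        rw [← hJ₁ l, ← hJA l, add_neg_cancel]
      · simp only [Sum.elim_inl, Sum.elim_inr, Fintype.sum_sum_type, zero_mul,
          Finset.sum_const_zero, zero_add, neg_mul, Finset.sum_neg_distrib]
        rw [← hJ₂ l, ← hJA l, neg_add_cancel])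
    (Sum.elim (fun i => interA_cut S₁ (v₁ i)) (Sum.elim (fun i => interA_cut T (v₂ i))
      (Sum.elim (fun l => interA_cut S₁ (v l)) (fun l => interA_cut T (v l)))))
    (by
      intro ℓ
      rcases ℓ with i | i | l | l
      · exact interA_sq _ _ (hv₁ i)
      · exact interA_sq _ _ (hv₂ i)
      · exact interA_sq _ _ (hv l)
      · exact interA_sq _ _ (hv l))
    (by
      intro j y
      rcases j with ν | ν
      · simp only [Sum.elim_inl, Sum.elim_inr, Fintype.sum_sum_type, ra_zero_right,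
          Finset.sum_const_zero, add_zero, zero_add]
        have e1 : ∀ i, ra (interA_cut S₁ (v₁ i)) (X₁ i ν) y =
            interA_cut S₁ (ra (v₁ i) (X₁ i ν)) y := fun i =>
          interA_ra B₁ S₁ hS₁i _ _ (hsupp₁ i ν) y
        have e2 : ∀ l, ra (interA_cut S₁ (v l)) (J₁ l ν) y =
            interA_cut S₁ (ra (v l) (J₁ l ν)) y := fun l =>
          interA_ra B₁ S₁ hS₁i _ _ (hs₁ l ν) y
        rw [Finset.sum_congr rfl fun i _ => e1 i, Finset.sum_congr rfl fun l _ => e2 l]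
        by_cases hy : y ∈ S₁
        · rw [Finset.sum_congr rfl fun i _ => interA_pos hy,
            Finset.sum_congr rfl fun l _ => interA_pos hy]
          exact h₁ ν y
        · rw [Finset.sum_eq_zero fun i _ => interA_neg hy,
            Finset.sum_eq_zero fun l _ => interA_neg hy, add_zero]
      · simp only [Sum.elim_inl, Sum.elim_inr, Fintype.sum_sum_type, ra_zero_right,
          Finset.sum_const_zero, zero_add, ra_neg_right, Finset.sum_neg_distrib]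
        have e1 : ∀ i, ra (interA_cut T (v₂ i)) (X₂ i ν) y =
            interA_cut T (ra (v₂ i) (X₂ i ν)) y := fun i =>
          interA_ra B₂ T hT₂ _ _ (hsupp₂ i ν) y
        have e2 : ∀ l, ra (interA_cut T (v l)) (J₂ l ν) y =
            interA_cut T (ra (v l) (J₂ l ν)) y := fun l =>
          interA_ra B₂ T hT₂ _ _ (hs₂ l ν) y
        rw [Finset.sum_congr rfl fun i _ => e1 i, Finset.sum_congr rfl fun l _ => e2 l]
        by_cases hy : y ∈ T
        · rw [Finset.sum_congr rfl fun i _ => interA_pos hy,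
            Finset.sum_congr rfl fun l _ => interA_pos hy, h₂ ν y, add_neg_cancel]
        · rw [Finset.sum_eq_zero fun i _ => interA_neg hy,
            Finset.sum_eq_zero fun l _ => interA_neg hy, neg_zero, add_zero])
    (by
      intro i y hy
      simp only [Sum.elim_inl, Sum.elim_inr, Fintype.sum_sum_type, ra_zero_right,
        Finset.sum_const_zero, zero_add]
      rw [hcol i y, neg_eq_zero]
      refine Finset.sum_eq_zero fun l _ => ?_
      have h3 : ra (interA_cut ((B₁ ⊓ B₂ : Subgroup G) : Set G) (v l)) (JA l i) y =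
          PAL.lin (fun _ : G => (0 : ℝ)) (JA l i) := by
        refine lin_congr fun g hg => ?_
        refine interA_neg fun h4 => hy ?_
        have h5 := V.mul_mem (hAV (hCA h4)) (hAV (hsA l i g hg))
        rwa [inv_mul_cancel_right] at h5
      rw [h3, lin_zero])
  have hcon : ∀ i y,
      ∑ l, ra (interA_cut ((B₁ ⊓ B₂ : Subgroup G) : Set G) (v l)) (JA l i) y = 0 := by
    intro i y
    have h3 := hrelax i y
    simp only [Sum.elim_inl, Sum.elim_inr, Fintype.sum_sum_type, ra_zero_right,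
      Finset.sum_const_zero, zero_add] at h3
    rw [hcol i y, neg_eq_zero] at h3
    exact h3
  have hfin := supp_zero (B₁ ⊓ B₂) c hc hfree a JA hJA
    (fun l => interA_cut ((B₁ ⊓ B₂ : Subgroup G) : Set G) (v l)) (fun l g hg => interA_neg hg)
    hcon
  intro l
  have h3 := congrFun (congrFun hfin l) 1
  have h4 : interA_cut ((B₁ ⊓ B₂ : Subgroup G) : Set G) (v l) 1 = v l 1 :=
    interA_pos (B₁ ⊓ B₂).one_mem
  rw [← h4]
  exact h3

theorem interA {G ρ₁ ρ₂ N₁ N₂ κ σ : Type} [Group G] [Fintype ρ₁] [Fintype ρ₂] [Fintype N₁]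
    [Fintype N₂] [Fintype κ] [DecidableEq κ] [Fintype σ] (p : ℕ) [Fact p.Prime]
    (hres : ResQ p G) (B₁ B₂ A V : Subgroup G) (hCA : B₁ ⊓ B₂ ≤ A) (hAV : A ≤ V)
    (hVi : V.FiniteIndex)
    (z₁ : N₁ → G) (X₁ : ρ₁ → N₁ → GR G) (hrel₁ : ∀ i, ∑ ν, X₁ i ν * (el (z₁ ν) - 1) = 0)
    (hsupp₁ : ∀ i ν, InSub B₁ (X₁ i ν))
    (z₂ : N₂ → G) (X₂ : ρ₂ → N₂ → GR G) (hrel₂ : ∀ i, ∑ ν, X₂ i ν * (el (z₂ ν) - 1) = 0)
    (hsupp₂ : ∀ i ν, InSub B₂ (X₂ i ν))
    (a : σ → G) (hV : FLV p V a) (c : κ → G) (hc : ∀ l, c l ∈ B₁ ⊓ B₂)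
    (hfree : ∀ m : κ, ∃ D : (B₁ ⊓ B₂ : Subgroup G) → GR (B₁ ⊓ B₂ : Subgroup G),
      IsDer (MonoidHom.id (B₁ ⊓ B₂ : Subgroup G)) D ∧ ∀ l, D ⟨c l, hc l⟩ = if l = m then 1 else 0)
    (J₁ : κ → N₁ → GR G) (hJ₁ : ∀ l, Fund z₁ (c l) (J₁ l)) (hs₁ : ∀ l ν, InSub B₁ (J₁ l ν))
    (J₂ : κ → N₂ → GR G) (hJ₂ : ∀ l, Fund z₂ (c l) (J₂ l)) (hs₂ : ∀ l ν, InSub B₂ (J₂ l ν))
    (JA : κ → σ → GR G) (hJA : ∀ l, Fund a (c l) (JA l)) (hsA : ∀ l i, InSub A (JA l i))
    (T : Set G)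
    (hT₁ : ∀ x b : G, b ∈ B₁ → (x ∈ T ∨ x ∈ B₁ ⊓ B₂) → (x * b ∈ T ∨ x * b ∈ B₁ ⊓ B₂))
    (hT₂ : ∀ x b : G, b ∈ B₂ → x ∈ T → x * b ∈ T) (hT₃ : ∀ x ∈ B₂, x ∉ T)
    (v₁ : ρ₁ → G → ℝ) (v₂ : ρ₂ → G → ℝ) (v : κ → G → ℝ) (hv₁ : ∀ i, Sq (v₁ i))
    (hv₂ : ∀ i, Sq (v₂ i)) (hv : ∀ l, Sq (v l))
    (h₁ : ∀ ν y, ∑ i, ra (v₁ i) (X₁ i ν) y + ∑ l, ra (v l) (J₁ l ν) y = 0)
    (h₂ : ∀ ν y, ∑ i, ra (v₂ i) (X₂ i ν) y = ∑ l, ra (v l) (J₂ l ν) y) : v = 0 := by
  have hsq : ∀ (x : G) (u : G → ℝ), Sq u → Sq (fun y => u (x * y)) := fun x u hu =>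
    (Equiv.mulLeft x).summable_iff.2 hu
  funext l x
  have h3 := interA_one p hres B₁ B₂ A V hCA hAV hVi z₁ X₁ hrel₁ hsupp₁ z₂ X₂ hrel₂ hsupp₂
    a hV c hc hfree J₁ hJ₁ hs₁ J₂ hJ₂ hs₂ JA hJA hsA T hT₁ hT₂ hT₃
    (fun i y => v₁ i (x * y)) (fun i y => v₂ i (x * y)) (fun l y => v l (x * y))
    (fun i => hsq x _ (hv₁ i)) (fun i => hsq x _ (hv₂ i)) (fun l => hsq x _ (hv l))
    (fun ν y => by
      simp only [ra_trans]
      exact h₁ ν (x * y))
    (fun ν y => by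
      simp only [ra_trans]
      exact h₂ ν (x * y)) l
  have h4 : v l (x * 1) = 0 := h3
  rw [mul_one] at h4
  exact h4

end PAN
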