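import Pool.Agent.PAN.Relax
import Pool.Agent.PAN.SqRa
import Pool.Agent.PAL.Rat

/-!
# PAN/InterH (module PAN-InterH): the rows of the edge group of an HNN extension are independent

`C = assoc B t ≤ A ≤ V` (`A` is an arbitrary subgroup of `G` which contains `C`).  `T` is the half tree of `PAN/TreeH.lean`: right
`B`-invariant, disjoint from `B`, `x ∈ T ↔ x t ∈ T ∨ x t ∈ C`.

The hypotheses are invariant under left translation (`ra_trans`), so it is enough to show `v l t⁻¹ = 0`.  Put
`w l y = v l (y t⁻¹)`.  Apply `relax` to the rows `ρ ⊕ κ ⊕ κ`, the columns `N ⊕ Unit` (elements `z`, `t`), with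
`X = (X, 0), (- Jt l, 1 - el (t * c l * t⁻¹)), (JB l, 0)`, and `T = 0, el t * JA l i, - JA l i` (columns `σ`, elements `a`): all rows
satisfy `hrel` (for the first `κ`: `-(t c t⁻¹ - 1) + (1 - t c t⁻¹)(t - 1) + t (c - 1) = 0`), and the vector `(u 1_T, v 1_T, w 1_T)`.
The strict columns vanish because `T` is right `B`-invariant (as in `ra_restrict` in `PAL/Basic.lean`); the column `i` in
`σ` is `∑ l, ra (w l 1_C) (JA l i)` (`y t⁻¹ ∈ T ↔ y ∈ T ∨ y ∈ C`), which is supported in `A ≤ V`.  So it vanishes everywhere, and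
`w l 1_C = 0` by `supp_zero` (`PAL/Rat.lean`); `w l 1 = v l t⁻¹`.
-/

set_option autoImplicit false

open PFC PAL PAM

namespace PAN

open Classical in
/-- cutting with a set -/
private noncomputable def interH_cut {G : Type} (S : Set G) (v : G → ℝ) : G → ℝ :=
  fun y => if y ∈ S then v y else 0

private theorem interH_pos {G : Type} {S : Set G} {v : G → ℝ} {y : G} (h : y ∈ S) :
    interH_cut S v y = v y := if_pos h

private theorem interH_neg {G : Type} {S : Set G} {v : G → ℝ} {y : G} (h : y ∉ S) :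
    interH_cut S v y = 0 := if_neg h

private theorem interH_sq {G : Type} (S : Set G) (v : G → ℝ) (hv : Sq v) : Sq (interH_cut S v) := by
  refine Summable.of_nonneg_of_le (fun y => sq_nonneg _) (fun y => ?_) hv
  by_cases h : y ∈ S
  · rw [interH_pos h]
  · rw [interH_neg h]
    have := sq_nonneg (v y)
    linarith

/-- the right action commutes with the cut with a right invariant set -/
private theorem interH_ra {G : Type} [Group G] (B : Subgroup G) (S : Set G)
    (hS : ∀ x b : G, b ∈ B → x ∈ S → x * b ∈ S) (v : G → ℝ) (f : GR G) (hf : InSub B f) (x : G) :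
    ra (interH_cut S v) f x = interH_cut S (ra v f) x := by
  by_cases hx : x ∈ S
  · rw [interH_pos hx]
    refine lin_congr fun h hh => ?_
    exact interH_pos (hS x h⁻¹ (B.inv_mem (hf h hh)) hx)
  · rw [interH_neg hx]
    have h1 : ra (interH_cut S v) f x = PAL.lin (fun _ : G => (0 : ℝ)) f := by
      refine lin_congr fun h hh => ?_
      refine interH_neg fun h2 => hx ?_
      have h3 := hS _ h (hf h hh) h2
      rwa [inv_mul_cancel_right] at h3
    rw [h1, lin_zero]

/-- the right action of `t f` -/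
private theorem interH_el {G : Type} [Group G] (v : G → ℝ) (t : G) (f : GR G) (x : G) :
    ra v (el t * f) x = PAL.lin (fun g => v (x * g⁻¹ * t⁻¹)) f := by
  show PAL.lin (fun g => v (x * g⁻¹)) (el t * f) = _
  rw [lin_el_mul]
  refine congrArg (fun K => PAL.lin K f) (funext fun g => ?_)
  rw [mul_inv_rev, mul_assoc]

private theorem interH_one {G ρ N κ σ : Type} [Group G] [Fintype ρ] [Fintype N] [Fintype κ] [DecidableEq κ]
    [Fintype σ] (p : ℕ) [Fact p.Prime] (hres : ResQ p G) (B A V : Subgroup G)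
    (t : G) (hCA : assoc B t ≤ A) (hAV : A ≤ V) (hVi : V.FiniteIndex)
    (z : N → G) (X : ρ → N → GR G) (hrel : ∀ i, ∑ ν, X i ν * (el (z ν) - 1) = 0)
    (hsupp : ∀ i ν, InSub B (X i ν))
    (a : σ → G) (hV : FLV p V a) (c : κ → G) (hc : ∀ l, c l ∈ assoc B t)
    (hfree : ∀ m : κ, ∃ D : assoc B t → GR (assoc B t),
      IsDer (MonoidHom.id (assoc B t)) D ∧ ∀ l, D ⟨c l, hc l⟩ = if l = m then 1 else 0)
    (JA : κ → σ → GR G) (hJA : ∀ l, Fund a (c l) (JA l)) (hsA : ∀ l i, InSub A (JA l i))
    (JB : κ → N → GR G) (hJB : ∀ l, Fund z (c l) (JB l)) (hsB : ∀ l ν, InSub B (JB l ν))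
    (Jt : κ → N → GR G) (hJt : ∀ l, Fund z (t * c l * t⁻¹) (Jt l))
    (hst : ∀ l ν, InSub B (Jt l ν))
    (T : Set G) (hT₁ : ∀ x b : G, b ∈ B → x ∈ T → x * b ∈ T) (hT₂ : ∀ x ∈ B, x ∉ T)
    (hT₃ : ∀ x : G, x ∈ T ↔ (x * t ∈ T ∨ x * t ∈ assoc B t))
    (u : ρ → G → ℝ) (v : κ → G → ℝ) (hu : ∀ i, Sq (u i)) (hv : ∀ l, Sq (v l))
    (h₁ : ∀ ν y, ∑ i, ra (u i) (X i ν) y + ∑ l, ra (v l) (el t * JB l ν - Jt l ν) y = 0)
    (h₂ : ∀ y, ∑ l, ra (v l) (1 - el (t * c l * t⁻¹)) y = 0) : ∀ l, v l t⁻¹ = 0 := by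
  obtain ⟨w, hw⟩ : ∃ w : κ → G → ℝ, ∀ l y, w l y = v l (y * t⁻¹) :=
    ⟨fun l y => v l (y * t⁻¹), fun _ _ => rfl⟩
  have hwS : ∀ l, Sq (w l) := by
    intro l
    have h3 : w l = fun y => v l (y * t⁻¹) := funext fun y => hw l y
    rw [h3]
    exact (Equiv.mulRight t⁻¹).summable_iff.2 (hv l)
  have hwra : ∀ l f y, ra (w l) f y = ra (v l) (el t * f) y := by
    intro l f y
    rw [interH_el]
    exact lin_congr fun g _ => hw l _
  have hCT : ∀ y, y ∈ assoc B t → y ∉ T := fun y hy => hT₂ y hy.1
  -- the difference of the two cuts is the part supported in the edge group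
  have hdiff : ∀ l (f : GR G) (y : G), ra (interH_cut T (v l)) (el t * f) y =
      ra (interH_cut T (w l)) f y + ra (interH_cut ((assoc B t : Subgroup G) : Set G) (w l)) f y := by
    intro l f y
    rw [interH_el, ← ra_add_left]
    refine lin_congr fun g _ => ?_
    show interH_cut T (v l) (y * g⁻¹ * t⁻¹) = interH_cut T (w l) (y * g⁻¹) +
      interH_cut ((assoc B t : Subgroup G) : Set G) (w l) (y * g⁻¹)
    have h3 := hT₃ (y * g⁻¹ * t⁻¹)
    rw [inv_mul_cancel_right] at h3
    by_cases hyT : y * g⁻¹ ∈ T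
    · have hyC : y * g⁻¹ ∉ ((assoc B t : Subgroup G) : Set G) := fun h4 => hCT _ h4 hyT
      rw [interH_pos (h3.2 (Or.inl hyT)), interH_pos hyT, interH_neg hyC, add_zero, hw]
    · by_cases hyC : y * g⁻¹ ∈ ((assoc B t : Subgroup G) : Set G)
      · rw [interH_pos (h3.2 (Or.inr hyC)), interH_neg hyT, interH_pos hyC, zero_add, hw]
      · have hyS : y * g⁻¹ * t⁻¹ ∉ T := fun h4 => (h3.1 h4).elim hyT hyC
        rw [interH_neg hyS, interH_neg hyT, interH_neg hyC, zero_add]
  -- the columns of the elements `a`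
  have hcol : ∀ i y, ∑ l, ra (interH_cut T (v l)) (el t * JA l i) y +
      ∑ l, ra (interH_cut T (w l)) (- JA l i) y =
      ∑ l, ra (interH_cut ((assoc B t : Subgroup G) : Set G) (w l)) (JA l i) y := by
    intro i y
    simp only [ra_neg_right, hdiff, Finset.sum_neg_distrib, Finset.sum_add_distrib]
    ring
  have hct : ∀ l, InSub B (1 - el (t * c l * t⁻¹)) := by
    intro l
    rw [sub_eq_add_neg]
    exact inSub_add inSub_one (inSub_neg (inSub_el (hc l).2))
  have hrelax := relax (R := ρ ⊕ κ ⊕ κ) (S := N ⊕ Unit) p hres V hVi a hV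
    (Sum.elim z (fun _ => t))
    (Sum.elim (fun i => Sum.elim (fun ν => X i ν) (fun _ => 0))
      (Sum.elim (fun l => Sum.elim (fun ν => - Jt l ν) (fun _ => 1 - el (t * c l * t⁻¹)))
        (fun l => Sum.elim (fun ν => JB l ν) (fun _ => 0))))
    (Sum.elim (fun _ _ => 0)
      (Sum.elim (fun l i => el t * JA l i) (fun l i => - JA l i)))
    (by
      intro ℓ
      rcases ℓ with i | l | l
      · simp only [Sum.elim_inl, Sum.elim_inr, Fintype.sum_sum_type, zero_mul,
          Finset.sum_const_zero, add_zero]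
        exact hrel i
      · simp only [Sum.elim_inl, Sum.elim_inr, Fintype.sum_sum_type, neg_mul,
          Finset.sum_neg_distrib, Finset.univ_unique, Finset.sum_const, Finset.card_singleton,
          one_smul, mul_assoc]
        rw [← Finset.mul_sum, ← hJA l, ← hJt l]
        have e1 : (el (t * c l * t⁻¹) : GR G) * el t = el t * el (c l) := by
          rw [← el_mul, ← el_mul, inv_mul_cancel_right]
        have e2 : (1 - el (t * c l * t⁻¹)) * (el t - 1) =
            (el t : GR G) - 1 - el (t * c l * t⁻¹) * el t + el (t * c l * t⁻¹) := by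
          noncomm_ring
        rw [mul_assoc] at e1 e2
        rw [e2, e1]
        noncomm_ring
      · simp only [Sum.elim_inl, Sum.elim_inr, Fintype.sum_sum_type, zero_mul,
          Finset.sum_const_zero, add_zero, neg_mul, Finset.sum_neg_distrib]
        rw [← hJB l, ← hJA l, add_neg_cancel])
    (Sum.elim (fun i => interH_cut T (u i))
      (Sum.elim (fun l => interH_cut T (v l)) (fun l => interH_cut T (w l))))
    (by
      intro ℓ
      rcases ℓ with i | l | l
      · exact interH_sq _ _ (hu i)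
      · exact interH_sq _ _ (hv l)
      · exact interH_sq _ _ (hwS l))
    (by
      intro j y
      rcases j with ν | ν
      · simp only [Sum.elim_inl, Sum.elim_inr, Fintype.sum_sum_type, ra_neg_right,
          Finset.sum_neg_distrib]
        have e1 : ∀ i, ra (interH_cut T (u i)) (X i ν) y =
            interH_cut T (ra (u i) (X i ν)) y := fun i =>
          interH_ra B T hT₁ _ _ (hsupp i ν) y
        have e2 : ∀ l, ra (interH_cut T (v l)) (Jt l ν) y =
            interH_cut T (ra (v l) (Jt l ν)) y := fun l =>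
          interH_ra B T hT₁ _ _ (hst l ν) y
        have e3 : ∀ l, ra (interH_cut T (w l)) (JB l ν) y =
            interH_cut T (ra (w l) (JB l ν)) y := fun l =>
          interH_ra B T hT₁ _ _ (hsB l ν) y
        rw [Finset.sum_congr rfl fun i _ => e1 i, Finset.sum_congr rfl fun l _ => e2 l,
          Finset.sum_congr rfl fun l _ => e3 l]
        by_cases hy : y ∈ T
        · rw [Finset.sum_congr rfl fun i _ => interH_pos hy,
            Finset.sum_congr rfl fun l _ => interH_pos hy,
            Finset.sum_congr rfl fun l _ => interH_pos hy]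
          have e7 := h₁ ν y
          have e8 : ∀ l, ra (v l) (el t * JB l ν - Jt l ν) y =
              ra (w l) (JB l ν) y + - ra (v l) (Jt l ν) y := by
            intro l
            rw [sub_eq_add_neg, ra_add_right, ra_neg_right, hwra]
          rw [Finset.sum_congr rfl fun l _ => e8 l, Finset.sum_add_distrib,
            Finset.sum_neg_distrib] at e7
          linarith
        · rw [Finset.sum_eq_zero fun i _ => interH_neg hy,
            Finset.sum_eq_zero fun l _ => interH_neg hy,
            Finset.sum_eq_zero fun l _ => interH_neg hy, neg_zero, add_zero, add_zero]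
      · simp only [Sum.elim_inl, Sum.elim_inr, Fintype.sum_sum_type, ra_zero_right,
          Finset.sum_const_zero, zero_add, add_zero]
        have e2 : ∀ l, ra (interH_cut T (v l)) (1 - el (t * c l * t⁻¹)) y =
            interH_cut T (ra (v l) (1 - el (t * c l * t⁻¹))) y := fun l =>
          interH_ra B T hT₁ _ _ (hct l) y
        rw [Finset.sum_congr rfl fun l _ => e2 l]
        by_cases hy : y ∈ T
        · rw [Finset.sum_congr rfl fun l _ => interH_pos hy]
          exact h₂ y
        · exact Finset.sum_eq_zero fun l _ => interH_neg hy)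
    (by
      intro i y hy
      simp only [Sum.elim_inl, Sum.elim_inr, Fintype.sum_sum_type, ra_zero_right,
        Finset.sum_const_zero, zero_add]
      rw [hcol i y]
      refine Finset.sum_eq_zero fun l _ => ?_
      have h3 : ra (interH_cut ((assoc B t : Subgroup G) : Set G) (w l)) (JA l i) y =
          PAL.lin (fun _ : G => (0 : ℝ)) (JA l i) := by
        refine lin_congr fun g hg => ?_
        refine interH_neg fun h4 => hy ?_
        have h5 := V.mul_mem (hAV (hCA h4)) (hAV (hsA l i g hg))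
        rwa [inv_mul_cancel_right] at h5
      rw [h3, lin_zero])
  have hcon : ∀ i y,
      ∑ l, ra (interH_cut ((assoc B t : Subgroup G) : Set G) (w l)) (JA l i) y = 0 := by
    intro i y
    have h3 := hrelax i y
    simp only [Sum.elim_inl, Sum.elim_inr, Fintype.sum_sum_type, ra_zero_right,
      Finset.sum_const_zero, zero_add] at h3
    rw [hcol i y] at h3
    exact h3
  have hfin := supp_zero (assoc B t) c hc hfree a JA hJA
    (fun l => interH_cut ((assoc B t : Subgroup G) : Set G) (w l))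
    (fun l g hg => interH_neg hg) hcon
  intro l
  have h3 := congrFun (congrFun hfin l) 1
  have h4 : interH_cut ((assoc B t : Subgroup G) : Set G) (w l) 1 = v l t⁻¹ := by
    rw [interH_pos (assoc B t).one_mem, hw, one_mul]
  rw [← h4]
  exact h3

theorem interH {G ρ N κ σ : Type} [Group G] [Fintype ρ] [Fintype N] [Fintype κ] [DecidableEq κ]
    [Fintype σ] (p : ℕ) [Fact p.Prime] (hres : ResQ p G) (B A V : Subgroup G)
    (t : G) (hCA : assoc B t ≤ A) (hAV : A ≤ V) (hVi : V.FiniteIndex)
    (z : N → G) (X : ρ → N → GR G) (hrel : ∀ i, ∑ ν, X i ν * (el (z ν) - 1) = 0)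
    (hsupp : ∀ i ν, InSub B (X i ν))
    (a : σ → G) (hV : FLV p V a) (c : κ → G) (hc : ∀ l, c l ∈ assoc B t)
    (hfree : ∀ m : κ, ∃ D : assoc B t → GR (assoc B t),
      IsDer (MonoidHom.id (assoc B t)) D ∧ ∀ l, D ⟨c l, hc l⟩ = if l = m then 1 else 0)
    (JA : κ → σ → GR G) (hJA : ∀ l, Fund a (c l) (JA l)) (hsA : ∀ l i, InSub A (JA l i))
    (JB : κ → N → GR G) (hJB : ∀ l, Fund z (c l) (JB l)) (hsB : ∀ l ν, InSub B (JB l ν))
    (Jt : κ → N → GR G) (hJt : ∀ l, Fund z (t * c l * t⁻¹) (Jt l))
    (hst : ∀ l ν, InSub B (Jt l ν))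
    (T : Set G) (hT₁ : ∀ x b : G, b ∈ B → x ∈ T → x * b ∈ T) (hT₂ : ∀ x ∈ B, x ∉ T)
    (hT₃ : ∀ x : G, x ∈ T ↔ (x * t ∈ T ∨ x * t ∈ assoc B t))
    (u : ρ → G → ℝ) (v : κ → G → ℝ) (hu : ∀ i, Sq (u i)) (hv : ∀ l, Sq (v l))
    (h₁ : ∀ ν y, ∑ i, ra (u i) (X i ν) y + ∑ l, ra (v l) (el t * JB l ν - Jt l ν) y = 0)
    (h₂ : ∀ y, ∑ l, ra (v l) (1 - el (t * c l * t⁻¹)) y = 0) : v = 0 := by
  have hsq : ∀ (x : G) (f : G → ℝ), Sq f → Sq (fun y => f (x * y)) := fun x f hf =>
    (Equiv.mulLeft x).summable_iff.2 hf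
  funext l x
  have h3 := interH_one p hres B A V t hCA hAV hVi z X hrel hsupp a hV c hc hfree JA hJA hsA
    JB hJB hsB Jt hJt hst T hT₁ hT₂ hT₃ (fun i y => u i (x * t * y)) (fun l y => v l (x * t * y))
    (fun i => hsq (x * t) _ (hu i)) (fun i => hsq (x * t) _ (hv i))
    (fun ν y => by
      simp only [ra_trans]
      exact h₁ ν (x * t * y))
    (fun y => by
      simp only [ra_trans]
      exact h₂ (x * t * y)) l
  have h4 : v l (x * t * t⁻¹) = 0 := h3
  rw [mul_inv_cancel_right] at h4
  exact h4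

end PAN
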