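import Pool.Agent.PAN.Defs
import Pool.Agent.PAL.Glue

/-!
# PAN/TreeA (module PAN-TreeA): half trees of an amalgam

Let `e x = 1` if `x ∈ B ⊓ A` and `0` otherwise (in `ZMod 2`).  Universal property with
`Y = Equiv.Perm (G × ZMod 2)`: `a ∈ A` acts by `(x, ε) ↦ (x a⁻¹, ε)` and `b ∈ B` by
`(x, ε) ↦ (x b⁻¹, ε + e (x b⁻¹) + e x)`; they agree on `B ⊓ A`.  Let `F : H → Y`.  `(F h (x, ε)).1 = x h⁻¹` for all `h ∈ H`
(`H = B ⊔ A`, `amalgam_sup` in `PAL/Glue.lean`, induction over the closure; or uniqueness in the universal property with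
`Y = Equiv.Perm G`), so `F h⁻¹ (1, 0) = (h, q h)`, and `q (h a) = q h` for `a ∈ A`,
`q (h b) = q h + e (h b) + e h` for `b ∈ B`.  `T = {h ∈ H | q h = 1}`.
-/

set_option autoImplicit false

open PFC PAL PAM

namespace PAN

section

variable {G : Type} [Group G] (B A : Subgroup G)

open Classical in
private noncomputable def TreeA_e (x : G) : ZMod 2 := if x ∈ B ⊓ A then 1 else 0

private theorem TreeA_two (x : ZMod 2) : x + x = 0 := by
  revert x
  decide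

private theorem TreeA_e_mul (x c : G) (hc : c ∈ B ⊓ A) : TreeA_e B A (x * c⁻¹) = TreeA_e B A x := by
  unfold TreeA_e
  have h : x * c⁻¹ ∈ B ⊓ A ↔ x ∈ B ⊓ A := Subgroup.mul_mem_cancel_right _ (Subgroup.inv_mem _ hc)
  by_cases h1 : x ∈ B ⊓ A
  · rw [if_pos h1, if_pos (h.2 h1)]
  · rw [if_neg h1, if_neg (fun h2 => h1 (h.1 h2))]

private def TreeA_al : A →* Equiv.Perm (G × ZMod 2) where
  toFun a :=
    { toFun := fun z => (z.1 * (a : G)⁻¹, z.2)
      invFun := fun z => (z.1 * (a : G), z.2)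
      left_inv := fun z => by simp
      right_inv := fun z => by simp }
  map_one' := by
    ext z <;> simp
  map_mul' a b := by
    ext z
    · simp [mul_assoc]
    · simp

private noncomputable def TreeA_be : B →* Equiv.Perm (G × ZMod 2) where
  toFun b :=
    { toFun := fun z => (z.1 * (b : G)⁻¹, z.2 + (TreeA_e B A (z.1 * (b : G)⁻¹) + TreeA_e B A z.1))
      invFun := fun z => (z.1 * (b : G), z.2 + (TreeA_e B A (z.1 * (b : G)) + TreeA_e B A z.1))
      left_inv := fun z => by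
        have h1 : z.1 * (b : G)⁻¹ * (b : G) = z.1 := inv_mul_cancel_right _ _
        refine Prod.ext h1 ?_
        show z.2 + (TreeA_e B A (z.1 * (b : G)⁻¹) + TreeA_e B A z.1) +
          (TreeA_e B A (z.1 * (b : G)⁻¹ * (b : G)) + TreeA_e B A (z.1 * (b : G)⁻¹)) = z.2
        rw [h1]
        have h2 := TreeA_two (TreeA_e B A (z.1 * (b : G)⁻¹) + TreeA_e B A z.1)
        linear_combination h2
      right_inv := fun z => by
        have h1 : z.1 * (b : G) * (b : G)⁻¹ = z.1 := mul_inv_cancel_right _ _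
        refine Prod.ext h1 ?_
        show z.2 + (TreeA_e B A (z.1 * (b : G)) + TreeA_e B A z.1) +
          (TreeA_e B A (z.1 * (b : G) * (b : G)⁻¹) + TreeA_e B A (z.1 * (b : G))) = z.2
        rw [h1]
        have h2 := TreeA_two (TreeA_e B A (z.1 * (b : G)) + TreeA_e B A z.1)
        linear_combination h2 }
  map_one' := by
    refine Equiv.ext fun z => Prod.ext ?_ ?_
    · show z.1 * ((1 : B) : G)⁻¹ = z.1
      rw [Subgroup.coe_one, inv_one, mul_one]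
    · show z.2 + (TreeA_e B A (z.1 * ((1 : B) : G)⁻¹) + TreeA_e B A z.1) = z.2
      rw [Subgroup.coe_one, inv_one, mul_one, TreeA_two, add_zero]
  map_mul' a b := by
    have h0 : ∀ z : G × ZMod 2, z.1 * ((a * b : B) : G)⁻¹ = z.1 * (b : G)⁻¹ * (a : G)⁻¹ := by
      intro z
      rw [Subgroup.coe_mul, mul_inv_rev, mul_assoc]
    refine Equiv.ext fun z => Prod.ext ?_ ?_
    · show z.1 * ((a * b : B) : G)⁻¹ = z.1 * (b : G)⁻¹ * (a : G)⁻¹
      exact h0 z
    · show z.2 + (TreeA_e B A (z.1 * ((a * b : B) : G)⁻¹) + TreeA_e B A z.1) =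
        z.2 + (TreeA_e B A (z.1 * (b : G)⁻¹) + TreeA_e B A z.1) +
          (TreeA_e B A (z.1 * (b : G)⁻¹ * (a : G)⁻¹) + TreeA_e B A (z.1 * (b : G)⁻¹))
      rw [h0 z]
      have h2 := TreeA_two (TreeA_e B A (z.1 * (b : G)⁻¹))
      linear_combination -h2

private theorem TreeA_al_apply (a : A) (z : G × ZMod 2) : TreeA_al A a z = (z.1 * (a : G)⁻¹, z.2) := rfl

private theorem TreeA_be_apply (b : B) (z : G × ZMod 2) :
    TreeA_be B A b z = (z.1 * (b : G)⁻¹, z.2 + (TreeA_e B A (z.1 * (b : G)⁻¹) + TreeA_e B A z.1)) := rfl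

private theorem TreeA_fst {H : Subgroup G} (hsup : B ⊔ A = H) (F : H →* Equiv.Perm (G × ZMod 2))
    (hB : ∀ (x : G) (hx : x ∈ B) (hH : x ∈ H), F ⟨x, hH⟩ = TreeA_be B A ⟨x, hx⟩)
    (hA : ∀ (x : G) (hx : x ∈ A) (hH : x ∈ H), F ⟨x, hH⟩ = TreeA_al A ⟨x, hx⟩) (h : H) (z : G × ZMod 2) :
    (F h z).1 = z.1 * (h : G)⁻¹ := by
  let K : Subgroup H :=
    { carrier := {h | ∀ z : G × ZMod 2, (F h z).1 = z.1 * (h : G)⁻¹}
      mul_mem' := by
        intro a b ha hb z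
        rw [map_mul, Equiv.Perm.mul_apply, ha, hb, Subgroup.coe_mul, mul_inv_rev, mul_assoc]
      one_mem' := by
        intro z
        rw [map_one, Equiv.Perm.one_apply, Subgroup.coe_one, inv_one, mul_one]
      inv_mem' := by
        intro a ha z
        have h1 := ha (F a⁻¹ z)
        have h2 : F a (F a⁻¹ z) = z := by
          rw [← Equiv.Perm.mul_apply, ← map_mul, mul_inv_cancel, map_one, Equiv.Perm.one_apply]
        rw [h2] at h1
        rw [Subgroup.coe_inv, inv_inv, h1, inv_mul_cancel_right] }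
  have hBK : B ≤ K.map H.subtype := by
    intro x hx
    have hH : x ∈ H := hsup ▸ (le_sup_left : B ≤ B ⊔ A) hx
    refine ⟨⟨x, hH⟩, ?_, rfl⟩
    intro z
    rw [hB x hx hH, TreeA_be_apply]
  have hAK : A ≤ K.map H.subtype := by
    intro x hx
    have hH : x ∈ H := hsup ▸ (le_sup_right : A ≤ B ⊔ A) hx
    refine ⟨⟨x, hH⟩, ?_, rfl⟩
    intro z
    rw [hA x hx hH, TreeA_al_apply]
  have hHK : (h : G) ∈ K.map H.subtype := by
    have h1 : B ⊔ A ≤ K.map H.subtype := sup_le hBK hAK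
    exact h1 (hsup.symm ▸ h.2)
  obtain ⟨k, hk, hkh⟩ := hHK
  have h2 : k = h := Subtype.ext hkh
  rw [h2] at hk
  exact hk z

end

theorem tree_amalg {G : Type} [Group G] (H B A : Subgroup G) (hH : PAL.IsAmalgam H B A) :
    ∃ T : Set G,
      (∀ x b : G, b ∈ B → (x ∈ T ∨ x ∈ B ⊓ A) → (x * b ∈ T ∨ x * b ∈ B ⊓ A)) ∧
      (∀ x a : G, a ∈ A → x ∈ T → x * a ∈ T) ∧ ∀ x ∈ A, x ∉ T := by
  have hsup := PAL.amalgam_sup H B A hH
  obtain ⟨hBH, hAH, univ⟩ := hH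
  obtain ⟨F, ⟨hF1, hF2⟩, -⟩ := univ (Equiv.Perm (G × ZMod 2)) (TreeA_be B A) (TreeA_al A) (by
    intro x hB hA
    refine Equiv.ext fun z => ?_
    rw [TreeA_be_apply, TreeA_al_apply]
    refine Prod.ext rfl ?_
    show z.2 + (TreeA_e B A (z.1 * x⁻¹) + TreeA_e B A z.1) = z.2
    rw [TreeA_e_mul B A z.1 x ⟨hB, hA⟩, TreeA_two, add_zero])
  have hfst := TreeA_fst B A hsup F hF1 hF2
  -- the cocycle
  let q : H → ZMod 2 := fun h => (F h⁻¹ (1, 0)).2
  have hpair : ∀ h : H, F h⁻¹ (1, 0) = ((h : G), q h) := by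
    intro h
    refine Prod.ext ?_ rfl
    rw [hfst, Subgroup.coe_inv, inv_inv]
    exact one_mul _
  have hqA : ∀ (h : H) (a : G) (ha : a ∈ A) (haH : a ∈ H), q (h * ⟨a, haH⟩) = q h := by
    intro h a ha haH
    have h1 : F (h * ⟨a, haH⟩)⁻¹ (1, 0) = F (⟨a, haH⟩ : H)⁻¹ (F h⁻¹ (1, 0)) := by
      rw [mul_inv_rev, map_mul, Equiv.Perm.mul_apply]
    have h2 : F (⟨a, haH⟩ : H)⁻¹ = TreeA_al A (⟨a, ha⟩ : A)⁻¹ := by
      rw [map_inv, map_inv, hF2 a ha haH]
    show (F (h * ⟨a, haH⟩)⁻¹ (1, 0)).2 = q h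
    rw [h1, h2, hpair, TreeA_al_apply]
  have hqB : ∀ (h : H) (b : G) (hb : b ∈ B) (hbH : b ∈ H),
      q (h * ⟨b, hbH⟩) = q h + (TreeA_e B A ((h : G) * b) + TreeA_e B A (h : G)) := by
    intro h b hb hbH
    have h1 : F (h * ⟨b, hbH⟩)⁻¹ (1, 0) = F (⟨b, hbH⟩ : H)⁻¹ (F h⁻¹ (1, 0)) := by
      rw [mul_inv_rev, map_mul, Equiv.Perm.mul_apply]
    have h2 : F (⟨b, hbH⟩ : H)⁻¹ = TreeA_be B A (⟨b, hb⟩ : B)⁻¹ := by
      rw [map_inv, map_inv, hF1 b hb hbH]
    show (F (h * ⟨b, hbH⟩)⁻¹ (1, 0)).2 = _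
    rw [h1, h2, hpair, TreeA_be_apply]
    show q h + (TreeA_e B A ((h : G) * (((⟨b, hb⟩ : B)⁻¹ : B) : G)⁻¹) + TreeA_e B A (h : G)) = _
    rw [Subgroup.coe_inv, inv_inv]
  have hq1 : q 1 = 0 := by
    show (F (1 : H)⁻¹ (1, 0)).2 = 0
    rw [inv_one, map_one, Equiv.Perm.one_apply]
  have hqA0 : ∀ (a : G) (ha : a ∈ A) (haH : a ∈ H), q ⟨a, haH⟩ = 0 := by
    intro a ha haH
    have h1 := hqA 1 a ha haH
    rw [one_mul, hq1] at h1
    exact h1
  have hZ : ∀ x : ZMod 2, x ≠ 1 → x = 0 := by decide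
  refine ⟨{x | ∃ hx : x ∈ H, q ⟨x, hx⟩ = 1}, ?_, ?_, ?_⟩
  · intro x b hb hx
    have hbH : b ∈ H := hBH hb
    have hxH : x ∈ H := by
      rcases hx with ⟨h, -⟩ | h
      · exact h
      · exact hBH h.1
    have h1 : q ⟨x, hxH⟩ + TreeA_e B A x = 1 := by
      by_cases hc : x ∈ B ⊓ A
      · rw [hqA0 x hc.2 hxH]
        unfold TreeA_e
        rw [if_pos hc, zero_add]
      · rcases hx with ⟨h, h2⟩ | h
        · unfold TreeA_e
          rw [if_neg hc, add_zero]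
          exact h2
        · exact absurd h hc
    have h2 := hqB ⟨x, hxH⟩ b hb hbH
    have h3 : q (⟨x, hxH⟩ * ⟨b, hbH⟩) + TreeA_e B A (x * b) = 1 := by
      have h4 : q (⟨x, hxH⟩ * ⟨b, hbH⟩) = q ⟨x, hxH⟩ + (TreeA_e B A (x * b) + TreeA_e B A x) := h2
      have h5 := TreeA_two (TreeA_e B A (x * b))
      rw [h4]
      linear_combination h1 + h5
    by_cases hc : x * b ∈ B ⊓ A
    · exact Or.inr hc
    · left
      refine ⟨H.mul_mem hxH hbH, ?_⟩
      unfold TreeA_e at h3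
      rw [if_neg hc, add_zero] at h3
      exact h3
  · rintro x a ha ⟨hx, hq⟩
    have haH : a ∈ H := hAH ha
    refine ⟨H.mul_mem hx haH, ?_⟩
    have h1 := hqA ⟨x, hx⟩ a ha haH
    rw [hq] at h1
    exact h1
  · rintro x hx ⟨hxH, hq⟩
    rw [hqA0 x hx hxH] at hq
    exact absurd hq (by decide)

end PAN
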