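import Pool.Agent.PAN.InterA
import Pool.Agent.PAN.TreeA
import Pool.Agent.PAL.CBas
import Pool.Agent.PAL.Trans

/-!
# PAN/PdA (module PAN-PdA): relation rows of an amalgam, edge group in an embedded subgroup

As in `PAL/Inert.lean` and `PAM/Amalg.lean`.  Take a basis `c : κ → G` of `C = B₁ ⊓ B₂` (a subgroup of the free group
`A = closure a`, `exists_basis`), Fox derivatives `J₁`, `J₂` of the `c l` with respect to the generators of `B₁` and of `B₂`,
and `JA` with respect to `a` (`exists_fund`).  For every finite set of indices `κ'` (`dual_der`) the matrix with rows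
`(X₁, 0)`, `(J₁, - J₂)`, `(0, X₂)` is injective on square summable vectors: `interA` (with `T` from `tree_amalg H B₁ B₂`) gives
`v = 0`, then the `inj` of the two `PD`.  By `exists_kernel` `ρ + card κ' + ρ' ≤ N + N'`, so `κ` is finite; reindex by
`Fin t` and build `PD H` as in `PAM/Amalg.lean` (`hasPD_of`).
-/

set_option autoImplicit false

open PFC PAL PAM

namespace PAN

private theorem PdA_mono {G : Type} [Group G] {K L : Subgroup G} (hKL : K ≤ L) {f : GR G}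
    (hf : InSub K f) : InSub L f := fun g hg => hKL (hf g hg)

private theorem PdA_free {G : Type} [Group G] {s : ℕ} (A : Subgroup G) (a : Fin s → G)
    (hacl : Subgroup.closure (Set.range a) = A)
    (hainj : Function.Injective (FreeGroup.lift a)) : IsFreeGroup A := by
  have h1 : (FreeGroup.lift a).range = A := by
    rw [FreeGroup.range_lift_eq_closure, hacl]
  have e : FreeGroup (Fin s) ≃* A :=
    (MonoidHom.ofInjective hainj).trans (MulEquiv.subgroupCongr h1)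
  exact IsFreeGroup.ofMulEquiv e

private theorem PdA_freeC {G : Type} [Group G] (C A : Subgroup G) (hCA : C ≤ A)
    (hA : IsFreeGroup A) : IsFreeGroup C := by
  have h1 : IsFreeGroup (C.subgroupOf A) := inferInstance
  exact IsFreeGroup.ofMulEquiv (Subgroup.subgroupOfEquivOfLe hCA)

private theorem PdA_lift {G κ : Type} [Group G] {t : ℕ} (c : κ → G) (e : Fin t ≃ κ)
    (h : Function.Injective (FreeGroup.lift c)) :
    Function.Injective (FreeGroup.lift fun i => c (e i)) := by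
  have h1 : FreeGroup.lift (fun i => c (e i)) =
      (FreeGroup.lift c).comp (FreeGroup.freeGroupCongr e).toMonoidHom := by
    apply FreeGroup.ext_hom
    intro i
    simp
  rw [h1]
  exact h.comp (FreeGroup.freeGroupCongr e).injective

/-- the matrix of the amalgam -/
private noncomputable def PdA_Y {G ρ N ρ' N' κ : Type} [Group G] (X : ρ → N → GR G)
    (X' : ρ' → N' → GR G) (J₁ : κ → N → GR G) (J₂ : κ → N' → GR G) :
    (ρ ⊕ κ) ⊕ ρ' → N ⊕ N' → GR G :=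
  Sum.elim (Sum.elim (fun i => Sum.elim (X i) fun _ => 0)
    fun l => Sum.elim (J₁ l) fun ν => - J₂ l ν) fun i => Sum.elim (fun _ => 0) (X' i)

private theorem PdA_inj {G κ : Type} [Group G] [Fintype κ] [DecidableEq κ] (p : ℕ) [Fact p.Prime]
    (hres : ResQ p G) (B₁ B₂ A V : Subgroup G) {N ρ N' ρ' : ℕ} (z : Fin N → G)
    (X : Fin ρ → Fin N → GR G) (hz : PD B₁ z X) (z' : Fin N' → G) (X' : Fin ρ' → Fin N' → GR G)
    (hz' : PD B₂ z' X')
    (hCA : B₁ ⊓ B₂ ≤ A) (hAV : A ≤ V) (hVi : V.FiniteIndex) {s : ℕ}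
    (a : Fin s → G) (hV : FLV p V a) (c : κ → G) (hc : ∀ l, c l ∈ B₁ ⊓ B₂)
    (hfree : ∀ m : κ, ∃ D : (B₁ ⊓ B₂ : Subgroup G) → GR (B₁ ⊓ B₂ : Subgroup G),
      IsDer (MonoidHom.id (B₁ ⊓ B₂ : Subgroup G)) D ∧ ∀ l, D ⟨c l, hc l⟩ = if l = m then 1 else 0)
    (J₁ : κ → Fin N → GR G) (hJ₁ : ∀ l, Fund z (c l) (J₁ l)) (hs₁ : ∀ l ν, InSub B₁ (J₁ l ν))
    (J₂ : κ → Fin N' → GR G) (hJ₂ : ∀ l, Fund z' (c l) (J₂ l)) (hs₂ : ∀ l ν, InSub B₂ (J₂ l ν))
    (JA : κ → Fin s → GR G) (hJA : ∀ l, Fund a (c l) (JA l)) (hsA : ∀ l i, InSub A (JA l i))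
    (T : Set G)
    (hT₁ : ∀ x b : G, b ∈ B₁ → (x ∈ T ∨ x ∈ B₁ ⊓ B₂) → (x * b ∈ T ∨ x * b ∈ B₁ ⊓ B₂))
    (hT₂ : ∀ x b : G, b ∈ B₂ → x ∈ T → x * b ∈ T) (hT₃ : ∀ x ∈ B₂, x ∉ T)
    (v : (Fin ρ ⊕ κ) ⊕ Fin ρ' → G → ℝ) (hv : ∀ i, Sq (v i))
    (h0 : ∀ ν y, ∑ i, ra (v i) (PdA_Y X X' J₁ J₂ i ν) y = 0) :
    v = 0 := by
  have e1 : ∀ ν y, ∑ i, ra (v (Sum.inl (Sum.inl i))) (X i ν) y +
      ∑ l, ra (v (Sum.inl (Sum.inr l))) (J₁ l ν) y = 0 := by
    intro ν y
    have h2 := h0 (Sum.inl ν) y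
    rw [Fintype.sum_sum_type, Fintype.sum_sum_type] at h2
    have h3 : ∑ i, ra (v (Sum.inr i)) (PdA_Y X X' J₁ J₂
        (Sum.inr i) (Sum.inl ν)) y = 0 := Finset.sum_eq_zero fun i _ => ra_zero_right _ _
    rw [h3, add_zero] at h2
    exact h2
  have e2 : ∀ ν y, ∑ i, ra (v (Sum.inr i)) (X' i ν) y =
      ∑ l, ra (v (Sum.inl (Sum.inr l))) (J₂ l ν) y := by
    intro ν y
    have h2 := h0 (Sum.inr ν) y
    rw [Fintype.sum_sum_type, Fintype.sum_sum_type] at h2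
    have h3 : ∑ i, ra (v (Sum.inl (Sum.inl i))) (PdA_Y X X' J₁ J₂
        (Sum.inl (Sum.inl i)) (Sum.inr ν)) y = 0 :=
      Finset.sum_eq_zero fun i _ => ra_zero_right _ _
    have h4 : ∑ l, ra (v (Sum.inl (Sum.inr l))) (PdA_Y X X' J₁ J₂
        (Sum.inl (Sum.inr l)) (Sum.inr ν)) y =
        - ∑ l, ra (v (Sum.inl (Sum.inr l))) (J₂ l ν) y := by
      rw [← Finset.sum_neg_distrib]
      exact Finset.sum_congr rfl fun l _ => ra_neg_right _ _ _
    rw [h3, zero_add, h4] at h2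
    have h5 : ∑ i, ra (v (Sum.inr i)) (PdA_Y X X' J₁ J₂
        (Sum.inr i) (Sum.inr ν)) y = ∑ i, ra (v (Sum.inr i)) (X' i ν) y := rfl
    rw [h5] at h2
    linarith
  have h1 := interA p hres B₁ B₂ A V hCA hAV hVi z X hz.rel hz.supp z' X' hz'.rel hz'.supp
    a hV c hc hfree J₁ hJ₁ hs₁ J₂ hJ₂ hs₂ JA hJA hsA T hT₁ hT₂ hT₃
    (fun i => v (Sum.inl (Sum.inl i))) (fun i => v (Sum.inr i)) (fun l => v (Sum.inl (Sum.inr l)))
    (fun _ => hv _) (fun _ => hv _) (fun _ => hv _) e1 e2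
  have h2 : ∀ l, v (Sum.inl (Sum.inr l)) = 0 := fun l => congrFun h1 l
  have h3 : (fun i => v (Sum.inl (Sum.inl i))) = 0 := by
    refine hz.inj _ (fun i => hv _) fun ν y => ?_
    have h4 := e1 ν y
    have h5 : ∑ l, ra (v (Sum.inl (Sum.inr l))) (J₁ l ν) y = 0 := by
      refine Finset.sum_eq_zero fun l _ => ?_
      rw [h2 l]
      exact ra_zero_left _ _
    rw [h5, add_zero] at h4
    exact h4
  have h4 : (fun i => v (Sum.inr i)) = 0 := by
    refine hz'.inj _ (fun i => hv _) fun ν y => ?_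
    have h4 := e2 ν y
    have h5 : ∑ l, ra (v (Sum.inl (Sum.inr l))) (J₂ l ν) y = 0 := by
      refine Finset.sum_eq_zero fun l _ => ?_
      rw [h2 l]
      exact ra_zero_left _ _
    rw [h5] at h4
    exact h4
  funext i
  rcases i with (i | l) | i
  · exact congrFun h3 i
  · exact h2 l
  · exact congrFun h4 i

theorem pd_amalgE {G : Type} [Group G] (p : ℕ) [Fact p.Prime] (hres : ResQ p G)
    (H B₁ B₂ A V : Subgroup G) {N ρ N' ρ' : ℕ} (h₁ : HasPD B₁ N ρ) (h₂ : HasPD B₂ N' ρ')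
    (hCA : B₁ ⊓ B₂ ≤ A) (hAV : A ≤ V) (hVi : V.FiniteIndex) {s : ℕ}
    (a : Fin s → G) (hacl : Subgroup.closure (Set.range a) = A)
    (hainj : Function.Injective (FreeGroup.lift a)) (hV : FLV p V a)
    (hH : PAL.IsAmalgam H B₁ B₂) :
    ∃ (t : ℕ) (c : Fin t → G), Subgroup.closure (Set.range c) = B₁ ⊓ B₂ ∧
      Function.Injective (FreeGroup.lift c) ∧ HasPD H (N + N') (ρ + t + ρ') := by
  classical
  obtain ⟨z, X, hz⟩ := h₁
  obtain ⟨z', X', hz'⟩ := h₂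
  have hA : IsFreeGroup A := PdA_free A a hacl hainj
  obtain ⟨κ, c, hccl, hcinj⟩ := exists_basis (B₁ ⊓ B₂) (PdA_freeC (B₁ ⊓ B₂) A hCA hA)
  have hc : ∀ l, c l ∈ B₁ ⊓ B₂ := by
    intro l
    rw [← hccl]
    exact Subgroup.subset_closure ⟨l, rfl⟩
  choose J₁ hJ₁ hs₁ using fun l => exists_fund z B₁ hz.gen (c l) (hc l).1
  choose JA hJA hsA using fun l => exists_fund a A hacl (c l) (hCA (hc l))
  choose J₂ hJ₂ hs₂ using fun l => exists_fund z' B₂ hz'.gen (c l) (hc l).2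
  obtain ⟨T, hT₁, hT₂, hT₃⟩ := tree_amalg H B₁ B₂ hH
  have hfree : ∀ (κ' : Type) [Fintype κ'] [DecidableEq κ'] (j : κ' → κ), Function.Injective j →
      ∀ m : κ', ∃ D : (B₁ ⊓ B₂ : Subgroup G) → GR (B₁ ⊓ B₂ : Subgroup G),
        IsDer (MonoidHom.id (B₁ ⊓ B₂ : Subgroup G)) D ∧
        ∀ l, D ⟨c (j l), hc (j l)⟩ = if l = m then 1 else 0 := by
    intro κ' _ _ j hj m
    obtain ⟨D, hD, hD2⟩ := dual_der (B₁ ⊓ B₂) c hccl hcinj (j m)
    refine ⟨D, hD, fun l => ?_⟩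
    rw [hD2 (j l) (hc (j l))]
    by_cases hl : l = m
    · rw [if_pos hl, if_pos (congrArg j hl)]
    · rw [if_neg hl, if_neg fun h => hl (hj h)]
  have key : ∀ (κ' : Type) [Fintype κ'] [DecidableEq κ'] (j : κ' → κ), Function.Injective j →
      ∀ v : (Fin ρ ⊕ κ') ⊕ Fin ρ' → G → ℝ, (∀ i, Sq (v i)) →
        (∀ ν y, ∑ i, ra (v i) (PdA_Y X X' (fun l => J₁ (j l))
          (fun l => J₂ (j l)) i ν) y = 0) → v = 0 := by
    intro κ' _ _ j hj
    exact PdA_inj p hres B₁ B₂ A V z X hz z' X' hz' hCA hAV hVi a hV (fun l => c (j l))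
      (fun l => hc (j l)) (hfree κ' j hj) (fun l => J₁ (j l)) (fun l => hJ₁ (j l))
      (fun l => hs₁ (j l)) (fun l => J₂ (j l)) (fun l => hJ₂ (j l)) (fun l => hs₂ (j l))
      (fun l => JA (j l)) (fun l => hJA (j l)) (fun l => hsA (j l)) T hT₁ hT₂ hT₃
  have hcard : ∀ (κ' : Type) [Fintype κ'] [DecidableEq κ'] (j : κ' → κ), Function.Injective j →
      Fintype.card κ' ≤ N + N' := by
    intro κ' _ _ j hj
    by_contra hlt
    have h1 : Fintype.card (Fin N ⊕ Fin N') < Fintype.card ((Fin ρ ⊕ κ') ⊕ Fin ρ') := by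
      simp only [Fintype.card_sum, Fintype.card_fin]
      omega
    obtain ⟨v, hv0, hv, h0⟩ := exists_kernel p hres (PdA_Y X X' (fun l => J₁ (j l))
      (fun l => J₂ (j l))) h1
    exact hv0 (key κ' j hj v hv h0)
  have hfin : Finite κ := by
    by_contra hinf
    rw [not_finite_iff_infinite] at hinf
    obtain ⟨F, hF⟩ := Infinite.exists_subset_card_eq κ (N + N' + 1)
    have h1 := hcard F (fun l => l.1) Subtype.val_injective
    rw [Fintype.card_coe, hF] at h1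
    omega
  have := Fintype.ofFinite κ
  obtain ⟨t, e⟩ : ∃ t : ℕ, Nonempty (Fin t ≃ κ) :=
    ⟨Fintype.card κ, ⟨(Fintype.equivFin κ).symm⟩⟩
  obtain ⟨e⟩ := e
  refine ⟨t, fun l => c (e l), ?_, PdA_lift c e hcinj, ?_⟩
  · rw [← hccl]
    congr 1
    exact e.surjective.range_comp c
  have hsup : B₁ ⊔ B₂ = H := amalgam_sup H B₁ B₂ hH
  have hBH : B₁ ≤ H := hH.1
  have hAH : B₂ ≤ H := hH.2.1
  have key2 : PD H (Sum.elim z z') (PdA_Y X X' (fun l => J₁ (e l))
      (fun l => J₂ (e l))) := by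
    refine ⟨?_, ?_, ?_, key (Fin t) e e.injective⟩
    · rw [Set.Sum.elim_range, Subgroup.closure_union, hz.gen, hz'.gen, hsup]
    · rintro ((i | l) | i)
      · rw [Fintype.sum_sum_type]
        show ∑ ν, X i ν * (el (z ν) - 1) + ∑ ν : Fin N', (0 : GR G) * (el (z' ν) - 1) = 0
        rw [hz.rel i]
        simp
      · rw [Fintype.sum_sum_type]
        show ∑ ν, J₁ (e l) ν * (el (z ν) - 1) +
          ∑ ν : Fin N', (- J₂ (e l) ν) * (el (z' ν) - 1) = 0
        have h1 : el (c (e l)) - 1 = ∑ ν, J₁ (e l) ν * (el (z ν) - 1) := hJ₁ (e l)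
        have h2 : el (c (e l)) - 1 = ∑ ν, J₂ (e l) ν * (el (z' ν) - 1) := hJ₂ (e l)
        simp only [neg_mul, Finset.sum_neg_distrib]
        rw [← h1, ← h2, add_neg_cancel]
      · rw [Fintype.sum_sum_type]
        show ∑ ν : Fin N, (0 : GR G) * (el (z ν) - 1) + ∑ ν, X' i ν * (el (z' ν) - 1) = 0
        rw [hz'.rel i]
        simp
    · rintro ((i | l) | i) (ν | ν)
      · exact PdA_mono hBH (hz.supp i ν)
      · exact inSub_zero H
      · exact PdA_mono hBH (hs₁ (e l) ν)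
      · exact PdA_mono hAH (inSub_neg (hs₂ (e l) ν))
      · exact inSub_zero H
      · exact PdA_mono hAH (hz'.supp i ν)
  have h1 := hasPD_of H _ _ key2
  simpa only [Fintype.card_sum, Fintype.card_fin] using h1

end PAN
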