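import Pool.Agent.PAN.Defs

/-!
# PAN/TreeH (module PAN-TreeH): half trees of an HNN extension

Let `e x = 1` if `x ∈ assoc B t` and `0` otherwise (in `ZMod 2`).  The universal property is used with the
group `Ycov` of all pairs `(p, g)`, `p` a permutation of `G × ZMod 2` and `g ∈ G` with `(p z).1 = z.1 g⁻¹`:
`b ∈ B` acts by `(x, ε) ↦ (x b⁻¹, ε)` and `t` acts by `(x, ε) ↦ (x t⁻¹, ε + e x)`.  For the resulting
homomorphism `F` we have `F h⁻¹ (1, 0) = (h, q h)` with `q (h b) = q h` for `b ∈ B` and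
`q (h t) = q h + e (h t)`, and the half tree is `T = {h ∈ H | q h = 1}`.
-/

set_option autoImplicit false

open PFC PAL PAM

namespace PAN

/-- pairs of a permutation of `G × ZMod 2` and the right translation of `G` which it covers -/
private def TreeH_cov (G : Type) [Group G] : Subgroup (Equiv.Perm (G × ZMod 2) × G) where
  carrier := {z | ∀ p : G × ZMod 2, (z.1 p).1 = p.1 * z.2⁻¹}
  mul_mem' := by
    intro z w hz hw p
    show (z.1 (w.1 p)).1 = p.1 * (z.2 * w.2)⁻¹
    rw [hz (w.1 p), hw p, mul_inv_rev, mul_assoc]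
  one_mem' := by
    intro p
    show p.1 = p.1 * (1 : G)⁻¹
    rw [inv_one, mul_one]
  inv_mem' := by
    intro z hz p
    show (z.1⁻¹ p).1 = p.1 * (z.2⁻¹)⁻¹
    have h1 := hz (z.1⁻¹ p)
    have h2 : z.1 (z.1⁻¹ p) = p := z.1.apply_symm_apply p
    rw [h2] at h1
    rw [h1, inv_inv, inv_mul_cancel_right]

private theorem TreeH_two (a b : ZMod 2) : a + b + b = a := by
  revert a b
  decide

private def TreeH_f {G : Type} [Group G] (b : G) : Equiv.Perm (G × ZMod 2) where
  toFun p := (p.1 * b⁻¹, p.2)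
  invFun p := (p.1 * b, p.2)
  left_inv p := by
    ext
    · show p.1 * b⁻¹ * b = p.1
      rw [inv_mul_cancel_right]
    · rfl
  right_inv p := by
    ext
    · show p.1 * b * b⁻¹ = p.1
      rw [mul_inv_cancel_right]
    · rfl

private def TreeH_y {G : Type} [Group G] (t : G) (e : G → ZMod 2) :
    Equiv.Perm (G × ZMod 2) where
  toFun p := (p.1 * t⁻¹, p.2 + e p.1)
  invFun p := (p.1 * t, p.2 + e (p.1 * t))
  left_inv p := by
    ext
    · show p.1 * t⁻¹ * t = p.1
      rw [inv_mul_cancel_right]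
    · show p.2 + e p.1 + e (p.1 * t⁻¹ * t) = p.2
      rw [inv_mul_cancel_right, TreeH_two]
  right_inv p := by
    ext
    · show p.1 * t * t⁻¹ = p.1
      rw [mul_inv_cancel_right]
    · show p.2 + e (p.1 * t) + e (p.1 * t) = p.2
      rw [TreeH_two]

private theorem TreeH_rel {G : Type} [Group G] (t x : G) (e : G → ZMod 2)
    (he : ∀ g, e (g * x⁻¹) = e g) :
    TreeH_y t e * TreeH_f x * (TreeH_y t e)⁻¹ = TreeH_f (t * x * t⁻¹) := by
  rw [mul_inv_eq_iff_eq_mul]
  ext p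
  · show p.1 * x⁻¹ * t⁻¹ = p.1 * t⁻¹ * (t * x * t⁻¹)⁻¹
    group
  · show p.2 + e (p.1 * x⁻¹) = p.2 + e p.1
    rw [he]

theorem tree_hnn {G : Type} [Group G] (H B : Subgroup G) (t : G) (hH : IsHNNG H B t) :
    ∃ T : Set G, (∀ x b : G, b ∈ B → x ∈ T → x * b ∈ T) ∧ (∀ x ∈ B, x ∉ T) ∧
      ∀ x : G, x ∈ T ↔ (x * t ∈ T ∨ x * t ∈ assoc B t) := by
  classical
  obtain ⟨hB, ht, univ⟩ := hH
  let e : G → ZMod 2 := fun x => if x ∈ assoc B t then 1 else 0
  have he1 : ∀ x, x ∈ assoc B t → e x = 1 := fun x hx => if_pos hx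
  have he0 : ∀ x, x ∉ assoc B t → e x = 0 := fun x hx => if_neg hx
  have he : ∀ x, x ∈ assoc B t → ∀ g, e (g * x⁻¹) = e g := by
    intro x hx g
    by_cases hg : g ∈ assoc B t
    · rw [he1 g hg, he1 _ ((assoc B t).mul_mem hg ((assoc B t).inv_mem hx))]
    · rw [he0 g hg, he0]
      intro h
      apply hg
      have h1 := (assoc B t).mul_mem h hx
      rwa [inv_mul_cancel_right] at h1
  let f : B →* TreeH_cov G :=
    { toFun := fun b => ⟨(TreeH_f (b : G), (b : G)), fun p => rfl⟩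
      map_one' := by
        apply Subtype.ext
        apply Prod.ext
        · ext p
          · show p.1 * (1 : G)⁻¹ = p.1
            rw [inv_one, mul_one]
          · rfl
        · rfl
      map_mul' := by
        intro a b
        apply Subtype.ext
        apply Prod.ext
        · ext p
          · show p.1 * ((a : G) * (b : G))⁻¹ = p.1 * (b : G)⁻¹ * (a : G)⁻¹
            rw [mul_inv_rev, mul_assoc]
          · rfl
        · rfl }
  let y : TreeH_cov G := ⟨(TreeH_y t e, t), fun p => rfl⟩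
  obtain ⟨F, ⟨hF1, hF2⟩, -⟩ := univ (TreeH_cov G) f y (by
    intro x h h'
    apply Subtype.ext
    apply Prod.ext
    · exact TreeH_rel t x e (he x ⟨h, h'⟩)
    · rfl)
  obtain ⟨F', -, huniq⟩ := univ G B.subtype t (fun _ _ _ => rfl)
  have h1 : ((MonoidHom.snd (Equiv.Perm (G × ZMod 2)) G).comp (TreeH_cov G).subtype).comp F
      = F' := by
    apply huniq
    refine ⟨fun x hx hxH => ?_, fun h => ?_⟩
    · rw [MonoidHom.comp_apply, hF1 x hx hxH]; rfl
    · rw [MonoidHom.comp_apply, hF2 h]; rfl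
  have h2 : H.subtype = F' := by
    apply huniq
    exact ⟨fun x hx hxH => rfl, fun h => rfl⟩
  have h3 : ∀ h : H, (F h).1.2 = (h : G) := fun h =>
    DFunLike.congr_fun (h1.trans h2.symm) h
  -- the cocycle
  let q : H → ZMod 2 := fun h => ((F h⁻¹).1.1 (1, 0)).2
  have hq : ∀ h : H, (F h⁻¹).1.1 (1, 0) = ((h : G), q h) := by
    intro h
    apply Prod.ext
    · have h4 := (F h⁻¹).2 (1, 0)
      rw [h4, h3]
      show (1 : G) * ((h : G)⁻¹)⁻¹ = (h : G)
      rw [one_mul, inv_inv]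
    · rfl
  have hmul : ∀ a b : H, (F (a * b)⁻¹).1.1 (1, 0) = (F b⁻¹).1.1 ((a : G), q a) := by
    intro a b
    rw [mul_inv_rev, map_mul]
    show (F b⁻¹).1.1 ((F a⁻¹).1.1 (1, 0)) = _
    rw [hq a]
  have hqb : ∀ (a : H) (b : G) (hb : b ∈ B), q (a * ⟨b, hB hb⟩) = q a := by
    intro a b hb
    have h4 := hmul a ⟨b, hB hb⟩
    have h5 : F (⟨b, hB hb⟩ : H)⁻¹ = f ⟨b⁻¹, B.inv_mem hb⟩ :=
      hF1 b⁻¹ (B.inv_mem hb) (H.inv_mem (hB hb))
    rw [h5] at h4
    have h6 := congrArg Prod.snd h4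
    exact h6
  have hqt : ∀ a : H, q (a * ⟨t, ht⟩) = q a + e ((a : G) * t) := by
    intro a
    have h4 := hmul a ⟨t, ht⟩
    have h5 : F (⟨t, ht⟩ : H)⁻¹ = y⁻¹ := by rw [map_inv, hF2 ht]
    rw [h5] at h4
    exact congrArg Prod.snd h4
  have hq1 : q 1 = 0 := by
    show ((F (1 : H)⁻¹).1.1 (1, 0)).2 = 0
    rw [inv_one, map_one]
    rfl
  have hqB : ∀ (b : G) (hb : b ∈ B), q ⟨b, hB hb⟩ = 0 := by
    intro b hb
    have h4 := hqb 1 b hb
    rw [one_mul, hq1] at h4
    exact h4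
  refine ⟨{x | ∃ h : x ∈ H, q ⟨x, h⟩ = 1}, ?_, ?_, ?_⟩
  · rintro x b hb ⟨h, hx⟩
    refine ⟨H.mul_mem h (hB hb), ?_⟩
    have h4 := hqb ⟨x, h⟩ b hb
    rw [hx] at h4
    exact h4
  · rintro x hx ⟨h, hx'⟩
    have h4 := hqB x hx
    have h5 : (1 : ZMod 2) = 0 := hx'.symm.trans h4
    exact absurd h5 (by decide)
  · intro x
    constructor
    · rintro ⟨h, hx⟩
      by_cases hxt : x * t ∈ assoc B t
      · exact Or.inr hxt
      · left
        refine ⟨H.mul_mem h ht, ?_⟩
        have h4 := hqt ⟨x, h⟩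
        rw [hx] at h4
        have h5 : e (x * t) = 0 := he0 _ hxt
        have h6 : q ⟨x * t, H.mul_mem h ht⟩ = 1 + e (x * t) := h4
        rw [h6, h5, add_zero]
    · intro hx
      have hxH : x ∈ H := by
        have h4 : x * t ∈ H := by
          rcases hx with ⟨h, -⟩ | h
          · exact h
          · exact hB h.1
        have h5 := H.mul_mem h4 (H.inv_mem ht)
        rwa [mul_inv_cancel_right] at h5
      refine ⟨hxH, ?_⟩
      have h6 : q ⟨x * t, H.mul_mem hxH ht⟩ = q ⟨x, hxH⟩ + e (x * t) := hqt ⟨x, hxH⟩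
      by_cases hxt : x * t ∈ assoc B t
      · have h7 : q ⟨x * t, H.mul_mem hxH ht⟩ = 0 := hqB (x * t) hxt.1
        rw [h7, he1 _ hxt] at h6
        generalize q ⟨x, hxH⟩ = c at h6
        revert c
        decide
      · rcases hx with ⟨h, h7⟩ | h
        · rw [he0 _ hxt, add_zero] at h6
          exact h6.symm.trans h7
        · exact absurd h hxt

end PAN
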