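import Pool.Agent.PAN.InterH
import Pool.Agent.PAN.TreeH
import Pool.Agent.PAL.CBas
import Pool.Agent.PAL.Trans

/-!
# PAN/PdH (module PAN-PdH): relation rows of an HNN extension, edge group in an embedded subgroup

As in `PAM/GHnnA.lean`.  `JC l` are Fox derivatives of the `c l` with respect to the generators of `B`, `JA l` with respect to the
basis `a` of `A` (`exists_fund`).  Injectivity: `interH` (with `T` from `tree_hnn H B t`) gives `v = 0`, then the `inj` of
`PD B`.  Finiteness of the basis: `exists_kernel` for the columns `Fin N ⊕ Unit`.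
-/

set_option autoImplicit false

open PFC PAL PAM

namespace PAN

private theorem PdH_mono {G : Type} [Group G] {K L : Subgroup G} (hKL : K ≤ L) {f : GR G}
    (hf : InSub K f) : InSub L f := fun g hg => hKL (hf g hg)

private theorem PdH_free {G : Type} [Group G] {s : ℕ} (A : Subgroup G) (a : Fin s → G)
    (hacl : Subgroup.closure (Set.range a) = A)
    (hainj : Function.Injective (FreeGroup.lift a)) : IsFreeGroup A := by
  have h1 : (FreeGroup.lift a).range = A := by
    rw [FreeGroup.range_lift_eq_closure, hacl]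
  have e : FreeGroup (Fin s) ≃* A :=
    (MonoidHom.ofInjective hainj).trans (MulEquiv.subgroupCongr h1)
  exact IsFreeGroup.ofMulEquiv e

private theorem PdH_freeC {G : Type} [Group G] (C A : Subgroup G) (hCA : C ≤ A)
    (hA : IsFreeGroup A) : IsFreeGroup C := by
  have h1 : IsFreeGroup (C.subgroupOf A) := inferInstance
  exact IsFreeGroup.ofMulEquiv (Subgroup.subgroupOfEquivOfLe hCA)

private theorem PdH_lift {G κ : Type} [Group G] {t : ℕ} (c : κ → G) (e : Fin t ≃ κ)
    (h : Function.Injective (FreeGroup.lift c)) :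
    Function.Injective (FreeGroup.lift fun i => c (e i)) := by
  have h1 : FreeGroup.lift (fun i => c (e i)) =
      (FreeGroup.lift c).comp (FreeGroup.freeGroupCongr e).toMonoidHom := by
    apply FreeGroup.ext_hom
    intro i
    simp
  rw [h1]
  exact h.comp (FreeGroup.freeGroupCongr e).injective

/-- the HNN extension is generated by `B` and `t` -/
private theorem PdH_gen {G : Type} [Group G] (H B : Subgroup G) (t : G) (hH : IsHNNG H B t) :
    B ⊔ Subgroup.closure {t} = H := by
  obtain ⟨hB, ht, univ⟩ := hH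
  have htc : t ∈ Subgroup.closure ({t} : Set G) := Subgroup.subset_closure rfl
  have htK : t ∈ B ⊔ Subgroup.closure {t} := Subgroup.mem_sup_right htc
  apply le_antisymm
  · refine sup_le hB ?_
    rw [Subgroup.closure_le]
    rintro x rfl
    exact ht
  obtain ⟨F, ⟨hF1, hF2⟩, -⟩ := univ (↥(B ⊔ Subgroup.closure {t}))
    (Subgroup.inclusion le_sup_left) ⟨t, htK⟩ (fun x h h' => rfl)
  obtain ⟨F', -, huniq⟩ := univ G B.subtype t (fun x _ _ => rfl)
  have h1 : (B ⊔ Subgroup.closure {t}).subtype.comp F = F' := by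
    apply huniq
    refine ⟨fun x hx hxH => ?_, fun h => ?_⟩
    · rw [MonoidHom.comp_apply, hF1 x hx hxH]; rfl
    · rw [MonoidHom.comp_apply, hF2 h]; rfl
  have h2 : H.subtype = F' := by
    apply huniq
    exact ⟨fun x hx hxH => rfl, fun h => rfl⟩
  intro x hx
  have h3 : (B ⊔ Subgroup.closure {t}).subtype (F ⟨x, hx⟩) = x := by
    have h4 := DFunLike.congr_fun (h1.trans h2.symm) ⟨x, hx⟩
    exact h4
  rw [← h3]
  exact (F ⟨x, hx⟩).2

/-- the rows of the HNN extension -/
private theorem PdH_pd {G : Type} [Group G] (H B : Subgroup G) (t : G) {N ρ m : ℕ}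
    (hH : IsHNNG H B t) (z : Fin N → G) (X : Fin ρ → Fin N → GR G) (hPD : PD B z X)
    (c : Fin m → G) (hc : ∀ l, c l ∈ assoc B t)
    (JC : Fin m → Fin N → GR G) (hJC : ∀ l, Fund z (c l) (JC l))
    (hsC : ∀ l ν, InSub B (JC l ν))
    (JD : Fin m → Fin N → GR G) (hJD : ∀ l, Fund z (t * c l * t⁻¹) (JD l))
    (hsD : ∀ l ν, InSub B (JD l ν))
    (hinj : ∀ v : Fin ρ ⊕ Fin m → G → ℝ, (∀ i, Sq (v i)) →
      (∀ ν y, ∑ i, ra (v (Sum.inl i)) (X i ν) y +
        ∑ l, ra (v (Sum.inr l)) (el t * JC l ν - JD l ν) y = 0) →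
      (∀ y, ∑ l, ra (v (Sum.inr l)) (1 - el (t * c l * t⁻¹)) y = 0) → v = 0) :
    HasPD H (N + 1) (ρ + m) := by
  have h0 := hasPD_of (ρ := Fin ρ ⊕ Fin m) (N := Fin N ⊕ Unit) H (Sum.elim z fun _ => t)
    (Sum.elim (fun i => Sum.elim (X i) fun _ => 0)
      (fun l => Sum.elim (fun ν => el t * JC l ν - JD l ν) fun _ => 1 - el (t * c l * t⁻¹)))
    { gen := by
        rw [← PdH_gen H B t hH, ← hPD.gen]
        apply le_antisymm
        · rw [Subgroup.closure_le]
          rintro x ⟨ν, rfl⟩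
          rcases ν with ν | ν
          · exact Subgroup.mem_sup_left (Subgroup.subset_closure ⟨ν, rfl⟩)
          · exact Subgroup.mem_sup_right (Subgroup.subset_closure rfl)
        · refine sup_le ?_ ?_
          · rw [Subgroup.closure_le]
            rintro x ⟨ν, rfl⟩
            exact Subgroup.subset_closure ⟨Sum.inl ν, rfl⟩
          · rw [Subgroup.closure_le]
            rintro x rfl
            exact Subgroup.subset_closure ⟨Sum.inr (), rfl⟩
      rel := by
        intro i
        rw [Fintype.sum_sum_type]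
        rcases i with i | l
        · show ∑ ν, X i ν * (el (z ν) - 1) + ∑ _ν : Unit, (0 : GR G) * (el t - 1) = 0
          rw [hPD.rel i, Finset.sum_eq_zero fun _ _ => zero_mul _, add_zero]
        · show ∑ ν, (el t * JC l ν - JD l ν) * (el (z ν) - 1) +
            ∑ _ν : Unit, (1 - el (t * c l * t⁻¹) : GR G) * (el t - 1) = 0
          have h5 : ∑ _ν : Unit, (1 - el (t * c l * t⁻¹) : GR G) * (el t - 1) =
              (1 - el (t * c l * t⁻¹) : GR G) * (el t - 1) := Fintype.sum_unique _
          rw [h5]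
          have h1 : ∑ ν, (el t * JC l ν - JD l ν) * (el (z ν) - 1) =
              el t * ∑ ν, JC l ν * (el (z ν) - 1) - ∑ ν, JD l ν * (el (z ν) - 1) := by
            rw [Finset.mul_sum, ← Finset.sum_sub_distrib]
            refine Finset.sum_congr rfl fun ν _ => ?_
            rw [sub_mul, mul_assoc]
          have h2 : el (c l) - 1 = ∑ ν, JC l ν * (el (z ν) - 1) := hJC l
          have h3 : el (t * c l * t⁻¹) - 1 = ∑ ν, JD l ν * (el (z ν) - 1) := hJD l
          have h4 : (el (t * c l * t⁻¹) * el t : GR G) = el t * el (c l) := by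
            rw [← PAL.el_mul, ← PAL.el_mul, inv_mul_cancel_right]
          rw [h1, ← h2, ← h3, sub_mul, one_mul, mul_sub (el (t * c l * t⁻¹)), h4]
          rw [mul_sub, mul_one, mul_one]
          abel
      supp := by
        intro i ν
        rcases i with i | l
        · rcases ν with ν | ν
          · exact PdH_mono hH.1 (hPD.supp i ν)
          · exact inSub_zero H
        · rcases ν with ν | ν
          · show InSub H (el t * JC l ν - JD l ν)
            rw [sub_eq_add_neg]
            exact inSub_add (inSub_el_mul hH.2.1 (PdH_mono hH.1 (hsC l ν)))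
              (inSub_neg (PdH_mono hH.1 (hsD l ν)))
          · show InSub H (1 - el (t * c l * t⁻¹))
            rw [sub_eq_add_neg]
            exact inSub_add inSub_one (inSub_neg (inSub_el (hH.1 (hc l).2)))
      inj := by
        intro v hv hv0
        refine hinj v hv ?_ ?_
        · intro ν y
          have h1 := hv0 (Sum.inl ν) y
          rw [Fintype.sum_sum_type] at h1
          exact h1
        · intro y
          have h1 := hv0 (Sum.inr ()) y
          rw [Fintype.sum_sum_type] at h1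
          have h2 : ∑ i : Fin ρ, ra (v (Sum.inl i)) (0 : GR G) y = 0 :=
            Finset.sum_eq_zero fun i _ => ra_zero_right _ _
          have h3 : ∑ i : Fin ρ, ra (v (Sum.inl i)) (0 : GR G) y +
              ∑ l, ra (v (Sum.inr l)) (1 - el (t * c l * t⁻¹)) y = 0 := h1
          rw [h2, zero_add] at h3
          exact h3 }
  rw [Fintype.card_sum, Fintype.card_sum, Fintype.card_fin, Fintype.card_fin, Fintype.card_fin,
    Fintype.card_unit] at h0
  exact h0

private theorem PdH_inj {G κ : Type} [Group G] [Fintype κ] [DecidableEq κ] (p : ℕ) [Fact p.Prime]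
    (hres : ResQ p G) (B A V : Subgroup G) (t : G) {N ρ s : ℕ} (z : Fin N → G)
    (X : Fin ρ → Fin N → GR G) (hz : PD B z X) (hCA : assoc B t ≤ A)
    (hAV : A ≤ V) (hVi : V.FiniteIndex)
    (a : Fin s → G) (hV : FLV p V a) (c : κ → G) (hc : ∀ l, c l ∈ assoc B t)
    (hfree : ∀ m : κ, ∃ D : assoc B t → GR (assoc B t),
      IsDer (MonoidHom.id (assoc B t)) D ∧ ∀ l, D ⟨c l, hc l⟩ = if l = m then 1 else 0)
    (JA : κ → Fin s → GR G) (hJA : ∀ l, Fund a (c l) (JA l)) (hsA : ∀ l i, InSub A (JA l i))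
    (JC : κ → Fin N → GR G) (hJC : ∀ l, Fund z (c l) (JC l)) (hsC : ∀ l ν, InSub B (JC l ν))
    (Jt : κ → Fin N → GR G) (hJt : ∀ l, Fund z (t * c l * t⁻¹) (Jt l))
    (hst : ∀ l ν, InSub B (Jt l ν))
    (T : Set G) (hT₁ : ∀ x b : G, b ∈ B → x ∈ T → x * b ∈ T) (hT₂ : ∀ x ∈ B, x ∉ T)
    (hT₃ : ∀ x : G, x ∈ T ↔ (x * t ∈ T ∨ x * t ∈ assoc B t))
    (v : Fin ρ ⊕ κ → G → ℝ) (hv : ∀ i, Sq (v i))
    (h₁ : ∀ ν y, ∑ i, ra (v (Sum.inl i)) (X i ν) y +
      ∑ l, ra (v (Sum.inr l)) (el t * JC l ν - Jt l ν) y = 0)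
    (h₂ : ∀ y, ∑ l, ra (v (Sum.inr l)) (1 - el (t * c l * t⁻¹)) y = 0) : v = 0 := by
  have e1 := interH p hres B A V t hCA hAV hVi z X hz.rel hz.supp a hV c hc hfree JA hJA hsA
    JC hJC hsC Jt hJt hst T hT₁ hT₂ hT₃ (fun i => v (Sum.inl i)) (fun l => v (Sum.inr l))
    (fun _ => hv _) (fun _ => hv _) h₁ h₂
  have e2 : ∀ l, v (Sum.inr l) = 0 := fun l => congrFun e1 l
  have e3 : (fun i => v (Sum.inl i)) = 0 := by
    refine hz.inj _ (fun i => hv _) fun ν y => ?_
    have h4 := h₁ ν y
    have h5 : ∑ l, ra (v (Sum.inr l)) (el t * JC l ν - Jt l ν) y = 0 := by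
      refine Finset.sum_eq_zero fun l _ => ?_
      rw [e2 l]
      exact ra_zero_left _ _
    rw [h5, add_zero] at h4
    exact h4
  funext i
  rcases i with i | l
  · exact congrFun e3 i
  · exact e2 l

theorem pd_hnnE {G : Type} [Group G] (p : ℕ) [Fact p.Prime] (hres : ResQ p G)
    (H B A V : Subgroup G) (t : G) {N ρ : ℕ} (hB : HasPD B N ρ) (hCA : assoc B t ≤ A)
    (hAV : A ≤ V) (hVi : V.FiniteIndex) {s : ℕ} (a : Fin s → G)
    (hacl : Subgroup.closure (Set.range a) = A) (hainj : Function.Injective (FreeGroup.lift a))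
    (hV : FLV p V a) (hH : IsHNNG H B t) :
    ∃ (m : ℕ) (c : Fin m → G), Subgroup.closure (Set.range c) = assoc B t ∧
      Function.Injective (FreeGroup.lift c) ∧ HasPD H (N + 1) (ρ + m) := by
  classical
  obtain ⟨z, X, hPD⟩ := hB
  have hA : IsFreeGroup A := PdH_free A a hacl hainj
  obtain ⟨κ, c, hccl, hcinj⟩ := exists_basis (assoc B t) (PdH_freeC (assoc B t) A hCA hA)
  have hc : ∀ l, c l ∈ assoc B t := by
    intro l
    rw [← hccl]
    exact Subgroup.subset_closure ⟨l, rfl⟩
  choose JA hJA hsA using fun l => exists_fund a A hacl (c l) (hCA (hc l))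
  choose JC hJC hsC using fun l => exists_fund z B hPD.gen (c l) (hc l).1
  choose Jt hJt hst using fun l => exists_fund z B hPD.gen (t * c l * t⁻¹) (hc l).2
  obtain ⟨T, hT₁, hT₂, hT₃⟩ := tree_hnn H B t hH
  have key : ∀ (κ' : Type) [Fintype κ'] [DecidableEq κ'] (j : κ' → κ), Function.Injective j →
      ∀ v : Fin ρ ⊕ κ' → G → ℝ, (∀ i, Sq (v i)) →
        (∀ ν y, ∑ i, ra (v (Sum.inl i)) (X i ν) y +
          ∑ l, ra (v (Sum.inr l)) (el t * JC (j l) ν - Jt (j l) ν) y = 0) →
        (∀ y, ∑ l, ra (v (Sum.inr l)) (1 - el (t * c (j l) * t⁻¹)) y = 0) → v = 0 := by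
    intro κ' _ _ j hj v hv h1 h2
    refine PdH_inj p hres B A V t z X hPD hCA hAV hVi a hV (fun l => c (j l))
      (fun l => hc (j l)) ?_ (fun l => JA (j l)) (fun l => hJA (j l)) (fun l => hsA (j l))
      (fun l => JC (j l)) (fun l => hJC (j l)) (fun l => hsC (j l)) (fun l => Jt (j l)) (fun l => hJt (j l)) (fun l => hst (j l)) T hT₁ hT₂ hT₃
      v hv h1 h2
    intro m
    obtain ⟨D, hD, hD2⟩ := dual_der (assoc B t) c hccl hcinj (j m)
    refine ⟨D, hD, fun l => ?_⟩
    rw [hD2 (j l) (hc (j l))]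
    by_cases hl : l = m
    · rw [if_pos hl, if_pos (congrArg j hl)]
    · rw [if_neg hl, if_neg fun h => hl (hj h)]
  have hcard : ∀ (κ' : Type) [Fintype κ'] [DecidableEq κ'] (j : κ' → κ), Function.Injective j →
      Fintype.card κ' ≤ N + 1 := by
    intro κ' _ _ j hj
    by_contra hlt
    have h1 : Fintype.card (Fin N ⊕ Unit) < Fintype.card (Fin ρ ⊕ κ') := by
      simp only [Fintype.card_sum, Fintype.card_fin, Fintype.card_unit]
      omega
    obtain ⟨v, hv0, hv, h0⟩ := exists_kernel p hres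
      (Sum.elim (fun i => Sum.elim (X i) fun _ => 0)
        (fun l => Sum.elim (fun ν => el t * JC (j l) ν - Jt (j l) ν)
          fun _ => 1 - el (t * c (j l) * t⁻¹)) : Fin ρ ⊕ κ' → Fin N ⊕ Unit → GR G) h1
    refine hv0 (key κ' j hj v hv ?_ ?_)
    · intro ν y
      have h2 := h0 (Sum.inl ν) y
      rw [Fintype.sum_sum_type] at h2
      exact h2
    · intro y
      have h2 := h0 (Sum.inr ()) y
      rw [Fintype.sum_sum_type] at h2
      have h3 : ∑ i : Fin ρ, ra (v (Sum.inl i)) (0 : GR G) y = 0 :=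
        Finset.sum_eq_zero fun i _ => ra_zero_right _ _
      have h4 : ∑ i : Fin ρ, ra (v (Sum.inl i)) (0 : GR G) y +
          ∑ l, ra (v (Sum.inr l)) (1 - el (t * c (j l) * t⁻¹)) y = 0 := h2
      rw [h3, zero_add] at h4
      exact h4
  have hfin : Finite κ := by
    by_contra hinf
    rw [not_finite_iff_infinite] at hinf
    obtain ⟨F, hF⟩ := Infinite.exists_subset_card_eq κ (N + 2)
    have h1 := hcard F (fun l => l.1) Subtype.val_injective
    rw [Fintype.card_coe, hF] at h1
    omega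
  have := Fintype.ofFinite κ
  obtain ⟨m, ⟨e⟩⟩ : ∃ m : ℕ, Nonempty (Fin m ≃ κ) :=
    ⟨Fintype.card κ, ⟨(Fintype.equivFin κ).symm⟩⟩
  refine ⟨m, fun l => c (e l), ?_, PdH_lift c e hcinj, ?_⟩
  · rw [← hccl]
    congr 1
    exact e.surjective.range_comp c
  · exact PdH_pd H B t hH z X hPD (fun l => c (e l)) (fun l => hc (e l))
      (fun l => JC (e l)) (fun l => hJC (e l)) (fun l => hsC (e l))
      (fun l => Jt (e l)) (fun l => hJt (e l)) (fun l => hst (e l))
      (key (Fin m) e e.injective)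

end PAN
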