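import Pool.Agent.PAN.Defs

/-!
# PAN/TwoGen (module PAN-TwoGen): two-generated subgroups

`pemb_two`: there is a homomorphism `f` to a finite `p`-group which does not kill the commutator of `a` and `b`. The image of
`closure {a, b}` is a finite `p`-group generated by two elements which do not commute, so a homomorphism to `Z/p` may have
arbitrary values on them (`TwoGen_all`), and every homomorphism from `closure {a, b}` to `Z/p` factors through `f`.

`cyclic_of_comm`: a commutative free group has a basis with at most one element.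
-/

set_option autoImplicit false

open PFC PAL PAM

namespace PAN

/-- a proper subgroup of a finite `p`-group is killed by a nontrivial homomorphism to `Z/p` -/
private theorem TwoGen_hom {H : Type} [Group H] [Finite H] (p : ℕ) [hp : Fact p.Prime]
    (hH : IsPGroup p H) (K : Subgroup H) (hK : K ≠ ⊤) :
    ∃ h : H →* Multiplicative (ZMod p), Function.Surjective h ∧ ∀ k ∈ K, h k = 1 := by
  obtain ⟨M, hM, hKM⟩ := (eq_top_or_exists_le_coatom K).resolve_left hK
  have hnil : Group.IsNilpotent H := hH.isNilpotent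
  have hMn : M.Normal := Subgroup.NormalizerCondition.normal_of_coatom M
    Group.normalizerCondition_of_isNilpotent hM
  have hQ : IsPGroup p (H ⧸ M) := hH.to_quotient M
  have hnt : Nontrivial (H ⧸ M) := by
    rw [QuotientGroup.nontrivial_iff]
    exact hM.1
  have hdvd : p ∣ Nat.card (H ⧸ M) := by
    obtain ⟨n, hn⟩ := IsPGroup.iff_card.1 hQ
    have h1 : 1 < Nat.card (H ⧸ M) := Finite.one_lt_card
    rw [hn] at h1 ⊢
    refine dvd_pow_self p ?_
    rintro rfl
    simp at h1
  obtain ⟨x, hx⟩ := exists_prime_orderOf_dvd_card' p hdvd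
  have htop : Subgroup.zpowers x = ⊤ := by
    have h1 : M ≤ (Subgroup.zpowers x).comap (QuotientGroup.mk' M) := by
      intro m hm
      have h2 : QuotientGroup.mk' M m = 1 := (QuotientGroup.eq_one_iff m).2 hm
      rw [Subgroup.mem_comap, h2]
      exact Subgroup.one_mem _
    rcases h1.eq_or_lt with h | h
    · exfalso
      obtain ⟨g, rfl⟩ := QuotientGroup.mk'_surjective M x
      have h2 : g ∈ (Subgroup.zpowers (QuotientGroup.mk' M g)).comap (QuotientGroup.mk' M) :=
        Subgroup.mem_zpowers _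
      rw [← h] at h2
      have h3 : QuotientGroup.mk' M g = 1 := (QuotientGroup.eq_one_iff g).2 h2
      rw [h3, orderOf_one] at hx
      exact hp.out.one_lt.ne hx
    · have h2 := hM.2 _ h
      rw [eq_top_iff]
      intro z _
      obtain ⟨g, rfl⟩ := QuotientGroup.mk'_surjective M z
      have h3 : g ∈ (Subgroup.zpowers x).comap (QuotientGroup.mk' M) := by
        rw [h2]
        exact Subgroup.mem_top g
      exact h3
  have hcard : Nat.card (H ⧸ M) = p := by
    rw [← orderOf_eq_card_of_zpowers_eq_top htop, hx]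
  have hcard2 : Nat.card (Multiplicative (ZMod p)) = p := Nat.card_zmod p
  refine ⟨(mulEquivOfPrimeCardEq hcard hcard2).toMonoidHom.comp (QuotientGroup.mk' M), ?_, ?_⟩
  · exact (mulEquivOfPrimeCardEq hcard hcard2).surjective.comp (QuotientGroup.mk'_surjective M)
  · intro k hk
    have h2 : QuotientGroup.mk' M k = 1 := (QuotientGroup.eq_one_iff k).2 (hKM hk)
    rw [MonoidHom.comp_apply, h2, map_one]

private theorem TwoGen_pow (p : ℕ) [hp : Fact p.Prime] (c m : Multiplicative (ZMod p)) (hc : c ≠ 1) :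
    ∃ i : ℕ, c ^ i = m := by
  have hc' : Multiplicative.toAdd c ≠ 0 := fun h => hc (Multiplicative.toAdd.injective h)
  refine ⟨(Multiplicative.toAdd m / Multiplicative.toAdd c).val, ?_⟩
  apply Multiplicative.toAdd.injective
  rw [toAdd_pow, nsmul_eq_mul, ZMod.natCast_zmod_val, div_mul_cancel₀ _ hc']

private theorem TwoGen_one {K : Type} [Group K] [Finite K] (p : ℕ) [Fact p.Prime] (hK : IsPGroup p K) (u v : K)
    (huv : Subgroup.closure {u, v} = ⊤) (hn : u * v ≠ v * u) :
    ∃ k : K →* Multiplicative (ZMod p), k u = 1 ∧ k v ≠ 1 := by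
  have h1 : Subgroup.zpowers u ≠ ⊤ := by
    intro h
    have hv : v ∈ Subgroup.zpowers u := by
      rw [h]
      exact Subgroup.mem_top v
    obtain ⟨n, hn'⟩ := Subgroup.mem_zpowers_iff.1 hv
    apply hn
    rw [← hn']
    exact (Commute.refl u).zpow_right n
  obtain ⟨k, hk, hk1⟩ := TwoGen_hom p hK _ h1
  have hu : k u = 1 := hk1 u (Subgroup.mem_zpowers u)
  refine ⟨k, hu, fun hv => ?_⟩
  have h2 : Subgroup.closure {u, v} ≤ k.ker := by
    rw [Subgroup.closure_le]
    rintro x (rfl | rfl)
    · exact hu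
    · exact hv
  rw [huv] at h2
  obtain ⟨z, hz⟩ := hk (Multiplicative.ofAdd 1)
  have h3 : k z = 1 := h2 (Subgroup.mem_top z)
  rw [h3] at hz
  have h4 : (0 : ZMod p) = 1 := Multiplicative.ofAdd.injective hz
  exact one_ne_zero h4.symm

private theorem TwoGen_all {K : Type} [Group K] [Finite K] (p : ℕ) [Fact p.Prime] (hK : IsPGroup p K) (u v : K)
    (huv : Subgroup.closure {u, v} = ⊤) (hn : u * v ≠ v * u) (m n : Multiplicative (ZMod p)) :
    ∃ k : K →* Multiplicative (ZMod p), k u = m ∧ k v = n := by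
  obtain ⟨k1, h1, h1'⟩ := TwoGen_one p hK u v huv hn
  obtain ⟨k2, h2, h2'⟩ := TwoGen_one p hK v u (by rw [Set.pair_comm]; exact huv) (Ne.symm hn)
  obtain ⟨i, hi⟩ := TwoGen_pow p (k1 v) n h1'
  obtain ⟨j, hj⟩ := TwoGen_pow p (k2 u) m h2'
  refine ⟨k2 ^ j * k1 ^ i, ?_, ?_⟩
  · rw [MonoidHom.mul_apply, MonoidHom.pow_apply, MonoidHom.pow_apply, h1, hj, one_pow, mul_one]
  · rw [MonoidHom.mul_apply, MonoidHom.pow_apply, MonoidHom.pow_apply, h2, hi, one_pow, one_mul]

private theorem TwoGen_top {G : Type} [Group G] (a b : G) (ha : a ∈ Subgroup.closure {a, b})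
    (hb : b ∈ Subgroup.closure {a, b}) :
    Subgroup.closure {(⟨a, ha⟩ : Subgroup.closure {a, b}), ⟨b, hb⟩} = ⊤ := by
  refine Eq.trans ?_ (Subgroup.closure_closure_coe_preimage (k := {a, b}))
  congr 1
  ext x
  simp only [Set.mem_insert_iff, Set.mem_singleton_iff, Set.mem_preimage, Subtype.ext_iff]

private theorem TwoGen_sub {X : Type*} (h : ∀ x y : FreeGroup X, x * y = y * x) : Subsingleton X := by
  classical
  refine ⟨fun x y => ?_⟩
  by_contra hxy
  have h1 := congrArg (FreeGroup.lift fun z : X => if z = x then (Equiv.swap 0 1 : Equiv.Perm (Fin 3)) else Equiv.swap 1 2)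
    (h (FreeGroup.of x) (FreeGroup.of y))
  rw [map_mul, map_mul, FreeGroup.lift_apply_of, FreeGroup.lift_apply_of, if_pos rfl, if_neg (Ne.symm hxy)] at h1
  revert h1
  decide

private theorem TwoGen_cyc {X : Type*} [Subsingleton X] : IsCyclic (FreeGroup X) := by
  rcases isEmpty_or_nonempty X with hX | ⟨⟨x⟩⟩
  · exact isCyclic_of_subsingleton
  · have hz : ∀ g : FreeGroup X, g ∈ Subgroup.zpowers (FreeGroup.of x) := by
      intro g
      induction g using FreeGroup.induction_on with
      | C1 => exact one_mem _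
      | of y =>
        rw [Subsingleton.elim y x]
        exact Subgroup.mem_zpowers _
      | inv_of y _ =>
        rw [Subsingleton.elim y x]
        exact inv_mem (Subgroup.mem_zpowers _)
      | mul g h hg hh => exact mul_mem hg hh
    exact ⟨⟨FreeGroup.of x, fun g => Subgroup.mem_zpowers_iff.1 (hz g)⟩⟩

theorem pemb_two {G : Type} [Group G] (p : ℕ) [Fact p.Prime] (hres : ResQ p G) (a b : G)
    (hab : a * b ≠ b * a) : PEmb p (Subgroup.closure {a, b}) := by
  obtain ⟨W, _, f, hW, hpW, hf⟩ := hres (a * b * a⁻¹ * b⁻¹) fun h =>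
    hab (mul_inv_eq_iff_eq_mul.1 (mul_inv_eq_one.1 h))
  refine ⟨f.ker, inferInstance, ?_, ?_⟩
  · rw [Subgroup.index_ker]
    exact IsPGroup.iff_card.1 (hpW.to_subgroup f.range)
  intro h g hg hgU
  have ha : a ∈ Subgroup.closure {a, b} := Subgroup.subset_closure (Set.mem_insert a _)
  have hb : b ∈ Subgroup.closure {a, b} := Subgroup.subset_closure (Set.mem_insert_of_mem a rfl)
  let F := (f.comp (Subgroup.closure {a, b}).subtype).rangeRestrict
  have hA := TwoGen_top a b ha hb
  have hR : IsPGroup p (f.comp (Subgroup.closure {a, b}).subtype).range := hpW.to_subgroup _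
  have hcl : Subgroup.closure {F ⟨a, ha⟩, F ⟨b, hb⟩} = ⊤ := by
    rw [← Set.image_pair, ← MonoidHom.map_closure, hA]
    exact Subgroup.map_top_of_surjective _ (MonoidHom.rangeRestrict_surjective _)
  have hn : F ⟨a, ha⟩ * F ⟨b, hb⟩ ≠ F ⟨b, hb⟩ * F ⟨a, ha⟩ := by
    intro h1
    have h2 : f a * f b = f b * f a := congrArg Subtype.val h1
    apply hf
    rw [map_mul, map_mul, map_mul, map_inv, map_inv, h2, mul_inv_cancel_right, mul_inv_cancel]
  obtain ⟨k, hk1, hk2⟩ := TwoGen_all p hR _ _ hcl hn (h ⟨a, ha⟩) (h ⟨b, hb⟩)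
  have hh : h = k.comp F := by
    refine MonoidHom.eq_of_eqOn_dense hA ?_
    rintro x (rfl | rfl)
    · exact hk1.symm
    · exact hk2.symm
  have hFg : F ⟨g, hg⟩ = 1 := Subtype.ext hgU
  rw [hh, MonoidHom.comp_apply, hFg, map_one]

theorem cyclic_of_comm {G : Type} [Group G] (C : Subgroup G) (hC : IsFreeGroup C) (a b : G)
    (hcl : Subgroup.closure {a, b} = C) (hab : a * b = b * a) : IsCyclic C := by
  have hk : Subgroup.closure {a, b} ≤ Subgroup.centralizer {a, b} := by
    rw [Subgroup.closure_le]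
    rintro x (rfl | rfl)
    · rw [SetLike.mem_coe, Subgroup.mem_centralizer_iff]
      rintro y (rfl | rfl)
      · rfl
      · exact hab.symm
    · rw [SetLike.mem_coe, Subgroup.mem_centralizer_iff]
      rintro y (rfl | rfl)
      · exact hab
      · rfl
  have hcomm : ∀ x y : C, x * y = y * x := by
    intro x y
    have hx : (x : G) ∈ Subgroup.closure {a, b} := by
      rw [hcl]
      exact x.2
    have hy : (y : G) ∈ Subgroup.closure {a, b} := by
      rw [hcl]
      exact y.2
    have h1 := Subgroup.closure_le_centralizer_centralizer {a, b} hx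
    have h2 := Subgroup.mem_centralizer_iff.1 h1 y (hk hy)
    exact Subtype.ext h2.symm
  have e := IsFreeGroup.toFreeGroup C
  have h2 : ∀ x y : FreeGroup (IsFreeGroup.Generators C), x * y = y * x := fun x y => by
    have h3 := congrArg e (hcomm (e.symm x) (e.symm y))
    rwa [map_mul, map_mul, e.apply_symm_apply, e.apply_symm_apply] at h3
  have h4 := TwoGen_sub h2
  have h5 : IsCyclic (FreeGroup (IsFreeGroup.Generators C)) := TwoGen_cyc
  exact isCyclic_of_surjective e.symm e.symm.surjective

end PAN
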