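import Pool.Agent.PAM.Main
import Pool.Agent.PAN.PdA
import Pool.Agent.PAN.PdH
import Pool.Agent.PAN.Emb
import Pool.Agent.PAN.TwoGen
import Pool.Agent.PAN.HomP

/-!
# PAN/Main: the closure theorem for edge groups in nice subgroups

The nice subgroup `A` which contains the edge group is an arbitrary subgroup of `G`; it need not be contained in a
vertex group.
-/

set_option autoImplicit false

open PFC PAL PAM CategoryTheory

namespace PAN

def Nice {G : Type} [Group G] (A : Subgroup G) : Prop :=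
  IsFreeGroup A ∧ A.FG ∧
    ((∃ a b : G, Subgroup.closure {a, b} = A) ∨
      Function.Injective (Abelianization.map A.subtype) ∨
      ∃ p : ℕ, p.Prime ∧ PEmb p A)

inductive Cls {G : Type} [Group G] (P : Subgroup G → Prop) : Subgroup G → Prop
  | base (B : Subgroup G) (hfg : B.FG) (hP : P B) : Cls P B
  | amalg (H B₁ B₂ A : Subgroup G) (h₁ : Cls P B₁) (h₂ : Cls P B₂) (hA : Nice A)
      (hCA : B₁ ⊓ B₂ ≤ A) (hH : PAL.IsAmalgam H B₁ B₂) : Cls P H
  | hnn (H B A : Subgroup G) (t : G) (hB : Cls P B) (hA : Nice A) (hCA : assoc B t ≤ A)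
      (hH : IsHNNG H B t) : Cls P H

theorem nice_cases {G : Type} [Group G] [Group.FG G] (hres : ∀ p : ℕ, p.Prime → ResQ p G)
    (A : Subgroup G) (hA : Nice A) : IsCyclic A ∨ ∃ p : ℕ, p.Prime ∧ PEmb p A := by
  obtain ⟨hf, hfg, ⟨a, b, hab⟩ | h | h⟩ := hA
  · by_cases hc : a * b = b * a
    · exact Or.inl (cyclic_of_comm A hf a b hab hc)
    · refine Or.inr ⟨2, Nat.prime_two, ?_⟩
      have : Fact (Nat.Prime 2) := ⟨Nat.prime_two⟩
      rw [← hab]
      exact pemb_two 2 (hres 2 Nat.prime_two) a b hc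
  · exact Or.inr (pemb_homInj A h)
  · exact Or.inr h

theorem cyclic_le {G : Type} [Group G] (C A : Subgroup G) (h : C ≤ A) (hA : IsCyclic A) :
    IsCyclic C := by
  have h1 : IsCyclic (C.subgroupOf A) := inferInstance
  exact isCyclic_of_surjective (Subgroup.subgroupOfEquivOfLe h)
    (Subgroup.subgroupOfEquivOfLe h).surjective

theorem pd_amalgN {G : Type} [Group G] [Group.FG G] {r : ℕ} (x : Fin r → G) (hx : PRT.Para x)
    (hres : ∀ p : ℕ, p.Prime → ResQ p G) (H B₁ B₂ A : Subgroup G) {N ρ N' ρ' : ℕ}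
    (h₁ : HasPD B₁ N ρ) (h₂ : HasPD B₂ N' ρ') (hA : Nice A) (hCA : B₁ ⊓ B₂ ≤ A)
    (hH : PAL.IsAmalgam H B₁ B₂) :
    ∃ (t : ℕ) (c : Fin t → G), Subgroup.closure (Set.range c) = B₁ ⊓ B₂ ∧
      Function.Injective (FreeGroup.lift c) ∧ HasPD H (N + N') (ρ + t + ρ') := by
  rcases nice_cases hres A hA with h | ⟨p, hp, h⟩
  · exact pd_cyc hres H B₁ B₂ h₁ h₂ (cyclic_le _ A hCA h) (amalgam_sup H B₁ B₂ hH)
  · have : Fact p.Prime := ⟨hp⟩
    obtain ⟨s, a, hacl, hainj, -⟩ := exists_basis_fg A hA.1 hA.2.1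
    obtain ⟨V, hAV, hVi, hV⟩ := exists_flv p x hx A a hacl hainj h
    exact pd_amalgE p (hres p hp) H B₁ B₂ A V h₁ h₂ hCA hAV hVi a hacl hainj hV hH

theorem pd_hnnN {G : Type} [Group G] [Group.FG G] {r : ℕ} (x : Fin r → G) (hx : PRT.Para x)
    (hres : ∀ p : ℕ, p.Prime → ResQ p G) (H B A : Subgroup G) (t : G) {N ρ : ℕ}
    (hB : HasPD B N ρ) (hA : Nice A) (hCA : assoc B t ≤ A) (hH : IsHNNG H B t) :
    ∃ (m : ℕ) (c : Fin m → G), Subgroup.closure (Set.range c) = assoc B t ∧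
      Function.Injective (FreeGroup.lift c) ∧ HasPD H (N + 1) (ρ + m) := by
  rcases nice_cases hres A hA with h | ⟨p, hp, h⟩
  · exact pd_hnnC hres H B t hB (cyclic_le _ A hCA h) hH
  · have : Fact p.Prime := ⟨hp⟩
    obtain ⟨s, a, hacl, hainj, -⟩ := exists_basis_fg A hA.1 hA.2.1
    obtain ⟨V, hAV, hVi, hV⟩ := exists_flv p x hx A a hacl hainj h
    exact pd_hnnE p (hres p hp) H B A V t hB hCA hAV hVi a hacl hainj hV hH

theorem cls_sp {G : Type} [Group G] [Group.FG G] {r : ℕ} (x : Fin r → G) (hx : PRT.Para x)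
    (hres : ∀ p : ℕ, p.Prime → ResQ p G) (P : Subgroup G → Prop)
    (hP : ∀ B : Subgroup G, P B → Limits.IsZero (groupHomology (Rep.trivial ℤ B ℤ) 2))
    (H : Subgroup G) (hH : Cls P H) : ∃ p0 : ℕ, ∀ p : ℕ, p.Prime → p0 ≤ p → Sp p H := by
  induction hH with
  | base B hfg hPB =>
    have : Group.FG B := (Group.fg_iff_subgroup_fg B).2 hfg
    obtain ⟨p0, hp0⟩ := lift_base B
    refine ⟨p0, fun p hp hle => ?_⟩
    have : Fact p.Prime := ⟨hp⟩
    obtain ⟨N, ρ, h1, h2⟩ := pd_base p (hres p hp) B hfg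
    exact ⟨hfg, N, ρ, h1, h2.ge, fun _ => ⟨hp0 p hp hle, coc_of_h2 B (hP B hPB)⟩⟩
  | amalg H B₁ B₂ A _ _ hA hCA hH ih ih' =>
    obtain ⟨p1, h1⟩ := ih
    obtain ⟨p2, h2⟩ := ih'
    refine ⟨max p1 p2, fun p hp hle => ?_⟩
    have : Fact p.Prime := ⟨hp⟩
    refine sp_amalg p H B₁ B₂ (h1 p hp (le_of_max_le_left hle))
      (h2 p hp (le_of_max_le_right hle)) hH fun N ρ N' ρ' h3 h4 => ?_
    exact pd_amalgN x hx hres H B₁ B₂ A h3 h4 hA hCA hH
  | hnn H B A t _ hA hCA hH ih =>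
    obtain ⟨p1, h1⟩ := ih
    refine ⟨p1, fun p hp hle => ?_⟩
    have : Fact p.Prime := ⟨hp⟩
    exact sp_hnn p H B t (h1 p hp hle) hH fun N ρ h3 =>
      pd_hnnN x hx hres H B A t h3 hA hCA hH

theorem cls_cd {G : Type} [Group G] (P : Subgroup G → Prop)
    (hP : ∀ B : Subgroup G, P B → PdLT B (Tr B) 3) (H : Subgroup G)
    (hH : Cls P H) : PdLT G (LK H) 2 := by
  induction hH with
  | base B hfg hPB => exact pd_LK B 2 (by norm_num) (hP B hPB)
  | amalg H B₁ B₂ A _ _ hA hCA hH ih ih' =>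
    exact cd_amalg H B₁ B₂ hH (free_of_le _ A hCA hA.1) ih ih'
  | hnn H B A t _ hA hCA hH ih => exact cd_hnnG H B t hH (free_of_le _ A hCA hA.1) ih

theorem main (G : Type) [Group G] [Group.FG G] (hG : PF.IsParafree G) (P : Subgroup G → Prop)
    (h : Cls P (⊤ : Subgroup G)) :
    ((∀ B : Subgroup G, P B → Limits.IsZero (groupHomology (Rep.trivial ℤ B ℤ) 2)) →
      Limits.IsZero (groupHomology (Rep.trivial ℤ G ℤ) 2)) ∧
    ((∀ B : Subgroup G, P B → PdLT B (Tr B) 3) → PdLT G (Tr G) 3) := by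
  classical
  obtain ⟨r, x, hx⟩ := PRT.exists_para G hG
  have hres : ∀ p : ℕ, p.Prime → ResQ p G := fun p hp => by
    have : Fact p.Prime := ⟨hp⟩
    exact resQ_parafree G hG.1 x hx p
  refine ⟨fun hP => ?_, fun hP => ?_⟩
  · obtain ⟨p0, h1⟩ := cls_sp x hx hres P hP ⊤ h
    obtain ⟨p, hle, hp⟩ := Nat.exists_infinite_primes p0
    have : Fact p.Prime := ⟨hp⟩
    obtain ⟨-, N, ρ, h2, -, h3⟩ := h1 p hp hle
    have h4 := pd_rank x hx p (hres p hp) h2
    have h6 : H2z (⊤ : Subgroup G) := by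
      refine (h3 ?_).2
      rw [show PAM.hp p (⊤ : Subgroup G) = p ^ r from hp_top x hx p, ← pow_add]
      exact Nat.pow_le_pow_right hp.pos (by omega)
    exact PF.isZero_H2 G (h2z_top G h6)
  · have h1 := cls_cd P hP ⊤ h
    refine pd_tr G 2 ?_
    rw [LK_top] at h1
    exact h1

end PAN
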