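import Pool.Agent.PAN.Blk
import Pool.Agent.PAN.Ind

/-!
# PAN/Relax: relaxed columns vanish

`transferV` with `J = X`, `J' = T`.  At a finite level the pairing of the rows with the induced derivation
(`ind_der`, `pair_sum`) gives `∑ i, E i • D (a i) = 0` for the remaining column entries `E i`, and `E = 0` by `FLV`.
-/

set_option autoImplicit false

open PFC PAL PAM

namespace PAN

private theorem Relax_swap {ι C R A M : Type} [Fintype ι] [Fintype C] [Fintype R] [Ring A]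
    [AddCommGroup M] [Module A M] (F : R → ι → C → A) (m : ι → C → M) :
    ∑ ℓ, ∑ i, ∑ c, F ℓ i c • m i c = ∑ i, ∑ c, (∑ ℓ, F ℓ i c) • m i c := by
  rw [Finset.sum_comm]
  refine Finset.sum_congr rfl fun i _ => ?_
  rw [Finset.sum_comm]
  refine Finset.sum_congr rfl fun c _ => ?_
  rw [Finset.sum_smul]

private theorem Relax_zero {ι C R A M : Type} [Fintype ι] [Fintype C] [Fintype R] [Ring A]
    [AddCommGroup M] [Module A M] (F : R → ι → C → A) (m : ι → C → M)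
    (h : ∀ i c, ∑ ℓ, F ℓ i c = 0) : ∑ i, ∑ c, (∑ ℓ, F ℓ i c) • m i c = 0 := by
  refine Finset.sum_eq_zero fun i _ => Finset.sum_eq_zero fun c _ => ?_
  rw [h i c, zero_smul]

private theorem Relax_one {ι C R A M : Type} [Fintype ι] [Fintype C] [Fintype R] [Ring A]
    [AddCommGroup M] [Module A M] (F : R → ι → C → A) (m : ι → C → M) (c₀ : C)
    (h : ∀ i c, c ≠ c₀ → ∑ ℓ, F ℓ i c = 0) :
    ∑ i, ∑ c, (∑ ℓ, F ℓ i c) • m i c = ∑ i, (∑ ℓ, F ℓ i c₀) • m i c₀ := by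
  refine Finset.sum_congr rfl fun i _ => ?_
  refine Finset.sum_eq_single c₀ (fun c _ hc => ?_) (fun hc => absurd (Finset.mem_univ _) hc)
  rw [h i c hc, zero_smul]

theorem relax {G R S σ : Type} [Group G] [Fintype R] [Fintype S] [Fintype σ] (p : ℕ)
    [Fact p.Prime] (hres : ResQ p G) (V : Subgroup G) (hVi : V.FiniteIndex) (a : σ → G)
    (hV : FLV p V a) (ζ : S → G) (X : R → S → GR G) (T : R → σ → GR G)
    (hrel : ∀ ℓ, ∑ j, X ℓ j * (el (ζ j) - 1) + ∑ i, T ℓ i * (el (a i) - 1) = 0)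
    (v : R → G → ℝ) (hv : ∀ ℓ, Sq (v ℓ)) (h0 : ∀ j y, ∑ ℓ, ra (v ℓ) (X ℓ j) y = 0)
    (h1 : ∀ i y, y ∉ V → ∑ ℓ, ra (v ℓ) (T ℓ i) y = 0) :
    ∀ i y, ∑ ℓ, ra (v ℓ) (T ℓ i) y = 0 := by
  classical
  haveI : V.FiniteIndex := hVi
  haveI : Fintype (G ⧸ V) := Fintype.ofFinite _
  refine transferV p hres V X T ?_ v hv h0 h1
  intro Q _ _ hQ θ u hX hT
  obtain ⟨ha, hF⟩ := hV
  have hE := hF Q hQ (θ.comp V.subtype)
    (fun i => ∑ l, ∑ c, u l c * mp θ (blk V c ((1 : G) : G ⧸ V) (T l i))) ?_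
  · intro i
    exact congrFun hE i
  intro M _ _ D hD
  obtain ⟨D', hD', hD1⟩ := ind_der V θ D hD
  have e1 : ∑ ℓ, (∑ j, ∑ c', (∑ c, u ℓ c * mp θ (blk V c c' (X ℓ j))) • D' (ζ j) c' +
      ∑ i, ∑ c', (∑ c, u ℓ c * mp θ (blk V c c' (T ℓ i))) • D' (a i) c') = 0 :=
    Finset.sum_eq_zero fun ℓ _ => pair_sum V θ D' hD' (u ℓ) ζ (X ℓ) a (T ℓ) (hrel ℓ)
  rw [Finset.sum_add_distrib,
    Relax_swap (fun ℓ j c' => ∑ c, u ℓ c * mp θ (blk V c c' (X ℓ j))) (fun j c' => D' (ζ j) c'),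
    Relax_swap (fun ℓ i c' => ∑ c, u ℓ c * mp θ (blk V c c' (T ℓ i))) (fun i c' => D' (a i) c'),
    Relax_zero (fun ℓ j c' => ∑ c, u ℓ c * mp θ (blk V c c' (X ℓ j))) (fun j c' => D' (ζ j) c')
      (fun j c' => hX j c'),
    Relax_one (fun ℓ i c' => ∑ c, u ℓ c * mp θ (blk V c c' (T ℓ i))) (fun i c' => D' (a i) c')
      ((1 : G) : G ⧸ V) (fun i c' hc => hT i c' hc), zero_add] at e1
  rw [← e1]
  refine Finset.sum_congr rfl fun i _ => ?_
  have e2 : D' (a i) ((1 : G) : G ⧸ V) = D ⟨a i, ha i⟩ := hD1 ⟨a i, ha i⟩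
  rw [e2]

end PAN
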